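import Pool.Agent.Run7.h336.CB.B18

/-!
Project CA: windows without zeros exist.
-/

set_option autoImplicit false

open Complex Filter Topology Set MeasureTheory
open scoped ComplexConjugate

namespace Pool.Agent.Run7.h114.CA.WS

open Pool.Agent.Run7.h336.CB.S (Window)

/-- a window about `±t` -/
lemma window_at {X : ℂ → ℂ} (hX : Continuous X) (hpar : (∀ z, X (-z) = X z) ∨ ∀ z, X (-z) = -X z) {t : ℝ}
    (ht : X t ≠ 0) : ∃ S : Set ℝ, Window S ∧ ∀ u ∈ S, X u ≠ 0 := by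
  have hneg : ∀ u : ℝ, X u ≠ 0 → X ((-u : ℝ) : ℂ) ≠ 0 := by
    intro u hu
    rw [Complex.ofReal_neg]
    rcases hpar with h | h
    · rw [h]; exact hu
    · rw [h]; exact neg_ne_zero.2 hu
  have habs : ∀ u : ℝ, X ((|u| : ℝ) : ℂ) ≠ 0 ↔ X u ≠ 0 := by
    intro u
    rcases abs_choice u with h | h
    · rw [h]
    · rw [h]
      exact ⟨fun h1 => by simpa using hneg _ h1, hneg u⟩
  have hc : Continuous fun u : ℝ => X u := hX.comp Complex.continuous_ofReal
  have h1 : ∀ᶠ u : ℝ in 𝓝 |t|, X u ≠ 0 := hc.continuousAt.eventually_ne ((habs t).2 ht)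
  obtain ⟨ε, hε, h2⟩ := Metric.eventually_nhds_iff.1 h1
  have hcont : Continuous fun u : ℝ => |(|u| - |t|)| := by fun_prop
  refine ⟨{u : ℝ | |(|u| - |t|)| ≤ ε / 2}, ⟨?_, fun u hu => ?_, ?_⟩, fun u hu => ?_⟩
  · refine Metric.isCompact_of_isClosed_isBounded (isClosed_le hcont continuous_const) ?_
    refine (Metric.isBounded_iff_subset_closedBall (0 : ℝ)).2 ⟨|t| + ε / 2, fun u hu => ?_⟩
    rw [mem_closedBall_zero_iff, Real.norm_eq_abs]
    have := (abs_le.1 (show |(|u| - |t|)| ≤ ε / 2 from hu)).2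
    linarith
  · show |(|(-u)| - |t|)| ≤ ε / 2
    rw [abs_neg]
    exact hu
  · refine ⟨|t|, mem_interior.2 ⟨{u : ℝ | |(|u| - |t|)| < ε / 2}, fun u hu => ?_,
      isOpen_lt hcont continuous_const, ?_⟩⟩
    · have hu' : |(|u| - |t|)| < ε / 2 := hu
      exact hu'.le
    show |(|(|t|)| - |t|)| < ε / 2
    rw [abs_abs, sub_self, abs_zero]
    linarith
  · rw [← habs u]
    refine h2 ?_
    rw [Real.dist_eq]
    exact lt_of_le_of_lt (show |(|u| - |t|)| ≤ ε / 2 from hu) (by linarith)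

open Y23.G in
/-- windows without zeros exist -/
theorem exists_window (L : LFun) (X : ℂ → ℂ) {C : ℂ} (hC : C ≠ 0) (hX : ∀ z, L.X (1 / 2 + I * z) = C * X z)
    (hpar : (∀ z, X (-z) = X z) ∨ ∀ z, X (-z) = -X z) : ∃ S : Set ℝ, Window S ∧ ∀ u ∈ S, X u ≠ 0 := by
  obtain ⟨w, hw, h1⟩ := exists_nonzero (L := L)
  have hX' : X = fun z => C⁻¹ * L.X (1 / 2 + I * z) := by
    funext z
    rw [hX, ← mul_assoc, inv_mul_cancel₀ hC, one_mul]
  have hcont : Continuous X := by
    rw [hX']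
    exact continuous_const.mul ((Xd (L := L)).continuous.comp (by fun_prop))
  refine window_at hcont hpar (t := w.im) ?_
  rw [hX']
  refine mul_ne_zero (inv_ne_zero hC) ?_
  have e : (1 / 2 : ℂ) + I * ((w.im : ℝ) : ℂ) = 1 / 2 + w := by
    congr 1
    apply Complex.ext
    · simp [hw]
    · simp
  rw [e]
  exact h1

end Pool.Agent.Run7.h114.CA.WS
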