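import Mathlib

/-!
Project CA, piece P9: an explicit bound of `completedRiemannZeta₀` in the strip `-1 ≤ re s ≤ 2` and the
nonvanishing of zeta in `0 < re s < 1`, `|im s| ≤ 11/2`.
-/

set_option autoImplicit false

open Complex Filter Topology Set MeasureTheory

namespace Pool.Agent.Y23.G.CA

noncomputable section

/-- theta minus one -/
lemma theta_bound {t : ℝ} (ht : 1 ≤ t) :
    0 ≤ HurwitzZeta.cosKernel 0 t - 1 ∧
      HurwitzZeta.cosKernel 0 t - 1 ≤ 2 / (1 - Real.exp (-Real.pi)) * Real.exp (-Real.pi * t) := by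
  have ht0 : 0 < t := by linarith
  have h := HurwitzZeta.hasSum_nat_cosKernel₀ 0 ht0
  have h' : HasSum (fun n : ℕ => 2 * Real.exp (-Real.pi * (n + 1) ^ 2 * t))
      (HurwitzZeta.cosKernel 0 t - 1) := by
    have h1 := h
    simp only [mul_zero, zero_mul, Real.cos_zero, mul_one] at h1
    simpa using h1
  have hpi := Real.pi_pos
  have he1 : Real.exp (-Real.pi) < 1 := by
    rw [Real.exp_lt_one_iff]; linarith
  have he0 := Real.exp_pos (-Real.pi)
  refine ⟨h'.nonneg fun n => by positivity, ?_⟩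
  have hg := (hasSum_geometric_of_lt_one he0.le he1).mul_left (2 * Real.exp (-Real.pi * t))
  refine (hasSum_le ?_ h' hg).trans (le_of_eq (by rw [div_eq_mul_inv]; ring))
  intro n
  rw [← Real.exp_nat_mul, mul_assoc 2, ← Real.exp_add]
  refine mul_le_mul_of_nonneg_left (Real.exp_le_exp.2 ?_) (by norm_num)
  have hn : (0 : ℝ) ≤ n := Nat.cast_nonneg n
  have h1 : (n : ℝ) ≤ ((n : ℝ) ^ 2 + 2 * n) * t := by
    nlinarith [mul_nonneg (mul_nonneg hn hn) ht0.le, mul_nonneg hn (sub_nonneg.2 ht)]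
  nlinarith [mul_le_mul_of_nonneg_left h1 hpi.le]

/-- the majorant -/
def gm (x : ℝ) : ℝ := (Ioi (1 : ℝ)).indicator (fun y => Real.exp (-Real.pi * y)) x

lemma gm_nonneg (x : ℝ) : 0 ≤ gm x := by
  unfold gm
  exact indicator_nonneg (fun y _ => (Real.exp_pos _).le) x

lemma gm_of_lt {x : ℝ} (hx : 1 < x) : gm x = Real.exp (-Real.pi * x) := by
  unfold gm
  rw [indicator_of_mem (by exact hx)]

lemma integrableOn_gm : IntegrableOn gm (Ioi 0) := by
  unfold gm
  rw [IntegrableOn, integrable_indicator_iff measurableSet_Ioi, IntegrableOn,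
    Measure.restrict_restrict measurableSet_Ioi]
  refine (exp_neg_integrableOn_Ioi 0 Real.pi_pos).mono_set ?_ |>.congr_fun (fun x _ => rfl) ?_
  · exact inter_subset_right
  · exact measurableSet_Ioi.inter measurableSet_Ioi

lemma integral_gm : ∫ x in Ioi (0 : ℝ), gm x = Real.exp (-Real.pi) / Real.pi := by
  unfold gm
  rw [setIntegral_indicator measurableSet_Ioi, inter_eq_right.2 (Ioi_subset_Ioi zero_le_one)]
  rw [integral_exp_mul_Ioi (by linarith [Real.pi_pos])]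
  rw [mul_one, neg_div_neg_eq]

lemma integrableOn_gm' : IntegrableOn (fun x : ℝ => x ^ (-2 : ℝ) * gm (x ^ (-1 : ℝ))) (Ioi 0) := by
  have h := (integrableOn_Ioi_comp_rpow_iff gm (p := -1) (by norm_num)).2 integrableOn_gm
  refine h.congr_fun (fun x _ => ?_) measurableSet_Ioi
  simp only [abs_neg, abs_one, one_mul, smul_eq_mul]
  norm_num

lemma integral_gm' : ∫ x in Ioi (0 : ℝ), x ^ (-2 : ℝ) * gm (x ^ (-1 : ℝ)) = Real.exp (-Real.pi) / Real.pi := by
  rw [← integral_gm, ← integral_comp_rpow_Ioi gm (p := -1) (by norm_num)]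
  refine setIntegral_congr_fun measurableSet_Ioi fun x _ => ?_
  simp only [abs_neg, abs_one, one_mul, smul_eq_mul]
  norm_num

/-- the constant -/
def cc : ℝ := 2 / (1 - Real.exp (-Real.pi))

lemma cc_pos : 0 < cc := by
  unfold cc
  have : Real.exp (-Real.pi) < 1 := by
    rw [Real.exp_lt_one_iff]; linarith [Real.pi_pos]
  exact div_pos two_pos (by linarith)

lemma fmodif_bound {s : ℂ} (h1 : -1 ≤ s.re) (h2 : s.re ≤ 2) {x : ℝ} (hx : 0 < x) :
    ‖(x : ℂ) ^ (s / 2 - 1) • (HurwitzZeta.hurwitzEvenFEPair 0).f_modif x‖ ≤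
      cc * (gm x + x ^ (-2 : ℝ) * gm (x ^ (-1 : ℝ))) := by
  have hcc := cc_pos
  have hre : (s / 2 - 1).re = s.re / 2 - 1 := by simp
  rw [norm_smul, Complex.norm_cpow_eq_rpow_re_of_pos hx, hre]
  rcases lt_trichotomy x 1 with hx1 | rfl | hx1
  · have hxi : 1 < x⁻¹ := (one_lt_inv₀ hx).2 hx1
    have hf : (HurwitzZeta.hurwitzEvenFEPair 0).f_modif x =
        ((x ^ (-(1 / 2) : ℝ) * (HurwitzZeta.cosKernel 0 (x⁻¹) - 1) : ℝ) : ℂ) := by
      rw [WeakFEPair.f_modif, Pi.add_apply, indicator_of_notMem (notMem_Ioi.2 hx1.le), zero_add,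
        indicator_of_mem (mem_Ioo.2 ⟨hx, hx1⟩)]
      simp only [HurwitzZeta.hurwitzEvenFEPair, Function.comp_apply, smul_eq_mul, mul_one, one_mul]
      rw [HurwitzZeta.evenKernel_functional_equation, Real.rpow_neg hx.le, one_div, one_div]
      push_cast
      ring
    rw [hf, Complex.norm_real, Real.norm_eq_abs, abs_mul,
      abs_of_nonneg (Real.rpow_nonneg hx.le _), abs_of_nonneg (theta_bound hxi.le).1]
    have h3 := (theta_bound hxi.le).2
    have h4 : x ^ (s.re / 2 - 1) * x ^ (-(1 / 2) : ℝ) ≤ x ^ (-2 : ℝ) := by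
      rw [← Real.rpow_add hx]
      exact Real.rpow_le_rpow_of_exponent_ge hx hx1.le (by linarith)
    have h5 : gm (x ^ (-1 : ℝ)) = Real.exp (-Real.pi * x⁻¹) := by
      rw [Real.rpow_neg_one, gm_of_lt hxi]
    rw [h5]
    have h6 : 0 ≤ cc * gm x := mul_nonneg hcc.le (gm_nonneg x)
    calc x ^ (s.re / 2 - 1) * (x ^ (-(1 / 2) : ℝ) * (HurwitzZeta.cosKernel 0 x⁻¹ - 1))
        = (x ^ (s.re / 2 - 1) * x ^ (-(1 / 2) : ℝ)) * (HurwitzZeta.cosKernel 0 x⁻¹ - 1) := by ring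
      _ ≤ x ^ (-2 : ℝ) * (cc * Real.exp (-Real.pi * x⁻¹)) :=
          mul_le_mul h4 h3 (theta_bound hxi.le).1 (Real.rpow_nonneg hx.le _)
      _ ≤ _ := by nlinarith
  · have hf : (HurwitzZeta.hurwitzEvenFEPair 0).f_modif 1 = 0 := by
      simp [WeakFEPair.f_modif]
    rw [hf, norm_zero, mul_zero]
    exact mul_nonneg hcc.le (add_nonneg (gm_nonneg _) (mul_nonneg (Real.rpow_nonneg zero_le_one _) (gm_nonneg _)))
  · have hf : (HurwitzZeta.hurwitzEvenFEPair 0).f_modif x =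
        ((HurwitzZeta.cosKernel 0 x - 1 : ℝ) : ℂ) := by
      rw [WeakFEPair.f_modif, Pi.add_apply, indicator_of_mem (mem_Ioi.2 hx1),
        indicator_of_notMem (notMem_Ioo_of_ge hx1.le), add_zero]
      simp only [HurwitzZeta.hurwitzEvenFEPair, Function.comp_apply, if_true]
      rw [HurwitzZeta.evenKernel_eq_cosKernel_of_zero]
      push_cast
      ring
    rw [hf, Complex.norm_real, Real.norm_eq_abs, abs_of_nonneg (theta_bound hx1.le).1]
    have h3 := (theta_bound hx1.le).2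
    have h4 : x ^ (s.re / 2 - 1) ≤ 1 :=
      Real.rpow_le_one_of_one_le_of_nonpos hx1.le (by linarith)
    rw [gm_of_lt hx1]
    have h6 : 0 ≤ cc * (x ^ (-2 : ℝ) * gm (x ^ (-1 : ℝ))) :=
      mul_nonneg hcc.le (mul_nonneg (Real.rpow_nonneg hx.le _) (gm_nonneg _))
    calc x ^ (s.re / 2 - 1) * (HurwitzZeta.cosKernel 0 x - 1)
        ≤ 1 * (cc * Real.exp (-Real.pi * x)) :=
          mul_le_mul h4 h3 (theta_bound hx1.le).1 zero_le_one
      _ ≤ _ := by nlinarith

/-- bound of `completedRiemannZeta₀` -/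
theorem norm_completedRiemannZeta₀_le {s : ℂ} (h1 : -1 ≤ s.re) (h2 : s.re ≤ 2) :
    ‖completedRiemannZeta₀ s‖ ≤ 2 * Real.exp (-Real.pi) / ((1 - Real.exp (-Real.pi)) * Real.pi) := by
  have h0 : completedRiemannZeta₀ s = ((HurwitzZeta.hurwitzEvenFEPair 0).Λ₀ (s / 2)) / 2 := rfl
  have h3 : ‖(HurwitzZeta.hurwitzEvenFEPair 0).Λ₀ (s / 2)‖ ≤
      cc * (Real.exp (-Real.pi) / Real.pi + Real.exp (-Real.pi) / Real.pi) := by
    have hi : IntegrableOn (fun x : ℝ => cc * (gm x + x ^ (-2 : ℝ) * gm (x ^ (-1 : ℝ)))) (Ioi 0) :=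
      (integrableOn_gm.add integrableOn_gm').const_mul cc
    have h4 : ‖(HurwitzZeta.hurwitzEvenFEPair 0).Λ₀ (s / 2)‖ ≤
        ∫ x in Ioi (0 : ℝ), cc * (gm x + x ^ (-2 : ℝ) * gm (x ^ (-1 : ℝ))) := by
      unfold WeakFEPair.Λ₀ mellin
      refine norm_integral_le_of_norm_le hi ?_
      filter_upwards [ae_restrict_mem measurableSet_Ioi] with x hx
      exact fmodif_bound h1 h2 hx
    rw [integral_const_mul, integral_add integrableOn_gm integrableOn_gm', integral_gm, integral_gm'] at h4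
    exact h4
  rw [h0, norm_div, Complex.norm_ofNat]
  have hpi := Real.pi_pos
  have he1 : Real.exp (-Real.pi) < 1 := by
    rw [Real.exp_lt_one_iff]; linarith
  have he2 : 1 - Real.exp (-Real.pi) ≠ 0 := by linarith
  have h5 : cc * (Real.exp (-Real.pi) / Real.pi + Real.exp (-Real.pi) / Real.pi) / 2 =
      2 * Real.exp (-Real.pi) / ((1 - Real.exp (-Real.pi)) * Real.pi) := by
    unfold cc
    field_simp
    norm_num
  rw [← h5]
  gcongr

lemma exp_neg_pi_le : Real.exp (-Real.pi) ≤ 0.0434 := by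
  have h1 : Real.exp (-Real.pi) ≤ Real.exp (-(3.14 : ℝ)) := Real.exp_le_exp.2 (by linarith [Real.pi_gt_d2])
  have h2 : (23.05 : ℝ) ≤ Real.exp 3.14 := by
    have h3 : Real.exp 3.14 = Real.exp 1 ^ 3 * Real.exp 0.14 := by
      rw [← Real.exp_nat_mul, ← Real.exp_add]
      norm_num
    have h4 : (2.7182 : ℝ) ≤ Real.exp 1 := by linarith [Real.exp_one_gt_d9]
    have h5 : (1.1498 : ℝ) ≤ Real.exp 0.14 := by
      have := Real.quadratic_le_exp_of_nonneg (x := 0.14) (by norm_num)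
      norm_num at this ⊢
      linarith
    rw [h3]
    calc (23.05 : ℝ) ≤ 2.7182 ^ 3 * 1.1498 := by norm_num
      _ ≤ _ := by gcongr
  refine h1.trans ?_
  rw [Real.exp_neg]
  rw [inv_le_comm₀ (Real.exp_pos _) (by norm_num)]
  refine le_trans ?_ h2
  norm_num

theorem norm_completedRiemannZeta₀_lt {s : ℂ} (h1 : -1 ≤ s.re) (h2 : s.re ≤ 2) :
    ‖completedRiemannZeta₀ s‖ < 1 / 34 := by
  refine (norm_completedRiemannZeta₀_le h1 h2).trans_lt ?_
  have h3 := exp_neg_pi_le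
  have h4 := Real.pi_gt_d2
  have h5 := Real.exp_pos (-Real.pi)
  rw [div_lt_div_iff₀ (mul_pos (by linarith) Real.pi_pos) (by norm_num)]
  nlinarith

/-- `s(s-1) Λ₀(s) + 1` has no zeros with `0 ≤ re s ≤ 1` and `|im s| ≤ 11/2` -/
theorem X_ne_zero {s : ℂ} (h0 : 0 ≤ s.re) (h1 : s.re ≤ 1) (ht : |s.im| ≤ 11 / 2) :
    s * (s - 1) * completedRiemannZeta₀ s + 1 ≠ 0 := by
  intro h
  have h2 : ‖s * (s - 1)‖ ≤ 1 / 2 + (11 / 2) ^ 2 := by
    rw [norm_mul]
    have h3 : ‖s‖ ^ 2 = s.re ^ 2 + s.im ^ 2 := by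
      rw [Complex.sq_norm, Complex.normSq_apply]; ring
    have h4 : ‖s - 1‖ ^ 2 = (s.re - 1) ^ 2 + s.im ^ 2 := by
      rw [Complex.sq_norm, Complex.normSq_apply, Complex.sub_re, Complex.sub_im, Complex.one_re, Complex.one_im]; ring
    have h5 : s.im ^ 2 ≤ (11 / 2) ^ 2 := sq_le_sq' (by linarith [(abs_le.1 ht).1]) (abs_le.1 ht).2
    nlinarith [sq_nonneg (‖s‖ - ‖s - 1‖), mul_nonneg h0 (sub_nonneg.2 h1)]
  have h3 := norm_completedRiemannZeta₀_lt (s := s) (by linarith) (by linarith)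
  have h4 : ‖s * (s - 1) * completedRiemannZeta₀ s‖ = 1 := by
    rw [eq_neg_of_add_eq_zero_left h, norm_neg, norm_one]
  rw [norm_mul] at h4
  nlinarith [norm_nonneg (s * (s - 1)), norm_nonneg (completedRiemannZeta₀ s)]

/-- zeta has no zeros with `0 < re s < 1`, `|im s| ≤ 11/2` -/
theorem zeta_ne_zero_low {s : ℂ} (h0 : 0 < s.re) (h1 : s.re < 1) (ht : |s.im| ≤ 11 / 2) :
    riemannZeta s ≠ 0 := by
  have hs0 : s ≠ 0 := by
    rintro rfl; simp at h0
  have hs1 : s ≠ 1 := by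
    rintro rfl; simp at h1
  have hs1' : 1 - s ≠ 0 := sub_ne_zero.2 hs1.symm
  rw [riemannZeta_def_of_ne_zero hs0]
  refine div_ne_zero ?_ (Gammaℝ_ne_zero_of_re_pos h0)
  intro h
  refine X_ne_zero h0.le h1.le ht ?_
  rw [completedRiemannZeta_eq] at h
  have h2 : completedRiemannZeta₀ s = 1 / s + 1 / (1 - s) := by linear_combination h
  rw [h2]
  field_simp
  ring_nf

/-- P9 -/
theorem zeta_half_ne' {t : ℝ} (ht : |t| ≤ 11 / 2) : riemannZeta (1 / 2 + t * I) ≠ 0 := by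
  refine zeta_ne_zero_low (by simp) (by norm_num) (by simpa using ht)

theorem zeta_half_ne {t : ℝ} (ht : |t| ≤ 1) : riemannZeta (1 / 2 + t * I) ≠ 0 :=
  zeta_half_ne' (ht.trans (by norm_num))

/-- the same for `X` at the shifted point -/
theorem X_half_ne {t : ℝ} (ht : |t| ≤ 11 / 2) :
    (1 / 2 + t * I : ℂ) * ((1 / 2 + t * I : ℂ) - 1) * completedRiemannZeta₀ (1 / 2 + t * I) + 1 ≠ 0 :=
  X_ne_zero (by simp) (by norm_num) (by simpa using ht)

end

end Pool.Agent.Y23.G.CA
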