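import Mathlib

/-!
Project CA: the product of an L-function and its dual (lemmas over Mathlib).
-/

set_option autoImplicit false

open Complex Filter Topology
open scoped ComplexConjugate

namespace Pool.Agent.Run7.h114.CA.Dual

/-- the Euler product condition -/
def Cv (b c : ℕ → ℂ) : Prop := ∀ n : ℕ, n ≠ 0 → b n * ((Real.log n : ℝ) : ℂ) =
  ∑ d ∈ n.divisors, ((ArithmeticFunction.vonMangoldt d : ℝ) : ℂ) * c d * b (n / d)

lemma taf_apply (f : ℕ → ℂ) {n : ℕ} (hn : n ≠ 0) : toArithmeticFunction f n = f n := by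
  show (if n = 0 then 0 else f n) = f n
  rw [if_neg hn]

lemma key {b c : ℕ → ℂ} (h : Cv b c) : toArithmeticFunction (fun n => b n * ((Real.log n : ℝ) : ℂ)) =
    toArithmeticFunction (fun d => ((ArithmeticFunction.vonMangoldt d : ℝ) : ℂ) * c d) * toArithmeticFunction b := by
  ext n
  rcases eq_or_ne n 0 with rfl | hn
  · simp
  · rw [ArithmeticFunction.mul_apply, Nat.sum_divisorsAntidiagonal (fun x y =>
      toArithmeticFunction (fun d => ((ArithmeticFunction.vonMangoldt d : ℝ) : ℂ) * c d) x * toArithmeticFunction b y),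
      taf_apply _ hn, h n hn]
    refine Finset.sum_congr rfl fun d hd => ?_
    have hd0 : d ≠ 0 := (Nat.pos_of_mem_divisors hd).ne'
    have hnd : n / d ≠ 0 := by
      have h1 := Nat.divisor_le hd
      have h2 : 0 < n / d := Nat.div_pos h1 (Nat.pos_of_mem_divisors hd)
      exact h2.ne'
    rw [taf_apply _ hd0, taf_apply _ hnd]

lemma leib (B B' : ArithmeticFunction ℂ) :
    toArithmeticFunction (fun n => (B * B') n * ((Real.log n : ℝ) : ℂ)) =
      toArithmeticFunction (fun n => B n * ((Real.log n : ℝ) : ℂ)) * B' +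
        B * toArithmeticFunction (fun n => B' n * ((Real.log n : ℝ) : ℂ)) := by
  ext n
  rcases eq_or_ne n 0 with rfl | hn
  · simp
  · rw [taf_apply _ hn, ArithmeticFunction.add_apply, ArithmeticFunction.mul_apply, ArithmeticFunction.mul_apply,
      ArithmeticFunction.mul_apply, Finset.sum_mul, ← Finset.sum_add_distrib]
    refine Finset.sum_congr rfl fun p hp => ?_
    obtain ⟨hp1, hp2⟩ := Nat.ne_zero_of_mem_divisorsAntidiagonal hp
    have hpn := (Nat.mem_divisorsAntidiagonal.1 hp).1
    rw [taf_apply _ hp1, taf_apply _ hp2]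
    have hl : ((Real.log n : ℝ) : ℂ) = ((Real.log p.1 : ℝ) : ℂ) + ((Real.log p.2 : ℝ) : ℂ) := by
      rw [← hpn, Nat.cast_mul, Real.log_mul (by exact_mod_cast hp1) (by exact_mod_cast hp2), Complex.ofReal_add]
    rw [hl]
    ring

/-- the Euler product condition for a product -/
theorem conv_conv {b b' c c' : ℕ → ℂ} (h : Cv b c) (h' : Cv b' c') :
    Cv (LSeries.convolution b b') (fun d => c d + c' d) := by
  have h1 := leib (toArithmeticFunction b) (toArithmeticFunction b')
  have e1 : toArithmeticFunction (fun n => toArithmeticFunction b n * ((Real.log n : ℝ) : ℂ)) =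
      toArithmeticFunction (fun n => b n * ((Real.log n : ℝ) : ℂ)) :=
    toArithmeticFunction_congr fun {n} hn => by rw [taf_apply _ hn]
  have e2 : toArithmeticFunction (fun n => toArithmeticFunction b' n * ((Real.log n : ℝ) : ℂ)) =
      toArithmeticFunction (fun n => b' n * ((Real.log n : ℝ) : ℂ)) :=
    toArithmeticFunction_congr fun {n} hn => by rw [taf_apply _ hn]
  rw [e1, e2, key h, key h'] at h1
  intro n hn
  have h2 := congrArg (fun f : ArithmeticFunction ℂ => f n) h1
  rw [taf_apply _ hn] at h2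
  have h3 : toArithmeticFunction (fun d => ((ArithmeticFunction.vonMangoldt d : ℝ) : ℂ) * c d) * toArithmeticFunction b *
      toArithmeticFunction b' + toArithmeticFunction b *
        (toArithmeticFunction (fun d => ((ArithmeticFunction.vonMangoldt d : ℝ) : ℂ) * c' d) * toArithmeticFunction b') =
      (toArithmeticFunction (fun d => ((ArithmeticFunction.vonMangoldt d : ℝ) : ℂ) * c d) +
        toArithmeticFunction (fun d => ((ArithmeticFunction.vonMangoldt d : ℝ) : ℂ) * c' d)) *
        (toArithmeticFunction b * toArithmeticFunction b') := by ring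
  rw [h3] at h2
  have h4 : ∀ F G : ArithmeticFunction ℂ, (F * G) n = ∑ d ∈ n.divisors, F d * G (n / d) := fun F G => by
    rw [ArithmeticFunction.mul_apply, Nat.sum_divisorsAntidiagonal (fun x y => F x * G y)]
  rw [h4 (_ + _)] at h2
  show (toArithmeticFunction b * toArithmeticFunction b') n * ((Real.log n : ℝ) : ℂ) = _
  rw [h2]
  refine Finset.sum_congr rfl fun d hd => ?_
  have hd0 : d ≠ 0 := (Nat.pos_of_mem_divisors hd).ne'
  rw [ArithmeticFunction.add_apply, taf_apply _ hd0, taf_apply _ hd0]
  show _ = _ * _ * (toArithmeticFunction b * toArithmeticFunction b') (n / d)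
  ring

theorem conv_conj {b c : ℕ → ℂ} (h : Cv b c) : Cv (fun n => conj (b n)) (fun n => conj (c n)) := by
  intro n hn
  have h1 := congrArg conj (h n hn)
  rw [map_mul, Complex.conj_ofReal, map_sum] at h1
  rw [h1]
  refine Finset.sum_congr rfl fun d _ => ?_
  rw [map_mul, map_mul, Complex.conj_ofReal]

theorem convolution_one (b b' : ℕ → ℂ) : LSeries.convolution b b' 1 = b 1 * b' 1 := by
  rw [LSeries.convolution_def]
  simp

lemma natCast_cpow_conj (n : ℕ) (s : ℂ) : (n : ℂ) ^ (conj s) = conj ((n : ℂ) ^ s) := by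
  have h : (n : ℂ).arg ≠ Real.pi := by
    rw [Complex.natCast_arg]
    exact Real.pi_pos.ne
  rw [Complex.cpow_conj _ _ h, Complex.conj_natCast]

theorem Gammaℝ_conj (s : ℂ) : Gammaℝ (conj s) = conj (Gammaℝ s) := by
  have h : (Real.pi : ℂ).arg ≠ Real.pi := by
    rw [Complex.arg_ofReal_of_nonneg Real.pi_pos.le]
    exact Real.pi_pos.ne
  rw [Gammaℝ_def, Gammaℝ_def, map_mul]
  congr 1
  · have e : -(conj s) / 2 = conj (-s / 2) := by
      rw [map_div₀, map_neg, Complex.conj_ofNat]
    rw [e, Complex.cpow_conj _ _ h, Complex.conj_ofReal]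
  · have e : (conj s) / 2 = conj (s / 2) := by
      rw [map_div₀, Complex.conj_ofNat]
    rw [e, Complex.Gamma_conj]

lemma real_cpow_conj {Q : ℝ} (hQ : 0 ≤ Q) (s : ℂ) : (Q : ℂ) ^ (conj s) = conj ((Q : ℂ) ^ s) := by
  have h : (Q : ℂ).arg ≠ Real.pi := by
    rw [Complex.arg_ofReal_of_nonneg hQ]
    exact Real.pi_pos.ne
  rw [Complex.cpow_conj _ _ h, Complex.conj_ofReal]

lemma term_conj (b : ℕ → ℂ) (s : ℂ) (n : ℕ) :
    LSeries.term (fun n => conj (b n)) s n = conj (LSeries.term b (conj s) n) := by
  rcases eq_or_ne n 0 with rfl | hn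
  · simp
  · rw [LSeries.term_of_ne_zero hn, LSeries.term_of_ne_zero hn, map_div₀, natCast_cpow_conj, Complex.conj_conj]

theorem LSeries_conj (b : ℕ → ℂ) (s : ℂ) : LSeries (fun n => conj (b n)) s = conj (LSeries b (conj s)) := by
  unfold LSeries
  rw [Complex.conj_tsum]
  exact tsum_congr fun n => term_conj b s n

theorem summable_conj {b : ℕ → ℂ} {s : ℂ} (h : LSeriesSummable b (conj s)) :
    LSeriesSummable (fun n => conj (b n)) s := by
  unfold LSeriesSummable at h ⊢
  refine Summable.of_norm ?_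
  refine h.norm.congr fun n => ?_
  rw [term_conj, RCLike.norm_conj]

end Pool.Agent.Run7.h114.CA.Dual
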