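import Pool.Agent.Run7.h114.CA.HkT

/-!
Project CA: the L-function (class `LFun`) of a cusp form of weight `k` and level `N` with real coefficients, an Euler
product and any sign of the functional equation.
-/

set_option autoImplicit false
set_option linter.unusedSectionVars false
set_option maxHeartbeats 2000000

open Complex Filter Topology Set MeasureTheory
open scoped ComplexConjugate

namespace Pool.Agent.Run7.h114.CA.HkT

open Pool.Agent.Run7.h114.CA.Zv
open Pool.Agent.H471R3.GJ (Hc IsHc Hk IsHk)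
open Y23.G Y23.G.CA
open Pool.Agent.TH839.NA Pool.Agent.W355.LJ Pool.Agent.W355.UN

/-- **The L-function of a cusp form as an `LFun`.** -/
theorem lfun_of (H : Hk) (hH : IsHk H) (hp : H.p = 1) (hβ : H.β = H.k / 2) (hk : 1 ≤ H.k)
    (hh : 1 ≤ H.h) (hmul : ∀ m n : ℕ, Nat.Coprime m n → H.b (m * n) = H.b m * H.b n)
    (hpow : ∀ p : ℕ, p.Prime → ∃ e : ℝ, ∀ j : ℕ, H.b (p ^ (j + 2)) = H.b p * H.b (p ^ (j + 1)) - e * H.b (p ^ j))
    (X : ℂ → ℂ) (hX : ∀ z, X z = mellin (fun y => ((H.φ y : ℝ) : ℂ)) (((H.k / 2 : ℝ) : ℂ) + I * z)) :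
    ∃ L : LFun, L.m = 2 ∧ L.N = H.h ^ 2 ∧ ∃ C : ℂ, C ≠ 0 ∧ (∀ z, L.X (1 / 2 + I * z) = C * X z) ∧
      (∀ z, X (-z) = ((H.ε : ℝ) : ℂ) * X z) ∧
      ∀ a : ℝ, 0 < a → ∀ f, InDom a f → W H.k (H.h ^ 2) H.b a f = QQ (D := zd (L := L)) f := by
  have hHc := isHc H hH
  have hC := hc_isC1 (toHc H) hHc hp
  have hh0 : 0 < H.h := by linarith
  set x : ℝ := (H.k - 1) / 2 with hx
  have hb1 : H.b 1 = 1 := hH.b_one
  -- the Euler product
  have hE : Eu2 fun n => (((H.b n : ℝ) : ℂ) * pw (-x) n) * pw (-(1 / 2)) n := by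
    refine eu2_of_hecke (b := fun n => ((H.b n : ℝ) : ℂ) * pw (-x) n) (A := H.B) ?_ (fun m n hmn => ?_)
      (fun p hp => ?_) (fun n hn => ?_)
    · rw [hb1, pw_one]
      simp
    · rw [hmul m n hmn, pw_mul]
      push_cast
      ring
    · obtain ⟨e, he⟩ := hpow p hp
      refine ⟨((e : ℝ) : ℂ) * pw (-x) p ^ 2, fun j => ?_⟩
      have e1 : pw (-x) (p ^ (j + 2)) = pw (-x) p * pw (-x) (p ^ (j + 1)) := by
        rw [← pw_mul]
        congr 1
        ring
      have e2 : pw (-x) (p ^ (j + 1)) = pw (-x) p * pw (-x) (p ^ j) := by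
        rw [← pw_mul]
        congr 1
        ring
      rw [he j, e1, e2]
      push_cast
      ring
    · rw [norm_mul, pw_norm, Complex.norm_real, Real.norm_eq_abs]
      have hn0 : (0 : ℝ) < n := by exact_mod_cast hn
      calc |H.b n| * (n : ℝ) ^ (-x) ≤ (H.B * (n : ℝ) ^ H.β) * (n : ℝ) ^ (-x) :=
            mul_le_mul_of_nonneg_right (hH.b_le n hn) (Real.rpow_nonneg hn0.le _)
        _ = H.B * (n : ℝ) ^ (1 / 2 : ℝ) := by
            rw [mul_assoc, ← Real.rpow_add hn0]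
            congr 2
            rw [hβ, hx]
            ring
  obtain ⟨c, hc, hconv⟩ := conv_of_eu2 hE
  have hN1 : (1 : ℝ) ≤ H.h ^ 2 := by nlinarith
  have hlogN : Real.log H.h = 1 / 2 * Real.log (H.h ^ 2) := by
    rw [Real.log_pow]
    push_cast
    ring
  have hC2 : IsC (([(H.k - 1) / 2, (H.k + 1) / 2] : List ℝ).map Pc.one) (1 / 2 * Real.log (H.h ^ 2))
      (fun n => ((H.b n : ℝ) : ℂ) * pw (-x) n) ((H.ε : ℝ) : ℂ) (Lam1 (toHc H)) := by
    rw [← hlogN]
    exact hC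
  have hraw := rawT_of_isC (θ := 1 / 2) (by norm_num) (by norm_num) (by simp) hN1 (fun a ha => by
      simp only [List.mem_cons, List.not_mem_nil, or_false] at ha
      rcases ha with rfl | rfl <;> linarith) hC2 (by rcases hH.ε_or with h1 | h1 <;> rw [h1] <;> simp) (c := c) (fun n => by simpa using hc n) hconv
  let L : LFun :=
    { m := ((([(H.k - 1) / 2, (H.k + 1) / 2] : List ℝ)).map fun a : ℝ => (a : ℂ)).length
      r := 0
      N := H.h ^ 2
      a := fun j => ((([(H.k - 1) / 2, (H.k + 1) / 2] : List ℝ)).map fun a : ℝ => (a : ℂ)).get j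
      b := fun n => ((H.b n : ℝ) : ℂ) * pw (-x) n
      c := c
      X := Lam1 (toHc H)
      raw := hraw
      str := fun j => by
        have h1 := List.get_mem ((([(H.k - 1) / 2, (H.k + 1) / 2] : List ℝ)).map fun a : ℝ => (a : ℂ)) j
        obtain ⟨a, ha1, ha2⟩ := List.mem_map.1 h1
        rw [← ha2, Complex.ofReal_re]
        simp only [List.mem_cons, List.not_mem_nil, or_false] at ha1
        rcases ha1 with rfl | rfl <;> linarith }
  have hC0 : ((2 * H.h ^ (-((H.k - 1) / 2)) : ℝ) : ℂ) ≠ 0 := by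
    have : 0 < 2 * H.h ^ (-((H.k - 1) / 2)) := by positivity
    exact_mod_cast this.ne'
  have hXL : ∀ z, L.X (1 / 2 + I * z) = ((2 * H.h ^ (-((H.k - 1) / 2)) : ℝ) : ℂ) * X z := by
    intro z
    show Lam1 (toHc H) _ = _
    unfold Lam1
    rw [hX]
    show ((2 * H.h ^ (-((H.k - 1) / 2)) : ℝ) : ℂ) * mellin (fun y => ((H.φ y : ℝ) : ℂ)) (1 / 2 + I * z + (((H.k - 1) / 2 : ℝ) : ℂ)) = _
    congr 2
    push_cast
    ring
  have heven : ∀ z, X (-z) = ((H.ε : ℝ) : ℂ) * X z := by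
    intro z
    rw [hX, hX]
    have h1 := mel_fe (toHc H) hHc (((H.k / 2 : ℝ) : ℂ) + I * z)
    have h2 : (((toHc H).k : ℝ) : ℂ) - (((H.k / 2 : ℝ) : ℂ) + I * z) = ((H.k / 2 : ℝ) : ℂ) + I * -z := by
      show ((H.k : ℝ) : ℂ) - (((H.k / 2 : ℝ) : ℂ) + I * z) = _
      push_cast
      ring
    rw [h2] at h1
    have h3 : (toHc H).ε = ((H.ε : ℝ) : ℂ) := rfl
    have h4 : mellin (toHc H).φ = mellin (fun y => ((H.φ y : ℝ) : ℂ)) := rfl
    rw [h4, mellin_real, h3] at h1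
    exact h1
  refine ⟨L, rfl, rfl, _, hC0, hXL, heven, fun a ha f hf => ?_⟩
  rw [weil (L := L) ha ((inDom_iff a f).1 hf)]
  have hGD : ∀ t : ℝ, GD (L := L) t = 2 * (Real.log (Real.sqrt (H.h ^ 2) / (2 * Real.pi)) +
      (digamma ((H.k : ℂ) / 2 + t * I)).re) := by
    intro t
    rw [GD_gen]
    have e0 : ∑ j, ((digamma ((1 / 2 + t * I + L.a j) / 2)).re - Real.log Real.pi) =
        ((digamma ((1 / 2 + t * I + (((H.k - 1) / 2 : ℝ) : ℂ)) / 2)).re - Real.log Real.pi) +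
        ((digamma ((1 / 2 + t * I + (((H.k + 1) / 2 : ℝ) : ℂ)) / 2)).re - Real.log Real.pi) :=
      Fin.sum_univ_two _
    rw [e0]
    have hs : 0 < (((H.k : ℂ) / 2 + t * I) / 2).re := by
      have : (((H.k : ℂ) / 2 + t * I) / 2).re = H.k / 4 := by
        have e : (((H.k : ℂ) / 2 + t * I) / 2) = (((H.k / 4 : ℝ)) : ℂ) + ((t / 2 : ℝ) : ℂ) * I := by
          push_cast
          ring
        rw [e, Complex.add_re, Complex.ofReal_re, Complex.re_ofReal_mul, Complex.I_re, mul_zero, add_zero]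
      rw [this]
      linarith
    have h1 := digamma_dup hs
    have e1 : (1 / 2 + (t : ℂ) * I + (((H.k - 1) / 2 : ℝ) : ℂ)) / 2 = ((H.k : ℂ) / 2 + t * I) / 2 := by
      push_cast
      ring
    have e2 : (1 / 2 + (t : ℂ) * I + (((H.k + 1) / 2 : ℝ) : ℂ)) / 2 = ((H.k : ℂ) / 2 + t * I) / 2 + 1 / 2 := by
      push_cast
      ring
    have e3 : 2 * (((H.k : ℂ) / 2 + t * I) / 2) = (H.k : ℂ) / 2 + t * I := by ring
    rw [e1, e2]
    rw [e3] at h1
    have h2 := congrArg Complex.re h1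
    rw [Complex.add_re, Complex.sub_re] at h2
    have h3 : (2 * digamma ((H.k : ℂ) / 2 + t * I)).re = 2 * (digamma ((H.k : ℂ) / 2 + t * I)).re := by
      rw [show (2 : ℂ) = ((2 : ℝ) : ℂ) by norm_num, Complex.re_ofReal_mul]
    have h4 : (2 * ((Real.log 2 : ℝ) : ℂ)).re = 2 * Real.log 2 := by
      rw [show (2 : ℂ) = ((2 : ℝ) : ℂ) by norm_num, Complex.re_ofReal_mul, Complex.ofReal_re]
    rw [h3, h4] at h2
    have h5 : Real.log (Real.sqrt (H.h ^ 2) / (2 * Real.pi)) = Real.log H.h - Real.log 2 - Real.log Real.pi := by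
      rw [Real.sqrt_sq hh0.le, Real.log_div hh0.ne' (by positivity), Real.log_mul two_ne_zero Real.pi_ne_zero]
      ring
    have h6 : Real.log L.N = 2 * Real.log H.h := by
      show Real.log (H.h ^ 2) = _
      rw [Real.log_pow]
      push_cast
      ring
    rw [h5, h6]
    linarith
  have haL : ∀ n ∈ Finset.Icc 1 ⌊Real.exp (2 * a)⌋₊, ((lder H.b n / (n : ℝ) ^ (H.k / 2) : ℝ) : ℂ) *
      (∫ x : ℝ, f (x + Real.log n) * conj (f x)) = aL (L := L) n * ∫ x : ℝ, f (x + Real.log n) * conj (f x) := by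
    intro n hn
    have hn1 := (Finset.mem_Icc.1 hn).1
    have hn0 : (0 : ℝ) < n := by exact_mod_cast hn1
    congr 1
    have e3 : aL (L := L) n = ((ArithmeticFunction.vonMangoldt n : ℝ) : ℂ) * (c n * pw (-(1 / 2)) n) := rfl
    rw [e3]
    have h1 := lder_of_conv (x := x) hb1 hconv n (by omega)
    have h2 : pw x n * pw (-(H.k / 2)) n = pw (-(1 / 2)) n := by
      unfold pw
      rw [← Complex.ofReal_mul, ← Real.rpow_add hn0]
      congr 2
      rw [hx]
      ring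
    have h3 : ((lder H.b n / (n : ℝ) ^ (H.k / 2) : ℝ) : ℂ) = ((lder H.b n : ℝ) : ℂ) * pw (-(H.k / 2)) n := by
      unfold pw
      rw [Real.rpow_neg hn0.le, ← Complex.ofReal_mul, div_eq_mul_inv]
    rw [h3, h1, ← h2]
    ring
  have hr : (L.r : ℝ) = 0 := by
    show ((0 : ℕ) : ℝ) = 0
    norm_num
  unfold W
  rw [Finset.sum_congr rfl haL, hr]
  simp only [F_real, hGD]
  have hpi := Real.pi_pos.ne'
  have hI : (∫ v : ℝ, 2 * (Real.log (Real.sqrt (H.h ^ 2) / (2 * Real.pi)) + (digamma ((H.k : ℂ) / 2 + v * I)).re) *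
      ‖Y23.TT f (v * I)‖ ^ 2) = 2 * ∫ v : ℝ, (Real.log (Real.sqrt (H.h ^ 2) / (2 * Real.pi)) +
        (digamma ((H.k : ℂ) / 2 + v * I)).re) * ‖Y23.TT f (v * I)‖ ^ 2 := by
    rw [← integral_const_mul]
    refine integral_congr_ae (Eventually.of_forall fun v => ?_)
    simp only
    ring
  rw [hI]
  have hgen : ∀ J S P : ℝ, 1 / Real.pi * J - 2 * S = 2 * (0 : ℝ) * P + 1 / (2 * Real.pi) * (2 * J) - 2 * S := by
    intro J S P
    field_simp
    ring
  exact hgen _ _ _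

end Pool.Agent.Run7.h114.CA.HkT
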