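import Pool.Agent.Run7.h114.CA.Zv
import Pool.Agent.Run7.h114.CA.Dual
import Pool.Agent.TH839.NA.Form
import Pool.Agent.W355.LJ.HcC

/-!
Project CA: the theorem for cusp forms of weight `k` and level `N` with real coefficients and an Euler product.
-/

set_option autoImplicit false
set_option linter.unusedSectionVars false
set_option maxHeartbeats 2000000

open Complex Filter Topology Set MeasureTheory
open scoped ComplexConjugate

namespace Pool.Agent.Run7.h114.CA.HkT

open Pool.Agent.Run7.h114.CA.Zv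
open Pool.Agent.H471R3.GJ (Hc IsHc Hk IsHk)

lemma lder_eq (b : ℕ → ℝ) (n : ℕ) :
    lder b n = b n * Real.log n - ∑ d ∈ n.properDivisors, lder b d * b (n / d) := by
  rw [lder]
  congr 1
  exact Finset.sum_attach n.properDivisors fun d => lder b d * b (n / d)

/-! ### the digamma function -/

lemma digamma_dup {s : ℂ} (hs : 0 < s.re) :
    digamma s + digamma (s + 1 / 2) = 2 * digamma (2 * s) - 2 * Real.log 2 := by
  have hs2 : 0 < (s + 1 / 2).re := by
    rw [Complex.add_re]; norm_num; linarith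
  have hs3 : 0 < (2 * s).re := by
    rw [Complex.mul_re]; norm_num; exact hs
  have hd1 : DifferentiableAt ℂ Gamma s := differentiableAt_Gamma s fun m h => by
    have := congrArg Complex.re h; simp at this; linarith [(Nat.cast_nonneg m : (0:ℝ) ≤ m)]
  have hd2 : DifferentiableAt ℂ Gamma (s + 1 / 2) := differentiableAt_Gamma _ fun m h => by
    have := congrArg Complex.re h; rw [Complex.neg_re, Complex.natCast_re] at this
    linarith [(Nat.cast_nonneg m : (0:ℝ) ≤ m)]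
  have hd3 : DifferentiableAt ℂ Gamma (2 * s) := differentiableAt_Gamma _ fun m h => by
    have := congrArg Complex.re h; rw [Complex.neg_re, Complex.natCast_re] at this
    linarith [(Nat.cast_nonneg m : (0:ℝ) ≤ m)]
  have hg1 : Gamma s ≠ 0 := Gamma_ne_zero_of_re_pos hs
  have hg2 : Gamma (s + 1 / 2) ≠ 0 := Gamma_ne_zero_of_re_pos hs2
  have hg3 : Gamma (2 * s) ≠ 0 := Gamma_ne_zero_of_re_pos hs3
  have hpi : ((Real.sqrt Real.pi : ℝ) : ℂ) ≠ 0 := by
    exact_mod_cast (Real.sqrt_pos.2 Real.pi_pos).ne'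
  have h2 : ∀ z : ℂ, (2 : ℂ) ^ (1 - 2 * z) ≠ 0 := fun z => by
    rw [Ne, Complex.cpow_eq_zero_iff]
    simp
  -- left side
  have hL : logDeriv (fun z => Gamma z * Gamma (z + 1 / 2)) s = digamma s + digamma (s + 1 / 2) := by
    have h3 : DifferentiableAt ℂ (fun z : ℂ => Gamma (z + 1 / 2)) s := by
      exact DifferentiableAt.comp (f := fun z : ℂ => z + 1 / 2) s hd2 (by fun_prop)
    rw [logDeriv_mul s hg1 hg2 hd1 h3]
    congr 1
    have h4 : logDeriv (Gamma ∘ fun z : ℂ => z + 1 / 2) s = logDeriv Gamma (s + 1 / 2) * deriv (fun z : ℂ => z + 1 / 2) s :=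
      logDeriv_comp hd2 (by fun_prop)
    have h5 : deriv (fun z : ℂ => z + 1 / 2) s = 1 := by simp
    rw [h5, mul_one] at h4
    exact h4
  have hR : logDeriv (fun z => Gamma (2 * z) * (2 : ℂ) ^ (1 - 2 * z) * ((Real.sqrt Real.pi : ℝ) : ℂ)) s =
      2 * digamma (2 * s) - 2 * Real.log 2 := by
    have h3 : DifferentiableAt ℂ (fun z : ℂ => Gamma (2 * z)) s := by
      exact DifferentiableAt.comp (f := fun z : ℂ => 2 * z) s hd3 (by fun_prop)
    have h6 : HasDerivAt (fun z : ℂ => (2 : ℂ) ^ (1 - 2 * z)) ((2 : ℂ) ^ (1 - 2 * s) * Complex.log 2 * (-2)) s := by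
      have h7 : HasDerivAt (fun z : ℂ => 1 - 2 * z) (-2) s := by
        simpa using ((hasDerivAt_id s).const_mul (2 : ℂ)).const_sub 1
      exact h7.const_cpow (Or.inl two_ne_zero)
    rw [logDeriv_mul_const _ _ hpi, logDeriv_mul s hg3 (h2 s) h3 h6.differentiableAt]
    have h4 : logDeriv (Gamma ∘ fun z : ℂ => 2 * z) s = logDeriv Gamma (2 * s) * deriv (fun z : ℂ => 2 * z) s :=
      logDeriv_comp hd3 (by fun_prop)
    have h5 : deriv (fun z : ℂ => 2 * z) s = 2 := by
      rw [deriv_const_mul_field]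
      simp
    rw [h5] at h4
    have h8 : logDeriv (fun z : ℂ => (2 : ℂ) ^ (1 - 2 * z)) s = -2 * Real.log 2 := by
      rw [logDeriv_apply, h6.deriv, mul_assoc, mul_div_cancel_left₀ _ (h2 s)]
      have h9 : Complex.log 2 = ((Real.log 2 : ℝ) : ℂ) := by
        rw [Complex.ofReal_log (by norm_num)]
        norm_num
      rw [h9]
      ring
    have h10 : logDeriv (fun z : ℂ => Gamma (2 * z)) s = digamma (2 * s) * 2 := h4
    rw [h10, h8]
    ring
  rw [← hL, ← hR]
  congr 1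
  funext z
  exact Complex.Gamma_mul_Gamma_add_half z

open Y23.G Y23.G.CA

lemma GD_gen (L : LFun) (t : ℝ) : GD (L := L) t = Real.log L.N +
    ∑ j, ((digamma ((1 / 2 + t * I + L.a j) / 2)).re - Real.log Real.pi) := by
  unfold GD GA H353.E.gaD
  have e1 : (⟨1 / 2, t⟩ : ℂ) = 1 / 2 + t * I := by
    rw [H370.mk_eq]; push_cast; ring
  rw [e1, Complex.add_re, Complex.ofReal_re, Complex.re_sum, mul_add, Finset.mul_sum]
  congr 1
  · ring
  · refine Finset.sum_congr rfl fun j _ => ?_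
    have e3 : (1 / 2 + (t : ℂ) * I - -L.a j) / 2 = (1 / 2 + t * I + L.a j) / 2 := by ring
    rw [e3, Complex.add_re, Complex.ofReal_re]
    have e4 : logDeriv Gamma ((1 / 2 + (t : ℂ) * I + L.a j) / 2) = digamma ((1 / 2 + t * I + L.a j) / 2) := rfl
    rw [e4]
    have e5 : (digamma ((1 / 2 + (t : ℂ) * I + L.a j) / 2) / 2).re = (digamma ((1 / 2 + t * I + L.a j) / 2)).re / 2 := by
      rw [show (2 : ℂ) = ((2 : ℝ) : ℂ) by norm_num, Complex.div_ofReal_re]
    rw [e5]
    ring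

lemma mellin_real (φ : ℝ → ℝ) (s : ℂ) :
    conj (mellin (fun y => ((φ y : ℝ) : ℂ)) (conj s)) = mellin (fun y => ((φ y : ℝ) : ℂ)) s := by
  unfold mellin
  rw [← integral_conj]
  refine setIntegral_congr_fun measurableSet_Ioi fun y hy => ?_
  have hy0 : (0 : ℝ) ≤ y := le_of_lt hy
  simp only [smul_eq_mul, map_mul, Complex.conj_ofReal]
  congr 1
  have h1 : conj s - 1 = conj (s - 1) := by rw [map_sub, map_one]
  rw [h1, Dual.real_cpow_conj hy0, Complex.conj_conj]

/-- the complex data of a real form -/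
noncomputable def toHc (H : Hk) : Hc where
  φ y := ((H.φ y : ℝ) : ℂ)
  b n := ((H.b n : ℝ) : ℂ)
  k := H.k
  h := H.h
  p := H.p
  β := H.β
  B := H.B
  ε := ((H.ε : ℝ) : ℂ)

lemma isHc (H : Hk) (h : IsHk H) : IsHc (toHc H) where
  k_pos := h.k_pos
  h_pos := h.h_pos
  p_pos := h.p_pos
  β_nonneg := h.β_nonneg
  B_one := h.B_one
  b_one := by
    show ((H.b 1 : ℝ) : ℂ) = 1
    rw [h.b_one, Complex.ofReal_one]
  b_le := fun m hm => by
    show ‖((H.b m : ℝ) : ℂ)‖ ≤ _
    rw [Complex.norm_real, Real.norm_eq_abs]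
    exact h.b_le m hm
  φ_sum := fun y hy => by
    have h1 := Complex.hasSum_ofReal.2 (h.φ_sum y hy)
    refine h1.congr_fun fun m => ?_
    show ((H.b (m + 1) : ℝ) : ℂ) * _ = _
    rw [← Complex.ofReal_mul]
    rfl
  ε_norm := by
    show ‖((H.ε : ℝ) : ℂ)‖ = 1
    rcases h.ε_or with h1 | h1 <;> rw [h1] <;> simp
  φ_inv := fun y hy => by
    show ((H.φ (1 / y) : ℝ) : ℂ) = ((H.ε : ℝ) : ℂ) * ((y ^ H.k : ℝ) : ℂ) * conj ((H.φ y : ℝ) : ℂ)
    rw [h.φ_inv y hy, Complex.conj_ofReal]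
    push_cast
    ring

open Pool.Agent.TH839.NA Pool.Agent.W355.LJ Pool.Agent.W355.UN

/-- the coefficients of the logarithmic derivative from the traces -/
lemma lder_of_conv {b : ℕ → ℝ} {c : ℕ → ℂ} {x : ℝ} (h1 : b 1 = 1)
    (hconv : Conv (fun n => ((b n : ℝ) : ℂ) * pw (-x) n) c) :
    ∀ n : ℕ, n ≠ 0 → ((lder b n : ℝ) : ℂ) = ((ArithmeticFunction.vonMangoldt n : ℝ) : ℂ) * c n * pw x n := by
  intro n
  induction n using Nat.strong_induction_on with
  | _ n ih =>
    intro hn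
    have hpw : ∀ m : ℕ, m ≠ 0 → pw (-x) m * pw x m = 1 := by
      intro m hm
      have hm0 : (0 : ℝ) < m := by exact_mod_cast Nat.pos_of_ne_zero hm
      unfold pw
      rw [← Complex.ofReal_mul, ← Real.rpow_add hm0, neg_add_cancel, Real.rpow_zero, Complex.ofReal_one]
    have h2 := hconv n hn
    rw [← Nat.insert_self_properDivisors hn, Finset.sum_insert Nat.self_notMem_properDivisors] at h2
    have h3 : ((b n : ℝ) : ℂ) * ((Real.log n : ℝ) : ℂ) =
        ((ArithmeticFunction.vonMangoldt n : ℝ) : ℂ) * c n * pw x n +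
          ∑ d ∈ n.properDivisors, ((lder b d : ℝ) : ℂ) * ((b (n / d) : ℝ) : ℂ) := by
      have h4 := congrArg (fun z => z * pw x n) h2
      simp only at h4
      rw [add_mul, Finset.sum_mul] at h4
      have e1 : ((b n : ℝ) : ℂ) * pw (-x) n * ((Real.log n : ℝ) : ℂ) * pw x n =
          ((b n : ℝ) : ℂ) * ((Real.log n : ℝ) : ℂ) := by
        linear_combination (((b n : ℝ) : ℂ) * ((Real.log n : ℝ) : ℂ)) * hpw n hn
      rw [e1] at h4
      rw [h4]
      congr 1
      · rw [Nat.div_self (Nat.pos_of_ne_zero hn), h1]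
        have e2 : pw (-x) 1 = 1 := pw_one _
        rw [e2]
        push_cast
        ring
      · refine Finset.sum_congr rfl fun d hd => ?_
        obtain ⟨hd1, hd2⟩ := Nat.mem_properDivisors.1 hd
        have hd0 : d ≠ 0 := fun h0 => by
          rw [h0, zero_dvd_iff] at hd1
          exact hn hd1
        have hq0 : n / d ≠ 0 := (Nat.div_pos hd2.le (Nat.pos_of_ne_zero hd0)).ne'
        rw [ih d hd2 hd0]
        have e3 : pw x n = pw x d * pw x (n / d) := by
          rw [← pw_mul, Nat.mul_div_cancel' hd1]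
        rw [e3]
        linear_combination (((ArithmeticFunction.vonMangoldt d : ℝ) : ℂ) * c d * pw x d *
          ((b (n / d) : ℝ) : ℂ)) * hpw (n / d) hq0
    rw [lder_eq, Complex.ofReal_sub, Complex.ofReal_mul, Complex.ofReal_sum]
    simp only [Complex.ofReal_mul]
    linear_combination h3

open Pool.Agent.H471R3.GJ (kc fc) in
/-- the completed function does not vanish at the centre -/
lemma mellin_ne (H : Hk) (h : IsHk H) (hφ : ∀ y : ℝ, 0 < y → 0 < H.φ y) :
    mellin (fun y => ((H.φ y : ℝ) : ℂ)) ((H.k / 2 : ℝ) : ℂ) ≠ 0 := by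
  have hc := isHc H h
  have hkc := kc_pos' hc
  have h1 := mel_LC (toHc H) hc ((H.k / 2 : ℝ) : ℂ)
  have e1 : (((H.k / 2 : ℝ) : ℂ) - (((toHc H).k / 2 : ℝ) : ℂ)) / ((kc (toHc H) : ℝ) : ℂ) = 0 := by
    show (((H.k / 2 : ℝ) : ℂ) - ((H.k / 2 : ℝ) : ℂ)) / _ = 0
    rw [sub_self, zero_div]
  rw [e1] at h1
  have h2 : mellin (toHc H).φ = mellin (fun y => ((H.φ y : ℝ) : ℂ)) := rfl
  rw [← h2, h1]
  obtain ⟨g, hg⟩ : ∃ g : ℝ → ℝ, g = fun t => 1 / kc (toHc H) * Real.exp (H.k / 2 * t / kc (toHc H)) *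
    H.φ (Real.exp (t / kc (toHc H))) := ⟨_, rfl⟩
  have hfc : ∀ t, fc (toHc H) t = ((g t : ℝ) : ℂ) := by
    intro t
    rw [hg, Complex.ofReal_mul]
    rfl
  have hgpos : ∀ t, 0 < g t := by
    intro t
    rw [hg]
    have := hφ (Real.exp (t / kc (toHc H))) (Real.exp_pos _)
    positivity
  have hcont := (Pool.Agent.H471R3.GJ.TC.fcT (toHc H) hc).1
  have hgc : Continuous g := by
    have h3 := Complex.continuous_re.comp hcont
    refine h3.congr fun t => ?_
    show (fc (toHc H) t).re = g t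
    rw [hfc, Complex.ofReal_re]
  obtain ⟨C, hC⟩ := (fc_cl (toHc H) hc).2 0
  have hint : Integrable g := by
    refine Integrable.mono' ((integrable_exp_neg_mul_sq one_pos).const_mul C) hgc.aestronglyMeasurable
      (Eventually.of_forall fun t => ?_)
    have h3 := hC t
    rw [zero_mul, Real.exp_zero, mul_one, abs_norm, hfc, Complex.norm_real] at h3
    exact h3
  unfold LC
  have h4 : (fun t : ℝ => fc (toHc H) t * cexp (0 * t)) = fun t => ((g t : ℝ) : ℂ) := by
    funext t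
    rw [zero_mul, Complex.exp_zero, mul_one, hfc]
  rw [h4, integral_complex_ofReal]
  have hpos : 0 < ∫ t : ℝ, g t := by
    rw [integral_pos_iff_support_of_nonneg (fun t => (hgpos t).le) hint]
    have hsup : Function.support g = Set.univ := by
      ext t
      simp only [Function.mem_support, Set.mem_univ, iff_true]
      exact (hgpos t).ne'
    rw [hsup]
    simp
  exact_mod_cast hpos.ne'

/-- windows without zeros -/
lemma exists_window {X : ℂ → ℂ} (hX : Continuous X) (h0 : X 0 ≠ 0) :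
    ∃ κ : ℝ, 0 < κ ∧ ∀ t : ℝ, |t| ≤ κ → X t ≠ 0 := by
  have hc : Continuous fun t : ℝ => X t := hX.comp Complex.continuous_ofReal
  have h1 : ∀ᶠ t : ℝ in 𝓝 (0 : ℝ), X t ≠ 0 := hc.continuousAt.eventually_ne (by rwa [Complex.ofReal_zero])
  obtain ⟨ε, hε, h2⟩ := Metric.eventually_nhds_iff.1 h1
  refine ⟨ε / 2, by positivity, fun t ht => h2 ?_⟩
  rw [dist_zero_right, Real.norm_eq_abs]
  linarith

/-- **The theorem for cusp forms.** -/
theorem statement_of (H : Hk) (hH : IsHk H) (hp : H.p = 1) (hε : H.ε = 1) (hβ : H.β = H.k / 2) (hk : 1 ≤ H.k)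
    (hh : 1 ≤ H.h) (hmul : ∀ m n : ℕ, Nat.Coprime m n → H.b (m * n) = H.b m * H.b n)
    (hpow : ∀ p : ℕ, p.Prime → ∃ e : ℝ, ∀ j : ℕ, H.b (p ^ (j + 2)) = H.b p * H.b (p ^ (j + 1)) - e * H.b (p ^ j))
    (X : ℂ → ℂ) (hX : ∀ z, X z = mellin (fun y => ((H.φ y : ℝ) : ℂ)) (((H.k / 2 : ℝ) : ℂ) + I * z))
    {κ : ℝ} (hκ : 0 < κ) (hno : ∀ t : ℝ, |t| ≤ κ → X t ≠ 0) :
    Statement X 2 (H.h ^ 2) (W H.k (H.h ^ 2) H.b) κ := by
  have hHc := isHc H hH
  have hC := hc_isC1 (toHc H) hHc hp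
  have hh0 : 0 < H.h := by linarith
  set x : ℝ := (H.k - 1) / 2 with hx
  have hb1 : H.b 1 = 1 := hH.b_one
  -- the Euler product
  have hE : Eu2 fun n => (((H.b n : ℝ) : ℂ) * pw (-x) n) * pw (-(1 / 2)) n := by
    refine eu2_of_hecke (b := fun n => ((H.b n : ℝ) : ℂ) * pw (-x) n) (A := H.B) ?_ (fun m n hmn => ?_)
      (fun p hp => ?_) (fun n hn => ?_)
    · rw [hb1, pw_one]
      simp
    · rw [hmul m n hmn, pw_mul]
      push_cast
      ring
    · obtain ⟨e, he⟩ := hpow p hp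
      refine ⟨((e : ℝ) : ℂ) * pw (-x) p ^ 2, fun j => ?_⟩
      have e1 : pw (-x) (p ^ (j + 2)) = pw (-x) p * pw (-x) (p ^ (j + 1)) := by
        rw [← pw_mul]
        congr 1
        ring
      have e2 : pw (-x) (p ^ (j + 1)) = pw (-x) p * pw (-x) (p ^ j) := by
        rw [← pw_mul]
        congr 1
        ring
      rw [he j, e1, e2]
      push_cast
      ring
    · rw [norm_mul, pw_norm, Complex.norm_real, Real.norm_eq_abs]
      have hn0 : (0 : ℝ) < n := by exact_mod_cast hn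
      calc |H.b n| * (n : ℝ) ^ (-x) ≤ (H.B * (n : ℝ) ^ H.β) * (n : ℝ) ^ (-x) :=
            mul_le_mul_of_nonneg_right (hH.b_le n hn) (Real.rpow_nonneg hn0.le _)
        _ = H.B * (n : ℝ) ^ (1 / 2 : ℝ) := by
            rw [mul_assoc, ← Real.rpow_add hn0]
            congr 2
            rw [hβ, hx]
            ring
  obtain ⟨c, hc, hconv⟩ := conv_of_eu2 hE
  have hN1 : (1 : ℝ) ≤ H.h ^ 2 := by nlinarith
  have hlogN : Real.log H.h = 1 / 2 * Real.log (H.h ^ 2) := by
    rw [Real.log_pow]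
    push_cast
    ring
  have hC2 : IsC (([(H.k - 1) / 2, (H.k + 1) / 2] : List ℝ).map Pc.one) (1 / 2 * Real.log (H.h ^ 2))
      (fun n => ((H.b n : ℝ) : ℂ) * pw (-x) n) ((H.ε : ℝ) : ℂ) (Lam1 (toHc H)) := by
    rw [← hlogN]
    exact hC
  have hraw := rawT_of_isC (θ := 1 / 2) (by norm_num) (by norm_num) (by simp) hN1 (fun a ha => by
      simp only [List.mem_cons, List.not_mem_nil, or_false] at ha
      rcases ha with rfl | rfl <;> linarith) hC2 (by rw [hε]; simp) (c := c) (fun n => by simpa using hc n) hconv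
  let L : LFun :=
    { m := ((([(H.k - 1) / 2, (H.k + 1) / 2] : List ℝ)).map fun a : ℝ => (a : ℂ)).length
      r := 0
      N := H.h ^ 2
      a := fun j => ((([(H.k - 1) / 2, (H.k + 1) / 2] : List ℝ)).map fun a : ℝ => (a : ℂ)).get j
      b := fun n => ((H.b n : ℝ) : ℂ) * pw (-x) n
      c := c
      X := Lam1 (toHc H)
      raw := hraw
      str := fun j => by
        have h1 := List.get_mem ((([(H.k - 1) / 2, (H.k + 1) / 2] : List ℝ)).map fun a : ℝ => (a : ℂ)) j
        obtain ⟨a, ha1, ha2⟩ := List.mem_map.1 h1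
        rw [← ha2, Complex.ofReal_re]
        simp only [List.mem_cons, List.not_mem_nil, or_false] at ha1
        rcases ha1 with rfl | rfl <;> linarith }
  have hC0 : ((2 * H.h ^ (-((H.k - 1) / 2)) : ℝ) : ℂ) ≠ 0 := by
    have : 0 < 2 * H.h ^ (-((H.k - 1) / 2)) := by positivity
    exact_mod_cast this.ne'
  have hXL : ∀ z, L.X (1 / 2 + I * z) = ((2 * H.h ^ (-((H.k - 1) / 2)) : ℝ) : ℂ) * X z := by
    intro z
    show Lam1 (toHc H) _ = _
    unfold Lam1
    rw [hX]
    show ((2 * H.h ^ (-((H.k - 1) / 2)) : ℝ) : ℂ) * mellin (fun y => ((H.φ y : ℝ) : ℂ)) (1 / 2 + I * z + (((H.k - 1) / 2 : ℝ) : ℂ)) = _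
    congr 2
    push_cast
    ring
  have heven : ∀ z, X (-z) = X z := by
    intro z
    rw [hX, hX]
    have h1 := mel_fe (toHc H) hHc (((H.k / 2 : ℝ) : ℂ) + I * z)
    have h2 : (((toHc H).k : ℝ) : ℂ) - (((H.k / 2 : ℝ) : ℂ) + I * z) = ((H.k / 2 : ℝ) : ℂ) + I * -z := by
      show ((H.k : ℝ) : ℂ) - (((H.k / 2 : ℝ) : ℂ) + I * z) = _
      push_cast
      ring
    rw [h2] at h1
    have h3 : (toHc H).ε = 1 := by
      show ((H.ε : ℝ) : ℂ) = 1
      rw [hε, Complex.ofReal_one]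
    rw [h3, one_mul] at h1
    have h4 : mellin (toHc H).φ = mellin (fun y => ((H.φ y : ℝ) : ℂ)) := rfl
    rw [h4, mellin_real] at h1
    exact h1
  refine statement L X hC0 hXL heven _ (fun a ha f hf => ?_) hκ hno
  rw [weil (L := L) ha ((inDom_iff a f).1 hf)]
  have hGD : ∀ t : ℝ, GD (L := L) t = 2 * (Real.log (Real.sqrt (H.h ^ 2) / (2 * Real.pi)) +
      (digamma ((H.k : ℂ) / 2 + t * I)).re) := by
    intro t
    rw [GD_gen]
    have e0 : ∑ j, ((digamma ((1 / 2 + t * I + L.a j) / 2)).re - Real.log Real.pi) =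
        ((digamma ((1 / 2 + t * I + (((H.k - 1) / 2 : ℝ) : ℂ)) / 2)).re - Real.log Real.pi) +
        ((digamma ((1 / 2 + t * I + (((H.k + 1) / 2 : ℝ) : ℂ)) / 2)).re - Real.log Real.pi) :=
      Fin.sum_univ_two _
    rw [e0]
    have hs : 0 < (((H.k : ℂ) / 2 + t * I) / 2).re := by
      have : (((H.k : ℂ) / 2 + t * I) / 2).re = H.k / 4 := by
        have e : (((H.k : ℂ) / 2 + t * I) / 2) = (((H.k / 4 : ℝ)) : ℂ) + ((t / 2 : ℝ) : ℂ) * I := by
          push_cast
          ring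
        rw [e, Complex.add_re, Complex.ofReal_re, Complex.re_ofReal_mul, Complex.I_re, mul_zero, add_zero]
      rw [this]
      linarith
    have h1 := digamma_dup hs
    have e1 : (1 / 2 + (t : ℂ) * I + (((H.k - 1) / 2 : ℝ) : ℂ)) / 2 = ((H.k : ℂ) / 2 + t * I) / 2 := by
      push_cast
      ring
    have e2 : (1 / 2 + (t : ℂ) * I + (((H.k + 1) / 2 : ℝ) : ℂ)) / 2 = ((H.k : ℂ) / 2 + t * I) / 2 + 1 / 2 := by
      push_cast
      ring
    have e3 : 2 * (((H.k : ℂ) / 2 + t * I) / 2) = (H.k : ℂ) / 2 + t * I := by ring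
    rw [e1, e2]
    rw [e3] at h1
    have h2 := congrArg Complex.re h1
    rw [Complex.add_re, Complex.sub_re] at h2
    have h3 : (2 * digamma ((H.k : ℂ) / 2 + t * I)).re = 2 * (digamma ((H.k : ℂ) / 2 + t * I)).re := by
      rw [show (2 : ℂ) = ((2 : ℝ) : ℂ) by norm_num, Complex.re_ofReal_mul]
    have h4 : (2 * ((Real.log 2 : ℝ) : ℂ)).re = 2 * Real.log 2 := by
      rw [show (2 : ℂ) = ((2 : ℝ) : ℂ) by norm_num, Complex.re_ofReal_mul, Complex.ofReal_re]
    rw [h3, h4] at h2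
    have h5 : Real.log (Real.sqrt (H.h ^ 2) / (2 * Real.pi)) = Real.log H.h - Real.log 2 - Real.log Real.pi := by
      rw [Real.sqrt_sq hh0.le, Real.log_div hh0.ne' (by positivity), Real.log_mul two_ne_zero Real.pi_ne_zero]
      ring
    have h6 : Real.log L.N = 2 * Real.log H.h := by
      show Real.log (H.h ^ 2) = _
      rw [Real.log_pow]
      push_cast
      ring
    rw [h5, h6]
    linarith
  have haL : ∀ n ∈ Finset.Icc 1 ⌊Real.exp (2 * a)⌋₊, ((lder H.b n / (n : ℝ) ^ (H.k / 2) : ℝ) : ℂ) *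
      (∫ x : ℝ, f (x + Real.log n) * conj (f x)) = aL (L := L) n * ∫ x : ℝ, f (x + Real.log n) * conj (f x) := by
    intro n hn
    have hn1 := (Finset.mem_Icc.1 hn).1
    have hn0 : (0 : ℝ) < n := by exact_mod_cast hn1
    congr 1
    have e3 : aL (L := L) n = ((ArithmeticFunction.vonMangoldt n : ℝ) : ℂ) * (c n * pw (-(1 / 2)) n) := rfl
    rw [e3]
    have h1 := lder_of_conv (x := x) hb1 hconv n (by omega)
    have h2 : pw x n * pw (-(H.k / 2)) n = pw (-(1 / 2)) n := by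
      unfold pw
      rw [← Complex.ofReal_mul, ← Real.rpow_add hn0]
      congr 2
      rw [hx]
      ring
    have h3 : ((lder H.b n / (n : ℝ) ^ (H.k / 2) : ℝ) : ℂ) = ((lder H.b n : ℝ) : ℂ) * pw (-(H.k / 2)) n := by
      unfold pw
      rw [Real.rpow_neg hn0.le, ← Complex.ofReal_mul, div_eq_mul_inv]
    rw [h3, h1, ← h2]
    ring
  have hr : (L.r : ℝ) = 0 := by
    show ((0 : ℕ) : ℝ) = 0
    norm_num
  unfold W
  rw [Finset.sum_congr rfl haL, hr]
  simp only [F_real, hGD]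
  have hpi := Real.pi_pos.ne'
  have hI : (∫ v : ℝ, 2 * (Real.log (Real.sqrt (H.h ^ 2) / (2 * Real.pi)) + (digamma ((H.k : ℂ) / 2 + v * I)).re) *
      ‖Y23.TT f (v * I)‖ ^ 2) = 2 * ∫ v : ℝ, (Real.log (Real.sqrt (H.h ^ 2) / (2 * Real.pi)) +
        (digamma ((H.k : ℂ) / 2 + v * I)).re) * ‖Y23.TT f (v * I)‖ ^ 2 := by
    rw [← integral_const_mul]
    refine integral_congr_ae (Eventually.of_forall fun v => ?_)
    simp only
    ring
  rw [hI]
  have hgen : ∀ J S P : ℝ, 1 / Real.pi * J - 2 * S = 2 * (0 : ℝ) * P + 1 / (2 * Real.pi) * (2 * J) - 2 * S := by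
    intro J S P
    field_simp
    ring
  exact hgen _ _ _

end Pool.Agent.Run7.h114.CA.HkT
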