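import Pool.Agent.Run7.h114.CA.TDef
import Pool.Agent.Run7.h114.CA.WS
import Pool.Agent.Run7.h114.CA.HkT
import Pool.Agent.Run7.h336.CB.B22

/-!
Project CA: the theorem for L-functions in the normalisation of elliptic curves over number fields.
-/

set_option autoImplicit false
set_option linter.unusedSectionVars false
set_option maxHeartbeats 2000000

open Complex Filter Topology Set MeasureTheory
open scoped ComplexConjugate

namespace Pool.Agent.Run7.h114.CA.TD

open Y23.G Y23.G.CB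
open Pool.Agent.Run7.h336.CB.S (Window Full F F_real InDom inDom_iff)
open Pool.Agent.TH839.NA

/-- the coefficients are unique -/
theorem IsLogDer.unique {L : ℂ → ℂ} {t t' : ℕ → ℂ} (h : IsLogDer L t) (h' : IsLogDer L t') {n : ℕ} (hn : n ≠ 0) :
    t n = t' n := by
  obtain ⟨σ, hσ⟩ := h
  obtain ⟨σ', hσ'⟩ := h'
  have key : ∀ {t : ℕ → ℂ} {σ : ℝ}, (∀ s : ℂ, σ ≤ s.re → LSeriesHasSum t s (-logDeriv L s)) →
      LSeries.abscissaOfAbsConv t < ⊤ := by
    intro t σ h
    have h1 := (h (σ : ℂ) (by rw [Complex.ofReal_re])).LSeriesSummable.abscissaOfAbsConv_le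
    exact lt_of_le_of_lt h1 (EReal.coe_lt_top _)
  refine LSeries.eq_of_LSeries_eventually_eq (key hσ) (key hσ') ?_ hn
  filter_upwards [eventually_ge_atTop (max σ σ')] with x hx
  rw [(hσ x (by rw [Complex.ofReal_re]; exact (le_max_left _ _).trans hx)).LSeries_eq,
    (hσ' x (by rw [Complex.ofReal_re]; exact (le_max_right _ _).trans hx)).LSeries_eq]

/-- the data: an `LFun` for the completed function `Λ` of degree `2 d` and conductor `A` -/
structure Dt (L : LFun) (d : ℕ) (A : ℝ) (Λ Lf : ℂ → ℂ) : Prop where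
  m : L.m = 2 * d
  N : L.N = A
  r : L.r = 0
  X : ∃ C : ℂ, C ≠ 0 ∧ ∀ s, L.X s = C * Λ (s + 1 / 2)
  G : ∀ t : ℝ, GD (L := L) t = 2 * (Real.log A / 2 + d * ((digamma (1 + t * I)).re - Real.log (2 * Real.pi)))
  b : ∀ s : ℂ, 3 < s.re → Lf s = LSeries L.b (s - 1 / 2)

variable {L : LFun} {d : ℕ} {A : ℝ} {Λ Lf : ℂ → ℂ}

/-- the coefficients of the logarithmic derivative -/
theorem Dt.logDer (h : Dt L d A Λ Lf) : IsLogDer Lf fun n => (n : ℂ) * aL (L := L) n := by
  refine ⟨4, fun s hs => ?_⟩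
  have hs1 : (s - 1 / 2).re = s.re - 1 / 2 := by simp
  have h1 := (L.raw.coef (s := s - 1 / 2) (by rw [hs1]; norm_num; linarith)).2.2
  have hopen : IsOpen {s : ℂ | 3 < s.re} := isOpen_lt continuous_const Complex.continuous_re
  have hev : Lf =ᶠ[𝓝 s] fun s => LSeries L.b (s - 1 / 2) := by
    filter_upwards [hopen.mem_nhds (show (3 : ℝ) < s.re by linarith)] with z hz
    exact h.b z hz
  have h2 : logDeriv Lf s = logDeriv (LSeries L.b) (s - 1 / 2) := by
    rw [logDeriv_apply, logDeriv_apply, hev.deriv_eq, hev.eq_of_nhds, deriv_comp_sub_const]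
  have h3 : (s - 1 / 2 - ((1 / 2 : ℝ) : ℂ)) = s - 1 := by
    push_cast
    ring
  rw [h2, h1, h3, neg_neg]
  -- the two series
  have hterm : ∀ n : ℕ, LSeries.term (fun n => (n : ℂ) * aL (L := L) n) s n =
      LSeries.term (aL (L := L)) (s - 1) n := by
    intro n
    rcases Nat.eq_zero_or_pos n with rfl | hn
    · simp
    · have hn0 : (n : ℂ) ≠ 0 := by exact_mod_cast hn.ne'
      rw [LSeries.term_of_ne_zero hn.ne', LSeries.term_of_ne_zero hn.ne', Complex.cpow_sub _ _ hn0, Complex.cpow_one]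
      have : (n : ℂ) ^ s ≠ 0 := by
        rw [Ne, Complex.cpow_eq_zero_iff]
        exact fun h => hn0 h.1
      field_simp
  have hsum : LSeriesSummable (aL (L := L)) (s - 1) := by
    refine LSeriesSummable_of_le_const_mul_rpow (x := 2) (by
      rw [Complex.sub_re, Complex.one_re]; linarith) ⟨L.m, fun n hn => ?_⟩
    refine (aL_norm n).trans (mul_le_mul_of_nonneg_left ?_ (Nat.cast_nonneg _))
    have hn1 : (1 : ℝ) ≤ n := by exact_mod_cast Nat.one_le_iff_ne_zero.2 hn
    have e : (2 - 1 : ℝ) = 1 := by norm_num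
    rw [e, Real.rpow_one]
    refine ArithmeticFunction.vonMangoldt_le_log.trans ?_
    have := Real.log_le_sub_one_of_pos (show (0 : ℝ) < n by linarith)
    linarith
  show HasSum (LSeries.term (fun n => (n : ℂ) * aL (L := L) n) s) (LSeries (aL (L := L)) (s - 1))
  have h4 : LSeries.term (fun n => (n : ℂ) * aL (L := L) n) s = LSeries.term (aL (L := L)) (s - 1) := funext hterm
  rw [h4]
  exact hsum.LSeriesHasSum

theorem Dt.W_eq (h : Dt L d A Λ Lf) {t : ℕ → ℂ} (ht : IsLogDer Lf t) {r : ℝ} (hr : 0 < r) {g : ℝ → ℂ}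
    (hg : InDom r g) : W d A t r g = QQ (D := zd (L := L)) g := by
  have hw := weil (L := L) hr ((inDom_iff r g).1 hg)
  have haL : ∀ n ∈ Finset.Icc 1 ⌊Real.exp (2 * r)⌋₊, t n / n * (∫ x : ℝ, g (x + Real.log n) * conj (g x)) =
      aL (L := L) n * ∫ x : ℝ, g (x + Real.log n) * conj (g x) := by
    intro n hn
    have hn1 := (Finset.mem_Icc.1 hn).1
    have hn0 : (n : ℂ) ≠ 0 := by exact_mod_cast (by omega : n ≠ 0)
    rw [ht.unique h.logDer (show n ≠ 0 by omega)]
    congr 1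
    field_simp
  unfold W
  rw [Finset.sum_congr rfl haL, hw]
  simp only [F_real, h.G, h.r]
  have hI : (∫ v : ℝ, 2 * (Real.log A / 2 + d * ((digamma (1 + v * I)).re - Real.log (2 * Real.pi))) *
      ‖Y23.TT g (v * I)‖ ^ 2) = 2 * ∫ v : ℝ, (Real.log A / 2 + d * ((digamma (1 + v * I)).re -
        Real.log (2 * Real.pi))) * ‖Y23.TT g (v * I)‖ ^ 2 := by
    rw [← integral_const_mul]
    refine integral_congr_ae (Eventually.of_forall fun v => ?_)
    simp only
    ring
  rw [hI]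
  have hpi := Real.pi_pos.ne'
  have hgen : ∀ J S P : ℝ, 1 / Real.pi * J - 2 * S = 2 * ((0 : ℕ) : ℝ) * P + 1 / (2 * Real.pi) * (2 * J) - 2 * S := by
    intro J S P
    push_cast
    field_simp
    ring
  exact hgen _ _ _

/-- **The theorem.** -/
theorem Dt.main (h : Dt L d A Λ Lf) (hfe : (∀ s, Λ (2 - s) = Λ s) ∨ ∀ s, Λ (2 - s) = -Λ s) :
    (∃ S : Set ℝ, Window S ∧ ∀ x : ℝ, x ∈ S → Λ (1 + I * x) ≠ 0) ∧
      ∀ t : ℕ → ℂ, IsLogDer Lf t → ∀ S : Set ℝ, Window S → (∀ x : ℝ, x ∈ S → Λ (1 + I * x) ≠ 0) →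
        Full (fun z => Λ (1 + I * z)) (2 * d) A (W d A t) S := by
  obtain ⟨C, hC, hX⟩ := h.X
  have hXz : ∀ z, L.X (1 / 2 + I * z) = C * (fun z => Λ (1 + I * z)) z := by
    intro z
    rw [hX]
    show C * Λ (1 / 2 + I * z + 1 / 2) = C * Λ (1 + I * z)
    congr 2
    ring
  have hpar : (∀ z, (fun z => Λ (1 + I * z)) (-z) = (fun z => Λ (1 + I * z)) z) ∨
      ∀ z, (fun z => Λ (1 + I * z)) (-z) = -(fun z => Λ (1 + I * z)) z := by
    rcases hfe with h1 | h1
    · left
      intro z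
      show Λ (1 + I * -z) = Λ (1 + I * z)
      rw [← h1]
      congr 1
      ring
    · right
      intro z
      show Λ (1 + I * -z) = -Λ (1 + I * z)
      rw [← h1]
      congr 1
      ring
  refine ⟨?_, fun t ht S hS hno => ?_⟩
  · exact Pool.Agent.Run7.h114.CA.WS.exists_window L (fun z => Λ (1 + I * z)) hC hXz hpar
  · have h1 := Pool.Agent.Run7.h336.CB.S.full L (fun z => Λ (1 + I * z)) hC hXz hpar (W d A t)
      (fun r hr g hg => h.W_eq ht hr hg) hS hno
    rw [h.m, h.N] at h1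
    exact h1

end Pool.Agent.Run7.h114.CA.TD
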