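import Pool.Agent.Run7.h114.CA.KN
import Pool.Agent.Run7.h114.CA.TD

/-!
Project CA: the theorem for the completed L-functions of degree two over a number field.
-/

set_option autoImplicit false
set_option maxHeartbeats 1000000

open Complex Filter Topology NumberField IsDedekindDomain Set
open scoped ComplexConjugate

namespace Pool.Agent.Run7.h114.CA.KF

open Pool.Agent.H921R2.TatePole Pool.Agent.TH839.UH Pool.Agent.TH839.NA
open Y23.G Y23.G.CB
open Pool.Agent.Run7.h114.CA.KN Pool.Agent.Run7.h114.CA.TD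

variable {K : Type} [Field K] [NumberField K]

/-- the archimedean term -/
lemma gam_term (t : ℝ) : ((digamma ((1 / 2 + t * I + 1 / 2) / 2)).re - Real.log Real.pi) +
    ((digamma ((1 / 2 + t * I + 3 / 2) / 2)).re - Real.log Real.pi) =
      2 * ((digamma (1 + t * I)).re - Real.log (2 * Real.pi)) := by
  have hs : 0 < ((1 + (t : ℂ) * I) / 2).re := by
    have e : ((1 + (t : ℂ) * I) / 2) = (((1 / 2 : ℝ)) : ℂ) + ((t / 2 : ℝ) : ℂ) * I := by
      push_cast
      ring
    rw [e, Complex.add_re, Complex.ofReal_re, Complex.re_ofReal_mul, Complex.I_re, mul_zero, add_zero]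
    norm_num
  have h1 := HkT.digamma_dup hs
  have e1 : (1 / 2 + (t : ℂ) * I + 1 / 2) / 2 = (1 + t * I) / 2 := by ring
  have e2 : (1 / 2 + (t : ℂ) * I + 3 / 2) / 2 = (1 + t * I) / 2 + 1 / 2 := by ring
  have e3 : 2 * ((1 + (t : ℂ) * I) / 2) = 1 + t * I := by ring
  rw [e1, e2]
  rw [e3] at h1
  have h2 := congrArg Complex.re h1
  rw [Complex.add_re, Complex.sub_re] at h2
  have h3 : (2 * digamma (1 + t * I)).re = 2 * (digamma (1 + t * I)).re := by
    rw [show (2 : ℂ) = ((2 : ℝ) : ℂ) by norm_num, Complex.re_ofReal_mul]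
  have h4 : (2 * ((Real.log 2 : ℝ) : ℂ)).re = 2 * Real.log 2 := by
    rw [show (2 : ℂ) = ((2 : ℝ) : ℂ) by norm_num, Complex.re_ofReal_mul, Complex.ofReal_re]
  rw [h3, h4] at h2
  have h5 : Real.log (2 * Real.pi) = Real.log 2 + Real.log Real.pi := Real.log_mul two_ne_zero Real.pi_ne_zero
  rw [h5]
  linarith

theorem dt_of_KL {a δ : HeightOneSpectrum (𝓞 K) → ℝ} (hδ : ∀ v, δ v = 0 ∨ δ v = nm v) {A : ℝ} {Λ : ℂ → ℂ}
    (h : KL (fun v => (a v : ℂ)) (fun v => (δ v : ℂ)) A Λ) :
    ∃ L : LFun, Dt L (dg K) A Λ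
      (fun s => Λ s / ((A : ℂ) ^ (s / 2) * ((2 * (Real.pi : ℂ)) ^ (-s) * Gamma s) ^ dg K)) := by
  obtain ⟨b, c, hraw, hb⟩ := rawT_of_KL hδ h
  let L : LFun :=
    { m := dg K + dg K
      r := 0
      N := A
      a := fun j => -mu (dg K) j
      b := b
      c := c
      X := NX K A Λ
      raw := hraw
      str := fun j => by
        rcases mu_cases j with h1 | h1
        · show -1 / 2 < (-mu (dg K) j).re
          rw [h1, show (-(-1 / 2) : ℂ) = ((1 / 2 : ℝ) : ℂ) by push_cast; ring, Complex.ofReal_re]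
          norm_num
        · show -1 / 2 < (-mu (dg K) j).re
          rw [h1, show (-(-3 / 2) : ℂ) = ((3 / 2 : ℝ) : ℂ) by push_cast; ring, Complex.ofReal_re]
          norm_num }
  refine ⟨L, (two_mul _).symm, rfl, rfl, ⟨((2 ^ dg K * A ^ (-(1 / 4 : ℝ)) : ℝ) : ℂ), ?_, fun s => rfl⟩, fun t => ?_,
    fun s hs => ?_⟩
  · exact_mod_cast (cst_pos h).ne'
  · rw [HkT.GD_gen]
    have h1 : ∑ j, ((digamma ((1 / 2 + t * I + L.a j) / 2)).re - Real.log Real.pi) =
        dg K * (2 * ((digamma (1 + t * I)).re - Real.log (2 * Real.pi))) := by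
      show ∑ j : Fin (dg K + dg K), ((digamma ((1 / 2 + t * I + -mu (dg K) j) / 2)).re - Real.log Real.pi) = _
      unfold Pool.Agent.TH839.UH.mu
      rw [Fin.sum_univ_add]
      simp only [Fin.append_left, Fin.append_right, Finset.sum_const, Finset.card_univ, Fintype.card_fin,
        nsmul_eq_mul]
      rw [← mul_add, ← gam_term t]
      congr 3
      · congr 4
        norm_num
      · congr 4
        norm_num
    rw [h1]
    show Real.log A + _ = _
    ring
  · have hs' : (9 / 4 : ℝ) < s.re := by linarith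
    rw [KL.eq' h hs']
    have hA : (A : ℂ) ≠ 0 := by
      have := h.one_le
      exact_mod_cast (by linarith : (0 : ℝ) < A).ne'
    have h1 : (A : ℂ) ^ (s / 2) ≠ 0 := by
      rw [Ne, Complex.cpow_eq_zero_iff]
      exact fun h => hA h.1
    have hpi : (2 * (Real.pi : ℂ)) ≠ 0 := by
      have := Real.pi_ne_zero
      simp [this]
    have h2 : (2 * (Real.pi : ℂ)) ^ (-s) ≠ 0 := by
      rw [Ne, Complex.cpow_eq_zero_iff]
      exact fun h => hpi h.1
    have h3 : Gamma s ≠ 0 := Gamma_ne_zero_of_re_pos (by linarith)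
    have h4 : (A : ℂ) ^ (s / 2) * ((2 * (Real.pi : ℂ)) ^ (-s) * Gamma s) ^ dg K ≠ 0 :=
      mul_ne_zero h1 (pow_ne_zero _ (mul_ne_zero h2 h3))
    rw [mul_div_cancel_left₀ _ h4]
    have hre : (s - 1 / 2).re = s.re - 1 / 2 := by simp
    have h5 := hb (s - 1 / 2) (by rw [hre]; linarith)
    rw [sub_add_cancel] at h5
    exact h5.symm

end Pool.Agent.Run7.h114.CA.KF
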