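import Pool.Agent.Run7.h114.CA.AB2
import Pool.Agent.Run7.h114.CA.KF

/-!
Project CA: elliptic curves over `ℚ` over abelian number fields.
-/

set_option autoImplicit false
set_option maxHeartbeats 1000000

open Complex Filter Topology Set MatrixGroups CongruenceSubgroup
open UpperHalfPlane hiding I
open scoped ComplexConjugate

namespace Pool.Agent.Run7.h114.CA.AB

open Pool.Agent.TH839.NA Pool.Agent.Run7.h114.CA.Dual Pool.Agent.W355.LJ Pool.Agent.W355.UN
open Y23.G Y23.G.CB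
open Pool.Agent.Run7.h114.CA.TD

/-- a completed L-function of degree `2 d` with the gamma factor of an elliptic curve over a field of degree `d` -/
structure PR (d : ℕ) (A : ℝ) (b : ℕ → ℂ) (X : ℂ → ℂ) : Prop where
  ex : ∃ (m : ℕ) (a : Fin m → ℂ) (c : ℕ → ℂ), m = 2 * d ∧ RawT (1 / 2) m 0 A a b c X ∧ (∀ j, -1 / 2 < (a j).re) ∧
    ∀ t : ℝ, ∑ j, ((digamma ((1 / 2 + t * I + a j) / 2)).re - Real.log Real.pi) =
      d * (2 * ((digamma (1 + t * I)).re - Real.log (2 * Real.pi)))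

theorem PR.mul {d1 d2 : ℕ} {A1 A2 : ℝ} {b1 b2 : ℕ → ℂ} {X1 X2 : ℂ → ℂ} (h1 : PR d1 A1 b1 X1) (h2 : PR d2 A2 b2 X2) :
    PR (d1 + d2) (A1 * A2) (LSeries.convolution b1 b2) (fun s => X1 s * X2 s) := by
  obtain ⟨m1, a1, c1, e1, r1, s1, g1⟩ := h1.ex
  obtain ⟨m2, a2, c2, e2, r2, s2, g2⟩ := h2.ex
  refine ⟨m1 + m2, Fin.append a1 a2, fun n => c1 n + c2 n, by rw [e1, e2]; ring, rawT_mul r1 r2, fun j => ?_,
    fun t => ?_⟩
  · refine Fin.addCases (fun i => ?_) (fun i => ?_) j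
    · rw [Fin.append_left]; exact s1 i
    · rw [Fin.append_right]; exact s2 i
  · rw [Fin.sum_univ_add]
    simp only [Fin.append_left, Fin.append_right]
    rw [g1, g2]
    push_cast
    ring

lemma PR.summ {d : ℕ} {A : ℝ} {b : ℕ → ℂ} {X : ℂ → ℂ} (h : PR d A b X) {s : ℂ} (hs : 3 / 2 < s.re) :
    LSeriesSummable b s := by
  obtain ⟨m, a, c, e, r, _, _⟩ := h.ex
  exact (r.coef (s := s) (by linarith)).1

theorem pr_prod {ι : Type} {A : ι → ℝ} {b : ι → ℕ → ℂ} {X : ι → ℂ → ℂ} (h : ∀ i, PR 1 (A i) (b i) (X i))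
    {T : Finset ι} (hT : T.Nonempty) :
    ∃ B : ℕ → ℂ, PR T.card (∏ i ∈ T, A i) B (fun s => ∏ i ∈ T, X i s) ∧
      ∀ s : ℂ, 3 / 2 < s.re → LSeries B s = ∏ i ∈ T, LSeries (b i) s := by
  induction hT using Finset.Nonempty.cons_induction with
  | singleton i =>
    refine ⟨b i, ?_, fun s _ => ?_⟩
    · simp only [Finset.card_singleton, Finset.prod_singleton]
      exact h i
    · rw [Finset.prod_singleton]
  | cons i T hi hT ih =>
    obtain ⟨B, h1, h2⟩ := ih
    refine ⟨LSeries.convolution (b i) B, ?_, fun s hs => ?_⟩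
    · simp only [Finset.prod_cons, Finset.card_cons]
      rw [add_comm T.card 1]
      exact (h i).mul h1
    · rw [Finset.prod_cons, LSeries_convolution' ((h i).summ hs) (h1.summ hs), h2 s hs]

variable {N : ℕ} [NeZero N] {f : CuspForm (Gamma0 N : Subgroup (GL (Fin 2) ℝ)) 2} {w : ℝ}

/-- the Dirichlet series of a twist -/
noncomputable def dsE (f : CuspForm (Gamma0 N : Subgroup (GL (Fin 2) ℝ)) 2) {q : ℕ}
    (χ : DirichletCharacter ℂ q) (s : ℂ) : ℂ :=
  ∑' n : ℕ, coef f (n + 1) * χ ((n + 1 : ℕ) : ZMod q) * ((n + 1 : ℕ) : ℂ) ^ (-s)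

/-- the constant between the two normalisations -/
noncomputable def kq (N q : ℕ) : ℂ := 2 * ((Real.sqrt N * q : ℝ) : ℂ) ^ (-(1 / 2) : ℂ)

lemma kq_ne {q : ℕ} (hq : 0 < q) : kq N q ≠ 0 := by
  have hN : (0 : ℝ) < N := by exact_mod_cast Nat.pos_of_ne_zero (NeZero.ne N)
  have hq0 : (0 : ℝ) < q := by exact_mod_cast hq
  have hR : 0 < Real.sqrt N * q := by
    have := Real.sqrt_pos.2 hN
    positivity
  unfold kq
  refine mul_ne_zero two_ne_zero ?_
  rw [Ne, Complex.cpow_eq_zero_iff]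
  exact fun h => hR.ne' (by exact_mod_cast h.1)

omit [NeZero N] in
theorem ds_eq (hE : Eu2 (lam2 f)) {q : ℕ} (χ : DirichletCharacter ℂ q) {s : ℂ} (hs : 1 < s.re) :
    LSeries (fun n => χ (n : ZMod q) * lam2 f n) s = dsE f χ (s + 1 / 2) := by
  obtain ⟨c, hc, hconv⟩ := (hE.twist χ).conv
  have hsum : LSeriesSummable (fun n => χ (n : ZMod q) * lam2 f n) s :=
    (Pool.Agent.W672.UN.coef 2 _ c (hE.twist χ).one (fun n => by simpa using hc n) hconv s hs).1
  rw [lseries_tsum hsum]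
  unfold dsE
  refine tsum_congr fun n => ?_
  have hn : ((n + 1 : ℕ) : ℂ) ≠ 0 := by exact_mod_cast Nat.succ_ne_zero n
  have h1 : -(s + 1 / 2) = ((-(1 / 2) : ℝ) : ℂ) + -s := by push_cast; ring
  have h2 : ((((n + 1 : ℕ) : ℝ) ^ (-(1 / 2 : ℝ)) : ℝ) : ℂ) =
      ((n + 1 : ℕ) : ℂ) ^ ((-(1 / 2) : ℝ) : ℂ) := by
    rw [Complex.ofReal_cpow (Nat.cast_nonneg _), Complex.ofReal_natCast]
  rw [h1, Complex.cpow_add _ _ hn, ← h2]
  unfold lam2 coef
  ring

theorem pr_tw (hf : IsForm N f w) {q : ℕ} [NeZero q] (χ : DirichletCharacter ℂ q) (hχ : χ.IsPrimitive)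
    (hco : Nat.Coprime q N) :
    ∃ X : ℂ → ℂ, PR 1 ((N : ℝ) * (q : ℝ) ^ 2) (fun n => χ (n : ZMod q) * lam2 f n) X ∧
      ∃ σ : ℝ, ∀ s : ℂ, σ ≤ s.re → X s = kq N q * facE f χ (s + 1 / 2) := by
  have hE := eu2_of hf
  obtain ⟨c, X, h⟩ := tw_raw f hE (isNewf_of hf) χ hχ hco
  refine ⟨X, ⟨[(((1 / 2 : ℝ)) : ℂ), (((3 / 2 : ℝ)) : ℂ)].length,
    fun j => [(((1 / 2 : ℝ)) : ℂ), (((3 / 2 : ℝ)) : ℂ)].get j, fun n => if n = 0 then 0 else c n, by simp,
    ⟨h.hm, h.hr, h.hN, by norm_num, by norm_num, h.re_ge, h.entire, h.order, h.fe, h.one, fun n => ?_,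
      fun n hn => ?_, h.eq⟩, fun j => ?_, fun t => ?_⟩, ?_⟩
  · by_cases hn : n = 0
    · rw [if_pos hn, norm_zero]
      positivity
    · rw [if_neg hn]
      refine (h.cb n).trans ?_
      have h1 : (1 : ℝ) ≤ (n : ℝ) ^ (1 / 2 : ℝ) :=
        Real.one_le_rpow (by exact_mod_cast Nat.one_le_iff_ne_zero.2 hn) (by norm_num)
      have h2 : (0 : ℝ) ≤ ([(((1 / 2 : ℝ)) : ℂ), (((3 / 2 : ℝ)) : ℂ)].length : ℝ) := Nat.cast_nonneg _
      nlinarith
  · rw [h.conv n hn]
    refine Finset.sum_congr rfl fun d hd => ?_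
    rw [if_neg (Nat.pos_of_mem_divisors hd).ne']
  · have h1 := List.get_mem [(((1 / 2 : ℝ)) : ℂ), (((3 / 2 : ℝ)) : ℂ)] j
    simp only [List.mem_cons, List.not_mem_nil, or_false] at h1
    show -1 / 2 < ([(((1 / 2 : ℝ)) : ℂ), (((3 / 2 : ℝ)) : ℂ)].get j).re
    rcases h1 with h1 | h1
    · rw [h1, Complex.ofReal_re]
      norm_num
    · rw [h1, Complex.ofReal_re]
      norm_num
  · have e0 : ∑ j : Fin [(((1 / 2 : ℝ)) : ℂ), (((3 / 2 : ℝ)) : ℂ)].length,
        ((digamma ((1 / 2 + t * I + [(((1 / 2 : ℝ)) : ℂ), (((3 / 2 : ℝ)) : ℂ)].get j) / 2)).re - Real.log Real.pi) =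
        ((digamma ((1 / 2 + t * I + (((1 / 2 : ℝ)) : ℂ)) / 2)).re - Real.log Real.pi) +
        ((digamma ((1 / 2 + t * I + (((3 / 2 : ℝ)) : ℂ)) / 2)).re - Real.log Real.pi) := Fin.sum_univ_two _
    rw [e0]
    have e1 : (((1 / 2 : ℝ)) : ℂ) = 1 / 2 := by push_cast; rfl
    have e2 : (((3 / 2 : ℝ)) : ℂ) = 3 / 2 := by push_cast; rfl
    rw [e1, e2, KF.gam_term]
    push_cast
    ring
  · obtain ⟨σ, hσ⟩ := h.eq
    refine ⟨max σ 2, fun s hs => ?_⟩
    have hs1 : σ ≤ s.re := (le_max_left _ _).trans hs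
    have hs2 : 2 ≤ s.re := (le_max_right _ _).trans hs
    rw [hσ s hs1]
    have h1 := fac_eq hE (Nat.pos_of_ne_zero (NeZero.ne q)) χ (s := s) (by linarith)
    unfold kq
    rw [← h1]
    unfold cser
    have h2 : ∏ j : Fin [(((1 / 2 : ℝ)) : ℂ), (((3 / 2 : ℝ)) : ℂ)].length,
        Gammaℝ (s + [(((1 / 2 : ℝ)) : ℂ), (((3 / 2 : ℝ)) : ℂ)].get j) =
        (([(((1 / 2 : ℝ)) : ℂ), (((3 / 2 : ℝ)) : ℂ)] : List ℂ).map fun a : ℂ => Gammaℝ (s + a)).prod :=
      prod_get _ (fun a : ℂ => Gammaℝ (s + a))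
    rw [h2]

variable {M : ℕ} [NeZero M]

omit [NeZero N] in
/-- conjugation and the factors -/
lemma facE_conj (hreal : ∀ n, (coef f n).im = 0) (χ : DirichletCharacter ℂ M) (s : ℂ) :
    conj (facE f χ.primitiveCharacter (conj s)) = facE f (χ⁻¹).primitiveCharacter s := by
  have hc : (χ⁻¹).conductor = χ.conductor := DirichletCharacter.conductor_inv χ
  have hpos : (0 : ℝ) ≤ Real.sqrt N * (χ.conductor : ℝ) / (2 * Real.pi) := by positivity
  unfold facE
  rw [map_mul, map_mul, ← Complex.Gamma_conj, Complex.conj_conj, real_cpow_conj hpos, Complex.conj_conj,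
    Complex.conj_tsum]
  have e1 : ((Real.sqrt N * ((χ⁻¹).conductor : ℝ) / (2 * Real.pi) : ℝ) : ℂ) =
      ((Real.sqrt N * (χ.conductor : ℝ) / (2 * Real.pi) : ℝ) : ℂ) := by rw [hc]
  rw [e1]
  congr 1
  refine tsum_congr fun n => ?_
  have hreal' : conj (coef f (n + 1)) = coef f (n + 1) := Complex.conj_eq_iff_im.2 (hreal _)
  rw [map_mul, map_mul, hreal', prim_inv χ (n + 1)]
  congr 1
  have h0 : (0 : ℝ) ≤ ((n + 1 : ℕ) : ℝ) := Nat.cast_nonneg _
  have h1 := real_cpow_conj h0 (-conj s)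
  rw [Complex.ofReal_natCast] at h1
  rw [← h1, map_neg, Complex.conj_conj]

omit [NeZero N] in
lemma kq_conj (q : ℕ) : conj (kq N q) = kq N q := by
  have hR : 0 ≤ Real.sqrt N * q := by positivity
  unfold kq
  rw [map_mul, ← real_cpow_conj hR]
  have e1 : (conj (-(1 / 2) : ℂ)) = -(1 / 2) := by
    rw [map_neg, map_div₀, map_one, Complex.conj_ofNat]
  rw [e1, Complex.conj_ofNat]

variable (G : Subgroup (DirichletCharacter ℂ M)) [Fintype G]

/-- the completed L-function exists -/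
theorem ab_exists (hf : IsForm N f w) (hco : Nat.Coprime M N) :
    ∃ Λ : ℂ → ℂ, Differentiable ℂ Λ ∧
      ∃ σ : ℝ, ∀ s : ℂ, σ ≤ s.re → Λ s = ∏ χ : G, facE f (χ : DirichletCharacter ℂ M).primitiveCharacter s := by
  have hone : ∀ χ : G, ∃ X : ℂ → ℂ, PR 1 ((N : ℝ) * ((χ : DirichletCharacter ℂ M).conductor : ℝ) ^ 2)
      (fun n => (χ : DirichletCharacter ℂ M).primitiveCharacter (n : ZMod _) * lam2 f n) X ∧
      ∃ σ : ℝ, ∀ s : ℂ, σ ≤ s.re → X s = kq N (χ : DirichletCharacter ℂ M).conductor *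
        facE f (χ : DirichletCharacter ℂ M).primitiveCharacter (s + 1 / 2) := by
    intro χ
    have : NeZero (χ : DirichletCharacter ℂ M).conductor := ⟨DirichletCharacter.conductor_ne_zero _⟩
    exact pr_tw hf _ (DirichletCharacter.primitiveCharacter_isPrimitive _)
      (Nat.Coprime.coprime_dvd_left (DirichletCharacter.conductor_dvd_level _) hco)
  choose X hX σ hσ using hone
  refine ⟨fun s => ∏ χ : G, (kq N (χ : DirichletCharacter ℂ M).conductor)⁻¹ * X χ (s - 1 / 2), ?_,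
    ∑ χ : G, |σ χ| + 1 / 2, fun s hs => ?_⟩
  · refine Differentiable.fun_finsetProd fun χ _ => ?_
    obtain ⟨m, a, c, _, hraw, _, _⟩ := (hX χ).ex
    exact (hraw.entire.comp (by fun_prop : Differentiable ℂ fun z : ℂ => z - 1 / 2)).const_mul _
  · refine Finset.prod_congr rfl fun χ _ => ?_
    have e : (s - 1 / 2).re = s.re - 1 / 2 := by simp
    have h4 : |σ χ| ≤ ∑ χ : G, |σ χ| := Finset.single_le_sum (fun i _ => abs_nonneg (σ i)) (Finset.mem_univ χ)
    have h6 := le_abs_self (σ χ)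
    rw [hσ χ (s - 1 / 2) (by rw [e]; linarith), sub_add_cancel, ← mul_assoc,
      inv_mul_cancel₀ (kq_ne (Nat.pos_of_ne_zero (DirichletCharacter.conductor_ne_zero _))), one_mul]

/-- **Elliptic curves over abelian number fields.** -/
theorem ab_dt (hf : IsForm N f w) (hco : Nat.Coprime M N) {Λ : ℂ → ℂ} (hΛ : Differentiable ℂ Λ)
    (hΛe : ∃ σ : ℝ, ∀ s : ℂ, σ ≤ s.re → Λ s = ∏ χ : G, facE f (χ : DirichletCharacter ℂ M).primitiveCharacter s) :
    (∃ L : LFun, Dt L (Fintype.card G) (∏ χ : G, ((N : ℝ) * ((χ : DirichletCharacter ℂ M).conductor : ℝ) ^ 2)) Λ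
      (fun s => ∏ χ : G, dsE f (χ : DirichletCharacter ℂ M).primitiveCharacter s)) ∧
      ((∀ s, Λ (2 - s) = Λ s) ∨ ∀ s, Λ (2 - s) = -Λ s) := by
  have hE := eu2_of hf
  have hone : ∀ χ : G, ∃ X : ℂ → ℂ, PR 1 ((N : ℝ) * ((χ : DirichletCharacter ℂ M).conductor : ℝ) ^ 2)
      (fun n => (χ : DirichletCharacter ℂ M).primitiveCharacter (n : ZMod _) * lam2 f n) X ∧
      ∃ σ : ℝ, ∀ s : ℂ, σ ≤ s.re → X s = kq N (χ : DirichletCharacter ℂ M).conductor *
        facE f (χ : DirichletCharacter ℂ M).primitiveCharacter (s + 1 / 2) := by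
    intro χ
    have : NeZero (χ : DirichletCharacter ℂ M).conductor := ⟨DirichletCharacter.conductor_ne_zero _⟩
    exact pr_tw hf _ (DirichletCharacter.primitiveCharacter_isPrimitive _)
      (Nat.Coprime.coprime_dvd_left (DirichletCharacter.conductor_dvd_level _) hco)
  choose X hX σ hσ using hone
  have hne : (Finset.univ : Finset G).Nonempty := ⟨1, Finset.mem_univ _⟩
  obtain ⟨B, hB1, hB2⟩ := pr_prod hX hne
  rw [Finset.card_univ] at hB1
  obtain ⟨m, a, c, hm, hraw, hstr, hG⟩ := hB1.ex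
  let L : LFun := ⟨m, 0, _, a, B, c, _, hraw, hstr⟩
  -- the constant
  obtain ⟨κ, hκ⟩ : ∃ κ : ℂ, κ = ∏ χ : G, kq N (χ : DirichletCharacter ℂ M).conductor := ⟨_, rfl⟩
  have hκ0 : κ ≠ 0 := by
    rw [hκ]
    exact Finset.prod_ne_zero_iff.2 fun χ _ => kq_ne (Nat.pos_of_ne_zero (DirichletCharacter.conductor_ne_zero _))
  have hκc : conj κ = κ := by
    rw [hκ, map_prod]
    exact Finset.prod_congr rfl fun χ _ => kq_conj _
  -- the completed function
  have hXΛ : (fun s => ∏ χ : G, X χ s) = fun s => κ * Λ (s + 1 / 2) := by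
    obtain ⟨σ0, hσ0⟩ := hΛe
    have h1 : AnalyticOnNhd ℂ (fun s => ∏ χ : G, X χ s) univ := fun z _ => hraw.entire.analyticAt z
    have h2 : AnalyticOnNhd ℂ (fun s => κ * Λ (s + 1 / 2)) univ := by
      have : Differentiable ℂ (fun s => κ * Λ (s + 1 / 2)) :=
        (hΛ.comp (by fun_prop : Differentiable ℂ fun z : ℂ => z + 1 / 2)).const_mul _
      exact fun z _ => this.analyticAt z
    obtain ⟨R, hR⟩ : ∃ R : ℝ, R = max σ0 (∑ χ : G, |σ χ|) + 1 := ⟨_, rfl⟩
    refine h1.eq_of_eventuallyEq h2 (z₀ := (R : ℂ)) ?_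
    have h3 : ∀ᶠ z : ℂ in 𝓝 (R : ℂ), R - 1 < z.re :=
      (Complex.continuous_re.tendsto _).eventually (lt_mem_nhds (by rw [Complex.ofReal_re]; linarith))
    filter_upwards [h3] with z hz
    have hz0 : σ0 ≤ (z + 1 / 2).re := by
      have e : (z + 1 / 2).re = z.re + 1 / 2 := by simp
      have := le_max_left σ0 (∑ χ : G, |σ χ|)
      rw [e]
      linarith
    show ∏ χ : G, X χ z = κ * Λ (z + 1 / 2)
    rw [hσ0 _ hz0, hκ, ← Finset.prod_mul_distrib]
    refine Finset.prod_congr rfl fun χ _ => hσ χ z ?_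
    have h4 : |σ χ| ≤ ∑ χ : G, |σ χ| := Finset.single_le_sum (fun i _ => abs_nonneg (σ i)) (Finset.mem_univ χ)
    have h5 := le_max_right σ0 (∑ χ : G, |σ χ|)
    have h6 := le_abs_self (σ χ)
    linarith
  have hXs : ∀ s, L.X s = κ * Λ (s + 1 / 2) := fun s => congrFun hXΛ s
  refine ⟨⟨L, hm, rfl, rfl, ⟨κ, hκ0, hXs⟩, fun t => ?_, fun s hs => ?_⟩, ?_⟩
  · rw [HkT.GD_gen]
    have h1 : ∑ j, ((digamma ((1 / 2 + t * I + L.a j) / 2)).re - Real.log Real.pi) =
        (Fintype.card G : ℝ) * (2 * ((digamma (1 + t * I)).re - Real.log (2 * Real.pi))) := hG t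
    rw [h1]
    show Real.log (∏ χ : G, ((N : ℝ) * ((χ : DirichletCharacter ℂ M).conductor : ℝ) ^ 2)) + _ = _
    ring
  · have e : (s - 1 / 2).re = s.re - 1 / 2 := by simp
    have h1 := hB2 (s - 1 / 2) (by rw [e]; linarith)
    show _ = LSeries B (s - 1 / 2)
    rw [h1]
    refine Finset.prod_congr rfl fun χ _ => ?_
    rw [ds_eq hE _ (by rw [e]; linarith), sub_add_cancel]
  · -- the functional equation
    have hreal : ∀ s, conj (Λ (conj s)) = Λ s := by
      obtain ⟨σ0, hσ0⟩ := hΛe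
      have h1 : AnalyticOnNhd ℂ Λ univ := fun z _ => hΛ.analyticAt z
      have h2 : AnalyticOnNhd ℂ (fun s => conj (Λ (conj s))) univ := by
        have : Differentiable ℂ (fun s => conj (Λ (conj s))) := by
          intro z
          have := (hΛ (conj z)).hasDerivAt.conj_conj
          rw [Complex.conj_conj] at this
          exact this.differentiableAt
        exact fun z _ => this.analyticAt z
      have h3 : (fun s => conj (Λ (conj s))) = Λ := by
        refine h2.eq_of_eventuallyEq h1 (z₀ := ((σ0 + 1 : ℝ) : ℂ)) ?_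
        have h3 : ∀ᶠ z : ℂ in 𝓝 ((σ0 + 1 : ℝ) : ℂ), σ0 < z.re :=
          (Complex.continuous_re.tendsto _).eventually (lt_mem_nhds (by rw [Complex.ofReal_re]; linarith))
        filter_upwards [h3] with z hz
        rw [hσ0 z hz.le, hσ0 (conj z) (by rw [Complex.conj_re]; exact hz.le), map_prod]
        have h4 : ∀ χ : G, conj (facE f (χ : DirichletCharacter ℂ M).primitiveCharacter (conj z)) =
            facE f (((χ⁻¹ : G)) : DirichletCharacter ℂ M).primitiveCharacter z := fun χ => facE_conj hf.real _ z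
        simp only [h4]
        exact Equiv.prod_comp (Equiv.inv G) fun χ : G => facE f (χ : DirichletCharacter ℂ M).primitiveCharacter z
      exact congrFun h3
    obtain ⟨ε, hε, hfe⟩ := hraw.fe
    have hfe2 : ∀ u, Λ u = ε * Λ (2 - u) := by
      intro u
      have h1 := hfe (u - 1 / 2)
      have h2 := hXs (u - 1 / 2)
      have h3 := hXs (1 - conj (u - 1 / 2))
      have h2' : (∏ χ : G, X χ (u - 1 / 2)) = κ * Λ (u - 1 / 2 + 1 / 2) := h2
      have h3' : (∏ χ : G, X χ (1 - conj (u - 1 / 2))) = κ * Λ (1 - conj (u - 1 / 2) + 1 / 2) := h3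
      rw [h2', h3', sub_add_cancel, map_mul, hκc] at h1
      have h4 : conj (Λ (1 - conj (u - 1 / 2) + 1 / 2)) = Λ (2 - u) := by
        rw [← hreal (2 - u)]
        congr 2
        simp only [map_sub, map_div₀, map_one, map_ofNat]
        ring
      rw [h4] at h1
      have h5 : κ * (Λ u - ε * Λ (2 - u)) = 0 := by linear_combination h1
      rcases mul_eq_zero.1 h5 with h | h
      · exact absurd h hκ0
      · exact sub_eq_zero.1 h
    have hnz : Λ (5 / 2) ≠ 0 := by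
      intro h0
      have h1 := X_ne (L := L) (s := 2) (by norm_num)
      rw [hXs] at h1
      have e : (2 : ℂ) + 1 / 2 = 5 / 2 := by norm_num
      rw [e, h0, mul_zero] at h1
      exact h1 rfl
    have h3 : ε * ε = 1 := by
      have e1 := hfe2 (5 / 2)
      have e2 := hfe2 (2 - 5 / 2)
      rw [sub_sub_cancel] at e2
      rw [e2] at e1
      have : (ε * ε - 1) * Λ (5 / 2) = 0 := by linear_combination -e1
      rcases mul_eq_zero.1 this with h | h
      · linear_combination h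
      · exact absurd h hnz
    have h4 : (ε - 1) * (ε + 1) = 0 := by linear_combination h3
    rcases mul_eq_zero.1 h4 with h | h
    · left
      intro s
      rw [hfe2 s, sub_eq_zero.1 h, one_mul]
    · right
      intro s
      rw [hfe2 s, eq_neg_of_add_eq_zero_left h, neg_one_mul, neg_neg]

end Pool.Agent.Run7.h114.CA.AB
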