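import Pool.Agent.Run7.h114.CA.AB1
import Pool.Agent.Run7.h114.CA.Dual
import Pool.Agent.TH839.NA.Raw

/-!
Project CA: products of L-functions of the class `RawT (1/2)`; inverse characters.
-/

set_option autoImplicit false
set_option maxHeartbeats 1000000

open Complex Filter Topology Set
open scoped ComplexConjugate

namespace Pool.Agent.Run7.h114.CA.AB

open Pool.Agent.TH839.NA Pool.Agent.Run7.h114.CA.Dual

lemma order_mul {X1 X2 : ℂ → ℂ} (h1 : ∃ A ρ : ℝ, ∀ s : ℂ, ‖X1 s‖ ≤ Real.exp (A * (1 + ‖s‖) ^ ρ))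
    (h2 : ∃ A ρ : ℝ, ∀ s : ℂ, ‖X2 s‖ ≤ Real.exp (A * (1 + ‖s‖) ^ ρ)) :
    ∃ A ρ : ℝ, ∀ s : ℂ, ‖X1 s * X2 s‖ ≤ Real.exp (A * (1 + ‖s‖) ^ ρ) := by
  obtain ⟨A1, ρ1, h1⟩ := h1
  obtain ⟨A2, ρ2, h2⟩ := h2
  refine ⟨|A1| + |A2|, max ρ1 ρ2, fun s => ?_⟩
  have hs : 1 ≤ 1 + ‖s‖ := by linarith [norm_nonneg s]
  have key : ∀ (A ρ : ℝ), ρ ≤ max ρ1 ρ2 → A * (1 + ‖s‖) ^ ρ ≤ |A| * (1 + ‖s‖) ^ max ρ1 ρ2 := by
    intro A ρ h
    calc A * (1 + ‖s‖) ^ ρ ≤ |A| * (1 + ‖s‖) ^ ρ :=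
          mul_le_mul_of_nonneg_right (le_abs_self A) (Real.rpow_nonneg (by linarith) _)
      _ ≤ |A| * (1 + ‖s‖) ^ max ρ1 ρ2 :=
          mul_le_mul_of_nonneg_left (Real.rpow_le_rpow_of_exponent_le hs h) (abs_nonneg _)
  calc ‖X1 s * X2 s‖ = ‖X1 s‖ * ‖X2 s‖ := norm_mul _ _
    _ ≤ Real.exp (A1 * (1 + ‖s‖) ^ ρ1) * Real.exp (A2 * (1 + ‖s‖) ^ ρ2) :=
        mul_le_mul (h1 s) (h2 s) (norm_nonneg _) (Real.exp_pos _).le
    _ = Real.exp (A1 * (1 + ‖s‖) ^ ρ1 + A2 * (1 + ‖s‖) ^ ρ2) := (Real.exp_add _ _).symm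
    _ ≤ _ := by
        apply Real.exp_le_exp.2
        have e1 := key A1 ρ1 (le_max_left _ _)
        have e2 := key A2 ρ2 (le_max_right _ _)
        linarith

/-- **Products of L-functions.** -/
theorem rawT_mul {m1 m2 r1 r2 : ℕ} {N1 N2 : ℝ} {a1 : Fin m1 → ℂ} {a2 : Fin m2 → ℂ} {b1 b2 c1 c2 : ℕ → ℂ}
    {X1 X2 : ℂ → ℂ} (h1 : RawT (1 / 2) m1 r1 N1 a1 b1 c1 X1) (h2 : RawT (1 / 2) m2 r2 N2 a2 b2 c2 X2) :
    RawT (1 / 2) (m1 + m2) (r1 + r2) (N1 * N2) (Fin.append a1 a2) (LSeries.convolution b1 b2)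
      (fun n => c1 n + c2 n) (fun s => X1 s * X2 s) where
  hm := by have := h1.hm; omega
  hr := by have := h1.hr; have := h2.hr; omega
  hN := by have := h1.hN; have := h2.hN; nlinarith
  hθ := by norm_num
  hθ1 := by norm_num
  re_ge := by
    intro j
    refine Fin.addCases (fun i => ?_) (fun i => ?_) j
    · rw [Fin.append_left]; exact h1.re_ge i
    · rw [Fin.append_right]; exact h2.re_ge i
  entire := h1.entire.mul h2.entire
  order := order_mul h1.order h2.order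
  fe := by
    obtain ⟨ε1, e1, f1⟩ := h1.fe
    obtain ⟨ε2, e2, f2⟩ := h2.fe
    refine ⟨ε1 * ε2, by rw [norm_mul, e1, e2, one_mul], fun s => ?_⟩
    rw [map_mul]
    nth_rewrite 1 [f1 s]
    nth_rewrite 1 [f2 s]
    ring
  one := by rw [convolution_one, h1.one, h2.one, one_mul]
  cb := fun n => by
    refine (norm_add_le _ _).trans ?_
    have e1 := h1.cb n
    have e2 := h2.cb n
    push_cast
    linarith
  conv := conv_conv h1.conv h2.conv
  eq := by
    obtain ⟨σ1, e1⟩ := h1.eq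
    obtain ⟨σ2, e2⟩ := h2.eq
    refine ⟨max (max σ1 σ2) 2, fun s hs => ?_⟩
    have k1 : σ1 ≤ s.re := ((le_max_left _ _).trans (le_max_left _ _)).trans hs
    have k2 : σ2 ≤ s.re := ((le_max_right _ _).trans (le_max_left _ _)).trans hs
    have k3 : 2 ≤ s.re := (le_max_right _ _).trans hs
    have s1 := (h1.coef (s := s) (by linarith)).1
    have s2 := (h2.coef (s := s) (by linarith)).1
    have hN1 : 0 ≤ N1 := by linarith [h1.hN]
    have hN2 : 0 ≤ N2 := by linarith [h2.hN]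
    rw [e1 s k1, e2 s k2, LSeries_convolution' s1 s2, Fin.prod_univ_add, pow_add]
    simp only [Fin.append_left, Fin.append_right]
    rw [Complex.ofReal_mul, Complex.mul_cpow_ofReal_nonneg hN1 hN2]
    ring

/-- the primitive character of the inverse -/
theorem prim_inv {M : ℕ} [NeZero M] (χ : DirichletCharacter ℂ M) (n : ℕ) :
    (χ⁻¹).primitiveCharacter (n : ZMod (χ⁻¹).conductor) = conj (χ.primitiveCharacter (n : ZMod χ.conductor)) := by
  haveI : NeZero χ.conductor := ⟨DirichletCharacter.conductor_ne_zero _⟩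
  have e1 : χ⁻¹ = DirichletCharacter.changeLevel χ.conductor_dvd_level (χ.primitiveCharacter)⁻¹ := by
    rw [map_inv, DirichletCharacter.changeLevel_primitiveCharacter]
  have e2 : ∀ (ψ : DirichletCharacter ℂ M), ψ = DirichletCharacter.changeLevel χ.conductor_dvd_level (χ.primitiveCharacter)⁻¹ →
      ψ.primitiveCharacter (n : ZMod ψ.conductor) = (χ.primitiveCharacter)⁻¹ (n : ZMod χ.conductor) := by
    rintro ψ rfl
    have h1 := DirichletCharacter.primitiveCharacter_changeLevel_apply χ.conductor_dvd_level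
      (χ.primitiveCharacter)⁻¹ (n : ℤ)
    simp only [Int.cast_natCast] at h1
    rw [h1]
    have hp : ((χ.primitiveCharacter)⁻¹).conductor = χ.conductor := by
      rw [DirichletCharacter.conductor_inv]
      exact (DirichletCharacter.isPrimitive_def _).1 χ.primitiveCharacter_isPrimitive
    by_cases hc : IsCoprime (n : ℤ) χ.conductor
    · have h2 := DirichletCharacter.primitiveCharacter_apply_of_isCoprime (χ.primitiveCharacter)⁻¹ hc
      simpa using h2
    · have h2 : (χ.primitiveCharacter)⁻¹ ((n : ℤ) : ZMod χ.conductor) = 0 :=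
        (DirichletCharacter.apply_eq_zero_iff _ _).mpr hc
      have h3 : ((χ.primitiveCharacter)⁻¹).primitiveCharacter
          ((n : ℤ) : ZMod ((χ.primitiveCharacter)⁻¹).conductor) = 0 :=
        (DirichletCharacter.apply_eq_zero_iff _ _).mpr (by rwa [hp])
      simp only [Int.cast_natCast] at h2 h3
      rw [h2, h3]
  rw [e2 _ e1]
  have h := MulChar.star_apply' χ.primitiveCharacter (n : ZMod χ.conductor)
  rw [← h]
  rfl

end Pool.Agent.Run7.h114.CA.AB
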