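import Pool.Agent.Run7.h114.CA.Dual
import Pool.Agent.TH839.NA.Raw

/-!
Project CA: completed Euler products of degree `m` with local parameters at most `√p` are `RawT (1/2)`.
-/

set_option autoImplicit false
set_option maxHeartbeats 1000000

open Complex Filter Topology Set
open scoped ComplexConjugate

namespace Pool.Agent.Run7.h114.CA.EPL

open Pool.Agent.Run7.h114.CA.Dual Pool.Agent.W355.UN Pool.Agent.TH839.NA

/-- the completely multiplicative function with the values `β p` at the primes -/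
noncomputable def cmf (β : ℕ → ℂ) : ℕ →*₀ ℂ where
  toFun n := if n = 0 then 0 else n.factorization.prod fun p k => β p ^ k
  map_zero' := if_pos rfl
  map_one' := by simp
  map_mul' x y := by
    by_cases hx : x = 0
    · simp [hx]
    by_cases hy : y = 0
    · simp [hy]
    rw [if_neg hx, if_neg hy, if_neg (mul_ne_zero hx hy), Nat.factorization_mul hx hy]
    exact Finsupp.prod_add_index' (fun p => pow_zero _) (fun p a b => pow_add _ _ _)

lemma cmf_prime (β : ℕ → ℂ) {p : ℕ} (hp : p.Prime) : cmf β p = β p := by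
  have h1 : cmf β p = p.factorization.prod fun p k => β p ^ k := if_neg hp.ne_zero
  rw [h1, hp.factorization]
  have h2 := Finsupp.prod_single_index (a := p) (b := 1) (h := fun q k => β q ^ k) (pow_zero _)
  rw [h2, pow_one]

lemma cmf_le {β : ℕ → ℂ} (hβ : ∀ p : ℕ, p.Prime → ‖β p‖ ≤ (p : ℝ) ^ (1 / 2 : ℝ)) (n : ℕ) :
    ‖cmf β n‖ ≤ (n : ℝ) ^ (1 / 2 : ℝ) := by
  induction n using Nat.recOnMul with
  | zero => simp
  | one => simp
  | prime p hp => rw [cmf_prime β hp]; exact hβ p hp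
  | mul a b ha hb =>
    rw [map_mul, norm_mul, Nat.cast_mul, Real.mul_rpow (Nat.cast_nonneg _) (Nat.cast_nonneg _)]
    exact mul_le_mul ha hb (norm_nonneg _) (Real.rpow_nonneg (Nat.cast_nonneg _) _)

lemma conv_cmf (β : ℕ → ℂ) : Conv (cmf β) (cmf β) := by
  intro n hn
  have h1 : ∀ d ∈ n.divisors, ((ArithmeticFunction.vonMangoldt d : ℝ) : ℂ) * cmf β d * cmf β (n / d) =
      cmf β n * ((ArithmeticFunction.vonMangoldt d : ℝ) : ℂ) := by
    intro d hd
    have h2 : cmf β d * cmf β (n / d) = cmf β n := by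
      rw [← map_mul, Nat.mul_div_cancel' (Nat.dvd_of_mem_divisors hd)]
    rw [mul_assoc, h2, mul_comm]
  rw [Finset.sum_congr rfl h1, ← Finset.mul_sum, ← Complex.ofReal_sum, ArithmeticFunction.vonMangoldt_sum]

lemma summ {b : ℕ → ℂ} (hb : ∀ n : ℕ, ‖b n‖ ≤ (n : ℝ) ^ (1 / 2 : ℝ)) {s : ℂ} (hs : 3 / 2 < s.re) :
    LSeriesSummable b s := by
  refine LSeriesSummable_of_le_const_mul_rpow (x := 3 / 2) hs ⟨1, fun n _ => ?_⟩
  rw [one_mul]
  have : (3 / 2 - 1 : ℝ) = 1 / 2 := by norm_num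
  rw [this]
  exact hb n

/-- the Euler product of a completely multiplicative function -/
lemma cmf_prod {β : ℕ → ℂ} (hβ : ∀ p : ℕ, p.Prime → ‖β p‖ ≤ (p : ℝ) ^ (1 / 2 : ℝ)) {s : ℂ} (hs : 3 / 2 < s.re) :
    HasProd (fun p : Nat.Primes => (1 - β p * ((p : ℕ) : ℂ) ^ (-s))⁻¹) (LSeries (cmf β) s) := by
  have hterm : ∀ n : ℕ, cmf (fun p => β p * (p : ℂ) ^ (-s)) n = LSeries.term (cmf β) s n := by
    intro n
    induction n using Nat.recOnMul with
    | zero => simp
    | one => simp [LSeries.term_def]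
    | prime p hp =>
      rw [cmf_prime _ hp, LSeries.term_of_ne_zero hp.ne_zero, cmf_prime _ hp, Complex.cpow_neg, div_eq_mul_inv]
    | mul a b ha hb =>
      by_cases ha0 : a = 0
      · simp [ha0]
      by_cases hb0 : b = 0
      · simp [hb0]
      rw [map_mul, ha, hb, LSeries.term_of_ne_zero ha0, LSeries.term_of_ne_zero hb0,
        LSeries.term_of_ne_zero (mul_ne_zero ha0 hb0), map_mul, Nat.cast_mul,
        Complex.natCast_mul_natCast_cpow]
      rw [div_mul_div_comm]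
  have hsum : Summable fun n => ‖cmf (fun p => β p * (p : ℂ) ^ (-s)) n‖ := by
    have h1 : Summable (LSeries.term (cmf β) s) := summ (cmf_le hβ) hs
    simpa only [hterm] using h1.norm
  have h2 := EulerProduct.eulerProduct_completely_multiplicative_hasProd hsum
  have h3 : ∑' n, cmf (fun p => β p * (p : ℂ) ^ (-s)) n = LSeries (cmf β) s := by
    unfold LSeries
    exact tsum_congr hterm
  rw [h3] at h2
  refine h2.congr_fun fun p => ?_
  rw [cmf_prime _ p.2]

/-- the coefficients of the product -/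
noncomputable def bb : (m : ℕ) → (Fin m → ℕ → ℂ) → ℕ → ℂ
  | 0, _ => LSeries.delta
  | m + 1, β => LSeries.convolution (cmf (β 0)) (bb m fun j => β j.succ)

lemma bb_one : ∀ (m : ℕ) (β : Fin m → ℕ → ℂ), bb m β 1 = 1
  | 0, _ => by simp [bb, LSeries.delta]
  | m + 1, β => by
    show LSeries.convolution _ _ 1 = 1
    rw [convolution_one, bb_one, map_one, one_mul]

lemma bb_conv : ∀ (m : ℕ) (β : Fin m → ℕ → ℂ), Conv (bb m β) (fun n => ∑ j, cmf (β j) n)
  | 0, _ => by
    intro n hn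
    simp only [Finset.univ_eq_empty, Finset.sum_empty, mul_zero, zero_mul, Finset.sum_const_zero]
    by_cases h1 : n = 1
    · simp [h1]
    · simp [bb, LSeries.delta, h1]
  | m + 1, β => by
    have h := conv_conv (conv_cmf (β 0)) (bb_conv m fun j => β j.succ)
    intro n hn
    have h2 := h n hn
    rw [show bb (m + 1) β = LSeries.convolution (cmf (β 0)) (bb m fun j => β j.succ) from rfl, h2]
    refine Finset.sum_congr rfl fun d _ => ?_
    have h3 : ∑ j, cmf (β j) d = cmf (β 0) d + ∑ j : Fin m, cmf (β j.succ) d := Fin.sum_univ_succ _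
    simp only [h3]

lemma bb_series : ∀ (m : ℕ) (β : Fin m → ℕ → ℂ), (∀ j, ∀ p : ℕ, p.Prime → ‖β j p‖ ≤ (p : ℝ) ^ (1 / 2 : ℝ)) →
    ∀ {s : ℂ}, 3 / 2 < s.re → LSeriesSummable (bb m β) s ∧ LSeries (bb m β) s = ∏ j, LSeries (cmf (β j)) s
  | 0, _, _, s, _ => by
    constructor
    · show LSeriesSummable LSeries.delta s
      have : LSeries.term LSeries.delta s = fun n => if n = 1 then 1 else 0 := by
        funext n
        by_cases h1 : n = 1
        · simp [h1, LSeries.term_def, LSeries.delta]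
        · simp [h1, LSeries.term_def, LSeries.delta]
      show Summable _
      rw [this]
      exact summable_of_ne_finset_zero (s := {1}) fun b hb => by
        rw [if_neg]
        simpa using hb
    · rw [Finset.univ_eq_empty, Finset.prod_empty]
      show LSeries LSeries.delta s = 1
      rw [LSeries_delta]
      rfl
  | m + 1, β, hβ, s, hs => by
    obtain ⟨h1, h2⟩ := bb_series m (fun j => β j.succ) (fun j => hβ j.succ) hs
    have h3 := summ (cmf_le (hβ 0)) hs
    constructor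
    · exact h3.convolution h1
    · rw [show bb (m + 1) β = LSeries.convolution (cmf (β 0)) (bb m fun j => β j.succ) from rfl,
        LSeries_convolution' h3 h1, h2, Fin.prod_univ_succ]

/-- the parameters as functions on `ℕ` -/
noncomputable def pr {m : ℕ} (α : Nat.Primes → Fin m → ℂ) (j : Fin m) (p : ℕ) : ℂ :=
  open Classical in if h : p.Prime then α ⟨p, h⟩ j else 0

/-- the traces: `Σ_j α_j(p)^k` at `p^k` -/
noncomputable def trc {m : ℕ} (α : Nat.Primes → Fin m → ℂ) (n : ℕ) : ℂ := ∑ j, cmf (pr α j) n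

lemma trc_pow {m : ℕ} (α : Nat.Primes → Fin m → ℂ) (p : Nat.Primes) (k : ℕ) :
    trc α ((p : ℕ) ^ k) = ∑ j, α p j ^ k := by
  unfold trc
  refine Finset.sum_congr rfl fun j _ => ?_
  rw [map_pow, cmf_prime _ p.2]
  unfold pr
  rw [dif_pos p.2]
  rfl

theorem rawT_of_euler {m r : ℕ} {N : ℝ} {a : Fin m → ℂ} {α : Nat.Primes → Fin m → ℂ} {X : ℂ → ℂ}
    (hm : 1 ≤ m) (hr : r ≤ m) (hN : 1 ≤ N) (re_ge : ∀ j, -1 / 2 ≤ (a j).re)
    (hα : ∀ p j, ‖α p j‖ ≤ ((p : ℕ) : ℝ) ^ (1 / 2 : ℝ)) (entire : Differentiable ℂ X)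
    (order : ∃ A ρ : ℝ, ∀ s : ℂ, ‖X s‖ ≤ Real.exp (A * (1 + ‖s‖) ^ ρ))
    (fe : ∃ ε : ℂ, ‖ε‖ = 1 ∧ ∀ s : ℂ, X s = ε * conj (X (1 - conj s)))
    (eq : ∃ σ : ℝ, ∀ s : ℂ, σ ≤ s.re → X s = (s * (s - 1)) ^ r *
      ((N : ℂ) ^ (s / 2) * ∏ j, Gammaℝ (s + a j)) *
        ∏' p : Nat.Primes, ∏ j, (1 - α p j * ((p : ℕ) : ℂ) ^ (-s))⁻¹) :
    RawT (1 / 2) m r N a (bb m (pr α)) (trc α) X := by
  have hβ : ∀ j, ∀ p : ℕ, p.Prime → ‖pr α j p‖ ≤ (p : ℝ) ^ (1 / 2 : ℝ) := by
    intro j p hp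
    unfold pr
    rw [dif_pos hp]
    exact hα ⟨p, hp⟩ j
  obtain ⟨σ, hσ⟩ := eq
  refine ⟨hm, hr, hN, by norm_num, by norm_num, re_ge, entire, order, fe, bb_one _ _, fun n => ?_, bb_conv _ _,
    max σ 2, fun s hs => ?_⟩
  · unfold trc
    refine (norm_sum_le _ _).trans ((Finset.sum_le_sum fun j _ => cmf_le (hβ j) n).trans (le_of_eq ?_))
    rw [Finset.sum_const, Finset.card_univ, Fintype.card_fin, nsmul_eq_mul]
  · have hs1 : σ ≤ s.re := (le_max_left _ _).trans hs
    have hs2 : 3 / 2 < s.re := by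
      have := (le_max_right σ 2).trans hs
      linarith
    rw [hσ s hs1, (bb_series m (pr α) hβ hs2).2]
    congr 1
    have h1 : HasProd (fun p : Nat.Primes => ∏ j, (1 - pr α j p * ((p : ℕ) : ℂ) ^ (-s))⁻¹)
        (∏ j, LSeries (cmf (pr α j)) s) := hasProd_prod fun j _ => cmf_prod (hβ j) hs2
    rw [← h1.tprod_eq]
    refine tprod_congr fun p => Finset.prod_congr rfl fun j _ => ?_
    unfold pr
    rw [dif_pos p.2]
    rfl

end Pool.Agent.Run7.h114.CA.EPL
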