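import Pool.Agent.Run7.h114.CA.HkG
import Pool.Agent.W388.TW.Good
import Pool.Agent.W97.TW.Lfun
import Pool.Agent.H471R3.GJ.HDir

/-!
Project CA: the L-functions of newforms with real coefficients and trivial character; elliptic curves over `ℚ`.
-/

set_option autoImplicit false
set_option maxHeartbeats 1000000

namespace Pool.Agent.Run7.h114.CA.EQ

open UpperHalfPlane hiding I
open MatrixGroups CongruenceSubgroup Filter Topology Complex MeasureTheory Set
open Pool.Agent.H471R3.GJ (Hk IsHk SDir)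
open Pool.Agent.Run7.h114.CA.Zv Pool.Agent.Run7.h114.CA.HkT
open Y23.G Y23.G.CA
open scoped ComplexConjugate

variable {N : ℕ} [NeZero N] {k : ℕ} {f : CuspForm (Gamma0 N : Subgroup (GL (Fin 2) ℝ)) (k : ℤ)} {ε : ℝ}

/-- The data of a Hecke series attached to a newform. -/
noncomputable def nhk (f : CuspForm (Gamma0 N : Subgroup (GL (Fin 2) ℝ)) (k : ℤ)) (B ε : ℝ) : Hk where
  φ y := (f (ofComplex (Complex.I * ((y / Real.sqrt N : ℝ) : ℂ)))).re
  b m := ((qExpansion 1 f).coeff m).re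
  k := k
  h := Real.sqrt N
  p := 1
  β := k / 2
  B := B
  ε := ε

/-- The completed L-function `Λ(s) = ∫ f (i y / √N) y^(s-1) dy`. -/
noncomputable def Lam (f : CuspForm (Gamma0 N : Subgroup (GL (Fin 2) ℝ)) (k : ℤ)) (s : ℂ) : ℂ :=
  mellin (fun y : ℝ => f (ofComplex (Complex.I * ((y / Real.sqrt N : ℝ) : ℂ)))) s

lemma sqrtN_pos : 0 < Real.sqrt N := by
  have : (0 : ℝ) < N := by exact_mod_cast Nat.pos_of_ne_zero (NeZero.ne N)
  exact Real.sqrt_pos.2 this

/-- the q-expansion on the imaginary axis -/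
lemma sum_iy (f : CuspForm (Gamma0 N : Subgroup (GL (Fin 2) ℝ)) (k : ℤ)) {y : ℝ} (hy : 0 < y) :
    HasSum (fun m : ℕ => (qExpansion 1 f).coeff m *
      ((Real.exp (-(2 * Real.pi * (m : ℝ) * y / Real.sqrt N)) : ℝ) : ℂ))
      (f (ofComplex (Complex.I * ((y / Real.sqrt N : ℝ) : ℂ)))) := by
  have hy1 : 0 < y / Real.sqrt N := div_pos hy sqrtN_pos
  have him : 0 < (Complex.I * ((y / Real.sqrt N : ℝ) : ℂ)).im := by simpa using hy1
  have h := Pool.Agent.W97.TW.hasSum_f f him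
  refine h.congr_fun fun m => ?_
  show _ = (qExpansion 1 f).coeff m * _
  congr 1
  rw [Complex.ofReal_exp]
  congr 1
  have hI : Complex.I ^ 2 = -1 := Complex.I_sq
  push_cast
  linear_combination (-(2 * Real.pi * m * (y / ((Real.sqrt N : ℝ) : ℂ))) : ℂ) * hI

lemma real_iy (hf : W388.IsNewf N k f ε) {y : ℝ} (hy : 0 < y) :
    (((f (ofComplex (Complex.I * ((y / Real.sqrt N : ℝ) : ℂ)))).re : ℝ) : ℂ) =
      f (ofComplex (Complex.I * ((y / Real.sqrt N : ℝ) : ℂ))) := by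
  apply Complex.ext
  · simp
  · rw [Complex.ofReal_im]
    have h1 := Complex.hasSum_im (sum_iy f hy)
    have h2 : (fun m : ℕ => ((qExpansion 1 f).coeff m *
      ((Real.exp (-(2 * Real.pi * (m : ℝ) * y / Real.sqrt N)) : ℝ) : ℂ)).im) = fun _ => 0 := by
      funext m
      rw [Complex.im_mul_ofReal, hf.real m, zero_mul]
    rw [h2] at h1
    exact (h1.unique hasSum_zero).symm

theorem isHk_of (hk : 1 ≤ k) (hf : W388.IsNewf N k f ε) : ∃ B : ℝ, IsHk (nhk f B ε) := by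
  have hk' : (1 : ℤ) ≤ (k : ℤ) := by exact_mod_cast hk
  have hk0 : (0 : ℝ) < k := by exact_mod_cast (lt_of_lt_of_le one_pos hk : 0 < k)
  obtain ⟨C, hC⟩ := W388.coeff_bound f hk'
  refine ⟨max C 1, hk0, sqrtN_pos, le_refl 1, ?_, le_max_right _ _, ?_, ?_, ?_, hf.sign, ?_⟩
  · show (0 : ℝ) ≤ (k : ℝ) / 2
    positivity
  · have h1 := congrArg Complex.re hf.one
    exact h1.trans Complex.one_re
  · intro m hm
    have hm0 : (0 : ℝ) ≤ (m : ℝ) ^ ((k : ℝ) / 2) := by positivity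
    refine (Complex.abs_re_le_norm _).trans ((hC m hm).trans ?_)
    show C * (m : ℝ) ^ ((((k : ℤ) : ℝ)) / 2) ≤ max C 1 * (m : ℝ) ^ ((k : ℝ) / 2)
    rw [Int.cast_natCast]
    exact mul_le_mul_of_nonneg_right (le_max_left _ _) hm0
  · intro y hy
    have h := Complex.hasSum_re (sum_iy f hy)
    have h2 := (hasSum_nat_add_iff' 1).2 h
    simp only [Finset.range_one, Finset.sum_singleton, W388.coeff_zero f, zero_mul, Complex.zero_re,
      sub_zero] at h2
    refine h2.congr_fun ?_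
    intro m
    rw [Complex.re_mul_ofReal]
    show ((qExpansion 1 f).coeff (m + 1)).re *
      Real.exp (-(2 * Real.pi * ((m + 1 : ℕ) : ℝ) ^ 1 * y / Real.sqrt N)) = _
    rw [pow_one]
  · intro y hy
    have hs := sqrtN_pos (N := N)
    have hy1 : 0 < y / Real.sqrt N := div_pos hy hs
    have hy2 : 0 < (1 / y) / Real.sqrt N := by positivity
    have him1 : 0 < (Complex.I * ((y / Real.sqrt N : ℝ) : ℂ)).im := by simpa using hy1
    have him2 : 0 < (Complex.I * (((1 / y) / Real.sqrt N : ℝ) : ℂ)).im := by simpa using hy2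
    have hss : Real.sqrt N * Real.sqrt N = N := Real.mul_self_sqrt (Nat.cast_nonneg N)
    have h1 := hf.fricke (ofComplex (Complex.I * ((y / Real.sqrt N : ℝ) : ℂ)))
      (ofComplex (Complex.I * (((1 / y) / Real.sqrt N : ℝ) : ℂ))) (by
        rw [ofComplex_apply_of_im_pos him1, ofComplex_apply_of_im_pos him2]
        show Complex.I * (((1 / y) / Real.sqrt N : ℝ) : ℂ) * ((N : ℂ) *
          (Complex.I * ((y / Real.sqrt N : ℝ) : ℂ))) = -1
        have e1 : (((1 / y) / Real.sqrt N : ℝ) : ℂ) * ((N : ℂ) * ((y / Real.sqrt N : ℝ) : ℂ)) = 1 := by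
          have e2 : ((1 / y) / Real.sqrt N) * ((N : ℝ) * (y / Real.sqrt N)) = 1 := by
            have e3 : ((1 / y) / Real.sqrt N) * ((N : ℝ) * (y / Real.sqrt N)) =
                ((N : ℝ) / (Real.sqrt N * Real.sqrt N)) * (y / y) := by ring
            have hN0 : (N : ℝ) ≠ 0 := by
              rw [← hss]
              exact (mul_pos hs hs).ne'
            rw [e3, hss, div_self hN0, div_self hy.ne', one_mul]
          exact_mod_cast e2
        have hI := Complex.I_mul_I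
        linear_combination Complex.I * Complex.I * e1 + hI)
    have h2 : (((Real.sqrt N : ℝ) : ℂ) * ((ofComplex (Complex.I * ((y / Real.sqrt N : ℝ) : ℂ)) : ℍ) : ℂ) /
        Complex.I) = (y : ℂ) := by
      rw [ofComplex_apply_of_im_pos him1]
      show ((Real.sqrt N : ℝ) : ℂ) * (Complex.I * ((y / Real.sqrt N : ℝ) : ℂ)) / Complex.I = (y : ℂ)
      have hI := Complex.I_ne_zero
      have hsc : ((Real.sqrt N : ℝ) : ℂ) ≠ 0 := by exact_mod_cast hs.ne'
      push_cast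
      field_simp
    rw [h2, ← real_iy hf hy] at h1
    have h3 := congrArg Complex.re h1
    show (f (ofComplex (Complex.I * (((1 / y) / Real.sqrt N : ℝ) : ℂ)))).re =
      ε * y ^ (k : ℝ) * (f (ofComplex (Complex.I * ((y / Real.sqrt N : ℝ) : ℂ)))).re
    rw [h3]
    have h4 : (ε : ℂ) * (y : ℂ) ^ (k : ℤ) * (((f (ofComplex (Complex.I * ((y / Real.sqrt N : ℝ) : ℂ)))).re : ℝ) : ℂ) =
        ((ε * y ^ (k : ℝ) * (f (ofComplex (Complex.I * ((y / Real.sqrt N : ℝ) : ℂ)))).re : ℝ) : ℂ) := by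
      rw [Real.rpow_natCast]
      push_cast
      rw [zpow_natCast]
    rw [h4, Complex.ofReal_re]

lemma Lam_eq (hf : W388.IsNewf N k f ε) (B : ℝ) :
    Lam f = mellin (fun y : ℝ => (((nhk f B ε).φ y : ℝ) : ℂ)) := by
  funext s
  unfold Lam mellin
  refine setIntegral_congr_fun measurableSet_Ioi fun y hy => ?_
  have h1 := real_iy hf (show (0 : ℝ) < y from hy)
  simp only
  rw [← h1]
  rfl

lemma Lam_diff (hk : 1 ≤ k) (hf : W388.IsNewf N k f ε) : Differentiable ℂ (Lam f) := by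
  obtain ⟨B, hB⟩ := isHk_of hk hf
  rw [Lam_eq hf B]
  exact Pool.Agent.W355.LJ.mel_diff (toHc _) (isHc _ hB)

lemma Lam_ser (hk : 1 ≤ k) (hf : W388.IsNewf N k f ε) (s : ℂ) (hs : (k : ℝ) / 2 + 1 < s.re) :
    Lam f s = ((Real.sqrt N / (2 * Real.pi) : ℝ) : ℂ) ^ s * Complex.Gamma s *
        ∑' n : ℕ, (qExpansion 1 f).coeff (n + 1) * ((n + 1 : ℕ) : ℂ) ^ (-s) := by
  obtain ⟨B, hB⟩ := isHk_of hk hf
  have hk0 : (0 : ℝ) < k := by exact_mod_cast (lt_of_lt_of_le one_pos hk : 0 < k)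
  have h1 := Pool.Agent.H471R3.GJ.dir (nhk f B ε) hB s (by linarith) (by
    show (k : ℝ) / 2 + 1 < ((1 : ℕ) : ℝ) * s.re
    rw [Nat.cast_one, one_mul]
    exact hs)
  rw [← Lam_eq hf B] at h1
  rw [h1]
  show ((Real.sqrt N / (2 * Real.pi) : ℝ) : ℂ) ^ s * Complex.Gamma s *
    ∑' m : ℕ, ((((qExpansion 1 f).coeff (m + 1)).re : ℝ) : ℂ) * ((m + 1 : ℕ) : ℂ) ^ (-((1 : ℕ) : ℂ) * s) = _
  congr 1
  refine tsum_congr fun n => ?_
  rw [← W388.coeff_real hf (n + 1)]
  congr 2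
  push_cast
  ring

/-- **The L-function of a newform as an `LFun`.** -/
theorem lfun_nf (hk : 1 ≤ k) (hf : W388.IsNewf N k f ε) :
    ∃ L : LFun, L.m = 2 ∧ L.N = N ∧ ∃ C : ℂ, C ≠ 0 ∧ (∀ z, L.X (1 / 2 + I * z) = C * Lam f ((k : ℂ) / 2 + I * z)) ∧
      (∀ z, Lam f ((k : ℂ) / 2 + I * -z) = (ε : ℂ) * Lam f ((k : ℂ) / 2 + I * z)) ∧
      ∀ a : ℝ, 0 < a → ∀ g, InDom a g →
        W k N (fun n => ((qExpansion 1 f).coeff n).re) a g = QQ (D := zd (L := L)) g := by
  obtain ⟨B, hB⟩ := isHk_of hk hf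
  have hN : (1 : ℝ) ≤ N := by exact_mod_cast Nat.one_le_iff_ne_zero.2 (NeZero.ne N)
  have hh : (nhk f B ε).h ^ 2 = N := Real.sq_sqrt (by linarith)
  have hc : ∀ n, (qExpansion 1 f).coeff n = ((((qExpansion 1 f).coeff n).re : ℝ) : ℂ) := W388.coeff_real hf
  have hk2 : ((((nhk f B ε).k / 2 : ℝ)) : ℂ) = (k : ℂ) / 2 := by
    show ((((k : ℝ) / 2 : ℝ)) : ℂ) = _
    push_cast
    rfl
  obtain ⟨L, h1, h2, C, h3, h4, h5, h6⟩ := lfun_of (nhk f B ε) hB rfl rfl
    (by show (1 : ℝ) ≤ (k : ℝ); exact_mod_cast hk)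
    (by show (1 : ℝ) ≤ Real.sqrt N; exact Real.one_le_sqrt.2 hN)
    (fun m n hmn => by
      show ((qExpansion 1 f).coeff (m * n)).re = ((qExpansion 1 f).coeff m).re * ((qExpansion 1 f).coeff n).re
      rw [hf.mul m n hmn, hc m, hc n, ← Complex.ofReal_mul]
      simp only [Complex.ofReal_re])
    (fun p hp => ⟨if p ∣ N then 0 else (p : ℝ) ^ (k - 1), fun j => by
      show ((qExpansion 1 f).coeff (p ^ (j + 2))).re = ((qExpansion 1 f).coeff p).re *
        ((qExpansion 1 f).coeff (p ^ (j + 1))).re - (if p ∣ N then 0 else (p : ℝ) ^ (k - 1)) *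
          ((qExpansion 1 f).coeff (p ^ j)).re
      have e1 := hf.pow p j hp
      have e2 : (p : ℂ) ^ ((k : ℤ) - 1) = (((p : ℝ) ^ (k - 1) : ℝ) : ℂ) := by
        have e3 : ((k : ℤ) - 1) = ((k - 1 : ℕ) : ℤ) := by omega
        rw [e3, zpow_natCast]
        push_cast
        rfl
      rw [e1, e2, hc p, hc (p ^ (j + 1)), hc (p ^ j)]
      split_ifs with h
      · rw [sub_zero, zero_mul, sub_zero, ← Complex.ofReal_mul]
        simp only [Complex.ofReal_re]
      · rw [← Complex.ofReal_mul, ← Complex.ofReal_mul, ← Complex.ofReal_sub]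
        simp only [Complex.ofReal_re]⟩)
    (fun z => Lam f ((k : ℂ) / 2 + I * z)) (fun z => by rw [hk2, Lam_eq hf B])
  rw [hh] at h2 h6
  exact ⟨L, h1, h2, C, h3, h4, h5, h6⟩

end Pool.Agent.Run7.h114.CA.EQ
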