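import Pool.Agent.Run7.h336.CA11
import Pool.Agent.Y23.G.An2

/-!
Project CA, port to self-dual L-functions: growth of order `3/2` (in fact `1+`), the completed L-function is
not of exponential type, and the symmetry of the zeros.
-/

set_option autoImplicit false
set_option linter.unusedSectionVars false
set_option maxHeartbeats 2000000

open Complex Filter Topology Set MeasureTheory Metric
open scoped ComplexConjugate Nat

namespace Pool.Agent.Y23.G.CA

open Pool.Agent.W169.HF H353.E Pool.Agent.W355.UN Pool.Agent.TH839.NA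

lemma p32 {k y z : ℝ} (hk : 1 ≤ k) (hy : 0 ≤ y) (hz : 0 ≤ z) (h : z ≤ k * y) :
    z ^ (3 / 2 : ℝ) ≤ k ^ 2 * y ^ (3 / 2 : ℝ) := by
  calc z ^ (3 / 2 : ℝ) ≤ (k * y) ^ (3 / 2 : ℝ) := Real.rpow_le_rpow hz h (by norm_num)
    _ = k ^ (3 / 2 : ℝ) * y ^ (3 / 2 : ℝ) := Real.mul_rpow (by linarith) hy
    _ ≤ k ^ 2 * y ^ (3 / 2 : ℝ) := by
        refine mul_le_mul_of_nonneg_right ?_ (Real.rpow_nonneg hy _)
        calc k ^ (3 / 2 : ℝ) ≤ k ^ (2 : ℝ) := Real.rpow_le_rpow_of_exponent_le hk (by norm_num)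
          _ = k ^ 2 := by rw [← Real.rpow_natCast]; norm_num

lemma p32_sqrt {y : ℝ} (hy : 0 ≤ y) : y ^ (3 / 2 : ℝ) = y * Real.sqrt y := by
  rw [Real.sqrt_eq_rpow, show (3 / 2 : ℝ) = 1 + 1 / 2 by norm_num, Real.rpow_add_of_nonneg hy (by norm_num) (by norm_num),
    Real.rpow_one]

variable [L : LFun]

/-- the logarithmic derivative in a half plane -/
lemma XL_all : ∃ C : ℝ, 1 ≤ C ∧ ∀ s : ℂ, 2 ≤ s.re → ‖logDeriv L.X s‖ ≤ C * (1 + Real.log (‖s‖ + 4)) := by
  have h := ul (L := L)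
  have hp : ∀ j, 1 ≤ 1 + ‖-L.a j‖ := fun j => by linarith [norm_nonneg (-L.a j)]
  have hpp : 1 ≤ ∏ j, (1 + ‖-L.a j‖) := by
    refine Finset.prod_induction _ (fun x => (1 : ℝ) ≤ x) (fun a b ha hb => ?_) le_rfl fun j _ => hp j
    nlinarith
  have hN : 1 ≤ L.N := h.hN
  have hlog : 0 ≤ Real.log (L.N * ∏ j, (1 + ‖-L.a j‖)) := Real.log_nonneg (by nlinarith)
  have hm : (0 : ℝ) ≤ L.m := Nat.cast_nonneg _
  have hB := Bst_nonneg (1 / 2)
  refine ⟨Real.log (L.N * ∏ j, (1 + ‖-L.a j‖)) + L.m * 8 + L.m * Bst (1 / 2) + 1, by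
    have : 0 ≤ (L.m : ℝ) * 8 := by positivity
    have : 0 ≤ (L.m : ℝ) * Bst (1 / 2) := by positivity
    linarith, fun s h1 => ?_⟩
  rw [h.logD (by linarith)]
  have b1 := gaD_norm hN h.re_le (s := s) (by linarith)
  have b2 := h.bd (1 / 2) (by norm_num) (by norm_num) s (by linarith)
  have hl : 0 ≤ Real.log (‖s‖ + 4) := Real.log_nonneg (by linarith [norm_nonneg s])
  refine (norm_add_le _ _).trans ((add_le_add b1 b2).trans ?_)
  have h6 : 0 ≤ (L.m : ℝ) * Bst (1 / 2) := by positivity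
  nlinarith [mul_nonneg hlog hl, mul_nonneg hm hl, mul_nonneg h6 hl]

/-- growth in a right half plane -/
lemma X_right : ∃ D : ℝ, 0 ≤ D ∧ ∀ s : ℂ, 2 ≤ s.re → ‖L.X s‖ ≤ Real.exp (D * (1 + ‖s‖) ^ (3 / 2 : ℝ)) := by
  obtain ⟨C, hC, hCb⟩ := XL_all (L := L)
  have hC0 : 0 ≤ C := by linarith
  set M0 : ℝ := ‖L.X ((9 / 2 : ℝ) : ℂ)‖ with hM0
  have hM : 0 ≤ M0 := norm_nonneg _
  refine ⟨M0 + 50 * C, by positivity, fun s hs => ?_⟩
  set x := ‖s‖ with hx
  have hx0 : 0 ≤ x := norm_nonneg _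
  set K := C * (1 + Real.log (x + 9)) with hK
  have hl9 : 0 ≤ Real.log (x + 9) := Real.log_nonneg (by linarith)
  have hre : ∀ τ ∈ Icc (0 : ℝ) 1, 2 ≤ (((9 / 2 : ℝ) : ℂ) + τ * (s - ((9 / 2 : ℝ) : ℂ))).re := by
    intro τ hτ
    have e : (((9 / 2 : ℝ) : ℂ) + τ * (s - ((9 / 2 : ℝ) : ℂ))).re = (1 - τ) * (9 / 2) + τ * s.re := by
      rw [Complex.add_re, Complex.re_ofReal_mul, Complex.sub_re, Complex.ofReal_re]
      ring
    rw [e]
    nlinarith [hτ.1, hτ.2]
  have hnorm : ∀ τ ∈ Icc (0 : ℝ) 1, ‖((9 / 2 : ℝ) : ℂ) + τ * (s - ((9 / 2 : ℝ) : ℂ))‖ ≤ x + 5 := by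
    intro τ hτ
    have e : ((9 / 2 : ℝ) : ℂ) + τ * (s - ((9 / 2 : ℝ) : ℂ)) = ((1 - τ : ℝ) : ℂ) * ((9 / 2 : ℝ) : ℂ) + (τ : ℂ) * s := by
      push_cast; ring
    rw [e]
    refine (norm_add_le _ _).trans ?_
    rw [norm_mul, norm_mul, Complex.norm_real, Complex.norm_real, Complex.norm_real, Real.norm_eq_abs, Real.norm_eq_abs,
      Real.norm_eq_abs, abs_of_nonneg (by linarith [hτ.2] : (0 : ℝ) ≤ 1 - τ), abs_of_nonneg hτ.1,
      abs_of_nonneg (by norm_num : (0 : ℝ) ≤ 9 / 2), ← hx]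
    nlinarith [hτ.1, hτ.2]
  have h := seg (F := L.X) (s := ((9 / 2 : ℝ) : ℂ)) (v := s - ((9 / 2 : ℝ) : ℂ)) (ℓ := 0) (K := K) (fun τ _ => Xd _)
    (fun τ hτ => X_ne (by linarith [hre τ hτ])) (fun τ hτ => by
      rw [Complex.ofReal_zero, sub_zero]
      refine (hCb _ (hre τ hτ)).trans ?_
      rw [hK]
      refine mul_le_mul_of_nonneg_left ?_ hC0
      have h1 := hnorm τ hτ
      have h2 : Real.log (‖((9 / 2 : ℝ) : ℂ) + τ * (s - ((9 / 2 : ℝ) : ℂ))‖ + 4) ≤ Real.log (x + 9) :=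
        Real.log_le_log (by positivity) (by linarith)
      linarith)
  rw [zero_mul, zero_add, add_sub_cancel] at h
  have hv : ‖s - ((9 / 2 : ℝ) : ℂ)‖ ≤ 5 * (1 + x) := by
    refine (norm_sub_le _ _).trans ?_
    rw [Complex.norm_real, Real.norm_eq_abs, abs_of_nonneg (by norm_num : (0 : ℝ) ≤ 9 / 2), ← hx]
    linarith
  have hlog : 1 + Real.log (x + 9) ≤ 10 * Real.sqrt (1 + x) := by
    have h1 : Real.log (x + 9) = 2 * Real.log (Real.sqrt (x + 9)) := by
      rw [Real.log_sqrt (by linarith)]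
      ring
    have h2 : Real.log (Real.sqrt (x + 9)) ≤ Real.sqrt (x + 9) - 1 :=
      Real.log_le_sub_one_of_pos (Real.sqrt_pos.2 (by linarith))
    have h3 : Real.sqrt (x + 9) ≤ 3 * Real.sqrt (1 + x) := by
      have h4 : Real.sqrt (x + 9) ≤ Real.sqrt (3 ^ 2 * (1 + x)) := Real.sqrt_le_sqrt (by linarith)
      rw [Real.sqrt_mul (by norm_num), Real.sqrt_sq (by norm_num)] at h4
      exact h4
    have h5 : 1 ≤ Real.sqrt (1 + x) := Real.one_le_sqrt.2 (by linarith)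
    linarith
  have hone : (1 : ℝ) ≤ (1 + x) ^ (3 / 2 : ℝ) := Real.one_le_rpow (by linarith) (by norm_num)
  have hKv : K * ‖s - ((9 / 2 : ℝ) : ℂ)‖ ≤ 50 * C * (1 + x) ^ (3 / 2 : ℝ) := by
    rw [hK, p32_sqrt (by linarith)]
    calc C * (1 + Real.log (x + 9)) * ‖s - ((9 / 2 : ℝ) : ℂ)‖
        ≤ C * (10 * Real.sqrt (1 + x)) * (5 * (1 + x)) := by
          refine mul_le_mul (mul_le_mul_of_nonneg_left hlog hC0) hv (norm_nonneg _) (by positivity)
      _ = _ := by ring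
  calc ‖L.X s‖ ≤ M0 * Real.exp (K * ‖s - ((9 / 2 : ℝ) : ℂ)‖) := h
    _ ≤ Real.exp (M0 * (1 + x) ^ (3 / 2 : ℝ)) * Real.exp (50 * C * (1 + x) ^ (3 / 2 : ℝ)) := by
        refine mul_le_mul ?_ (Real.exp_le_exp.2 hKv) (Real.exp_pos _).le (Real.exp_pos _).le
        have h1 := Real.add_one_le_exp (M0 * (1 + x) ^ (3 / 2 : ℝ))
        nlinarith
    _ = _ := by rw [← Real.exp_add]; congr 1; ring

/-- growth -/
theorem X_growth : ∃ A : ℝ, ∀ w : ℂ, ‖L.X (1 / 2 + w)‖ ≤ Real.exp (A * (1 + ‖w‖) ^ (3 / 2 : ℝ)) := by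
  obtain ⟨D, hD, hR⟩ := X_right (L := L)
  obtain ⟨B, hB, hBb⟩ := X_ball (L := L)
  have hall : ∀ s : ℂ, ‖L.X s‖ ≤ Real.exp ((36 * D + 3 * B) * (1 + ‖s‖) ^ (3 / 2 : ℝ)) := by
    intro s
    have hx0 : 0 ≤ ‖s‖ := norm_nonneg s
    have hone : (1 : ℝ) ≤ (1 + ‖s‖) ^ (3 / 2 : ℝ) := Real.one_le_rpow (by linarith) (by norm_num)
    rcases le_or_gt 2 s.re with h2 | h2
    · refine (hR s h2).trans (Real.exp_le_exp.2 ?_)
      nlinarith
    · rcases le_or_gt s.re (-1) with h1 | h1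
      · rw [← X_norm s]
        have e : (1 - conj s).re = 1 - s.re := by simp
        refine (hR (1 - conj s) (by rw [e]; linarith)).trans (Real.exp_le_exp.2 ?_)
        have hn : ‖1 - conj s‖ ≤ 1 + ‖s‖ := by
          refine (norm_sub_le _ _).trans ?_
          rw [norm_one, RCLike.norm_conj]
        have h3 := p32 (k := 2) (y := 1 + ‖s‖) (z := 1 + ‖1 - conj s‖) (by norm_num) (by linarith)
          (by linarith [norm_nonneg (1 - conj s)]) (by linarith)
        nlinarith [mul_le_mul_of_nonneg_left h3 hD]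
      · set T := s.im with hT
        have hz : s ∈ closedBall (ctr T) 6 := by
          rw [mem_closedBall, dist_eq_norm]
          have e : s - ctr T = ((s.re - 9 / 2 : ℝ) : ℂ) := by
            apply Complex.ext
            · simp [ctr]
            · simp [ctr, hT]
          rw [e, Complex.norm_real, Real.norm_eq_abs, abs_le]
          constructor <;> linarith
        have hTn : |T| ≤ ‖s‖ := Complex.abs_im_le_norm s
        have hcn : ‖ctr T‖ ≤ 9 / 2 + ‖s‖ := by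
          have e : ctr T = ((9 / 2 : ℝ) : ℂ) + (T : ℂ) * I := by
            apply Complex.ext <;> simp [ctr]
          rw [e]
          refine (norm_add_le _ _).trans ?_
          rw [norm_mul, norm_I, mul_one, Complex.norm_real, Complex.norm_real, Real.norm_eq_abs, Real.norm_eq_abs,
            abs_of_nonneg (by norm_num : (0 : ℝ) ≤ 9 / 2)]
          linarith
        have h3 := hR (ctr T) (by show (2 : ℝ) ≤ 9 / 2; norm_num)
        have h4 := p32 (k := 6) (y := 1 + ‖s‖) (z := 1 + ‖ctr T‖) (by norm_num) (by linarith)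
          (by linarith [norm_nonneg (ctr T)]) (by linarith)
        have h5 : Lg T ≤ 3 * (1 + ‖s‖) ^ (3 / 2 : ℝ) := by
          have h6 : Lg T ≤ 3 + |T| - 1 := by
            unfold Lg
            exact Real.log_le_sub_one_of_pos (by positivity)
          have h7 : (1 + ‖s‖) ≤ (1 + ‖s‖) ^ (3 / 2 : ℝ) := by
            conv_lhs => rw [← Real.rpow_one (1 + ‖s‖)]
            exact Real.rpow_le_rpow_of_exponent_le (by linarith) (by norm_num)
          linarith
        calc ‖L.X s‖ ≤ ‖L.X (ctr T)‖ * Real.exp (B * Lg T) := hBb T s hz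
          _ ≤ Real.exp (D * (1 + ‖ctr T‖) ^ (3 / 2 : ℝ)) * Real.exp (B * Lg T) :=
              mul_le_mul_of_nonneg_right h3 (Real.exp_pos _).le
          _ = Real.exp (D * (1 + ‖ctr T‖) ^ (3 / 2 : ℝ) + B * Lg T) := by rw [Real.exp_add]
          _ ≤ _ := by
              apply Real.exp_le_exp.2
              have h6 := mul_le_mul_of_nonneg_left h4 hD
              have h7 := mul_le_mul_of_nonneg_left h5 (by linarith : (0 : ℝ) ≤ B)
              nlinarith
  refine ⟨4 * (36 * D + 3 * B), fun w => (hall _).trans (Real.exp_le_exp.2 ?_)⟩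
  have hn : ‖(1 / 2 + w : ℂ)‖ ≤ 1 / 2 + ‖w‖ := by
    refine (norm_add_le _ _).trans ?_
    have : ‖(1 / 2 : ℂ)‖ = 1 / 2 := by norm_num
    rw [this]
  have h3 := p32 (k := 2) (y := 1 + ‖w‖) (z := 1 + ‖(1 / 2 + w : ℂ)‖) (by norm_num) (by linarith [norm_nonneg w])
    (by linarith [norm_nonneg (1 / 2 + w : ℂ)]) (by linarith [norm_nonneg w])
  have h4 : 0 ≤ 36 * D + 3 * B := by linarith
  nlinarith [mul_le_mul_of_nonneg_left h3 h4]

/-- lower bound for the Gamma factor -/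
lemma GR_low (α : ℂ) (hα : -1 / 2 < α.re) : ∃ c : ℝ, 0 < c ∧ ∀ k : ℕ,
    c * ((k ! : ℝ) / (2 * Real.pi) ^ k) ≤ ‖Gammaℝ (2 * ((k : ℂ) + 1) + α)‖ := by
  have hpi := Real.pi_pos
  have hre : ∀ k : ℕ, (2 * ((k : ℂ) + 1) + α).re = 2 * (k + 1) + α.re := by
    intro k
    simp
  refine ⟨‖Gammaℝ (2 * (((0 : ℕ) : ℂ) + 1) + α)‖, norm_pos_iff.2 (Gammaℝ_ne_zero_of_re_pos (by
    rw [hre]; push_cast; linarith)), fun k => ?_⟩
  induction k with
  | zero => simp
  | succ k ih =>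
    set s : ℂ := 2 * ((k : ℂ) + 1) + α with hs
    have e1 : (2 * (((k + 1 : ℕ) : ℂ) + 1) + α) = s + 2 := by
      rw [hs]; push_cast; ring
    have hsre : s.re = 2 * (k + 1) + α.re := hre k
    have hk : (0 : ℝ) ≤ k := Nat.cast_nonneg k
    have hs0 : s ≠ 0 := by
      intro h
      rw [h] at hsre
      simp at hsre
      linarith
    have hsn : (k + 1 : ℝ) ≤ ‖s‖ := by
      have := Complex.re_le_norm s
      rw [hsre] at this
      linarith
    rw [e1, Gammaℝ_add_two hs0, norm_div, norm_div, norm_mul, Complex.norm_real, Real.norm_eq_abs, abs_of_pos hpi,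
      Complex.norm_ofNat]
    have h1 : ‖Gammaℝ (2 * (((0 : ℕ) : ℂ) + 1) + α)‖ * (((k + 1)! : ℝ) / (2 * Real.pi) ^ (k + 1)) =
        ‖Gammaℝ (2 * (((0 : ℕ) : ℂ) + 1) + α)‖ * ((k ! : ℝ) / (2 * Real.pi) ^ k) * (k + 1) / 2 / Real.pi := by
      rw [Nat.factorial_succ, pow_succ]
      push_cast
      field_simp
    rw [h1]
    have h2 : ‖Gammaℝ (2 * (((0 : ℕ) : ℂ) + 1) + α)‖ * ((k ! : ℝ) / (2 * Real.pi) ^ k) * (k + 1) ≤ ‖Gammaℝ s‖ * ‖s‖ :=
      mul_le_mul ih hsn (by linarith) (norm_nonneg _)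
    exact div_le_div_of_nonneg_right (div_le_div_of_nonneg_right h2 (by norm_num)) hpi.le

/-- the completed L-function is not of exponential type -/
theorem X_not_exp : ¬ ∃ C A : ℝ, ∀ w : ℂ, ‖L.X (1 / 2 + w)‖ ≤ C * Real.exp (A * ‖w‖) := by
  rintro ⟨C, A, h⟩
  have hpi := Real.pi_pos
  have hm1 : 1 ≤ L.m := L.raw.hm
  choose c hc0 hc using fun j => GR_low (L.a j) (L.str j)
  set c' : ℝ := ∏ j, c j with hc'
  have hc'0 : 0 < c' := Finset.prod_pos fun j _ => hc0 j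
  -- the limit of the L-series
  have hlim := LSeries.tendsto_atTop (f := L.b) (lt_of_le_of_lt L.raw.absc_le (EReal.coe_lt_top _))
  rw [L.raw.one] at hlim
  have hseq : Tendsto (fun k : ℕ => (2 * ((k : ℝ) + 1))) atTop atTop := by
    refine Tendsto.const_mul_atTop (by norm_num) ?_
    exact tendsto_atTop_add_const_right _ _ tendsto_natCast_atTop_atTop
  have hlim2 := (hlim.comp hseq).norm
  rw [norm_one] at hlim2
  obtain ⟨σ, hσ⟩ := L.raw.eq
  -- the quotient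
  set q : ℝ := 2 * Real.pi * Real.exp (2 * |A|) with hq
  have hq0 : 0 < q := by positivity
  have hlq := (FloorSemiring.tendsto_pow_div_factorial_atTop q).const_mul (2 * (|C| * Real.exp (2 * |A|)) / c')
  rw [mul_zero] at hlq
  have hlp := FloorSemiring.tendsto_pow_div_factorial_atTop (2 * Real.pi)
  obtain ⟨k, hk1, hk2, hk3, hk4⟩ := (((hlim2.eventually (lt_mem_nhds (by norm_num : (1 / 2 : ℝ) < 1))).and
    ((hseq.eventually (eventually_ge_atTop σ)).and
      ((hlq.eventually (gt_mem_nhds one_pos)).and (hlp.eventually (gt_mem_nhds one_pos)))))).exists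
  set s : ℂ := 2 * ((k : ℂ) + 1) with hs
  have hk0 : (0 : ℝ) ≤ k := Nat.cast_nonneg k
  have hsr : s = ((2 * ((k : ℝ) + 1) : ℝ) : ℂ) := by rw [hs]; push_cast; rfl
  have hsre : s.re = 2 * ((k : ℝ) + 1) := by rw [hsr, Complex.ofReal_re]
  have hfact : (0 : ℝ) < (k ! : ℝ) := by exact_mod_cast Nat.factorial_pos k
  set g : ℝ := (k ! : ℝ) / (2 * Real.pi) ^ k with hg
  have hg1 : 1 ≤ g := by
    rw [hg, le_div_iff₀ (by positivity), one_mul]
    rw [div_lt_one hfact] at hk4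
    exact hk4.le
  have hX := hσ s (by rw [hsre]; exact hk2)
  have hLs : 1 / 2 ≤ ‖LSeries L.b s‖ := by
    rw [hsr]
    exact hk1.le
  have hN : 1 ≤ ‖(L.N : ℂ) ^ (s / 2)‖ := by
    have hN1 := L.raw.hN
    rw [Complex.norm_cpow_eq_rpow_re_of_pos (by linarith)]
    refine Real.one_le_rpow hN1 ?_
    have e : (s / 2).re = s.re / 2 := by
      rw [show (2 : ℂ) = ((2 : ℝ) : ℂ) by norm_num, Complex.div_ofReal_re]
    rw [e, hsre]
    linarith
  have hP : 1 ≤ ‖(s * (s - 1)) ^ L.r‖ := by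
    rw [norm_pow]
    refine one_le_pow₀ ?_
    rw [norm_mul]
    have h1 : 1 ≤ ‖s‖ := by
      rw [hsr, Complex.norm_real, Real.norm_eq_abs, abs_of_nonneg (by linarith)]
      linarith
    have h2 : 1 ≤ ‖s - 1‖ := by
      have e : s - 1 = ((2 * ((k : ℝ) + 1) - 1 : ℝ) : ℂ) := by rw [hsr]; push_cast; rfl
      rw [e, Complex.norm_real, Real.norm_eq_abs, abs_of_nonneg (by linarith)]
      linarith
    nlinarith
  have hG : c' * g ≤ ‖∏ j, Gammaℝ (s + L.a j)‖ := by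
    rw [norm_prod]
    calc c' * g ≤ c' * g ^ L.m := by
          refine mul_le_mul_of_nonneg_left ?_ hc'0.le
          exact le_self_pow₀ hg1 (by omega)
      _ = ∏ j : Fin L.m, (c j * g) := by
          rw [Finset.prod_mul_distrib, Finset.prod_const, Finset.card_univ, Fintype.card_fin]
      _ ≤ _ := by
          refine Finset.prod_le_prod (fun j _ => mul_nonneg (hc0 j).le (by linarith)) fun j _ => ?_
          exact hc j k
  have hlow : c' * g * (1 / 2) ≤ ‖L.X s‖ := by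
    rw [hX, norm_mul, norm_mul, norm_mul]
    have h1 : c' * g ≤ ‖(L.N : ℂ) ^ (s / 2)‖ * ‖∏ j, Gammaℝ (s + L.a j)‖ :=
      hG.trans (le_mul_of_one_le_left (norm_nonneg _) hN)
    have h2 : c' * g ≤ ‖(s * (s - 1)) ^ L.r‖ * (‖(L.N : ℂ) ^ (s / 2)‖ * ‖∏ j, Gammaℝ (s + L.a j)‖) :=
      h1.trans (le_mul_of_one_le_left (by positivity) hP)
    exact mul_le_mul h2 hLs (by norm_num) (by positivity)
  have hup := h (s - 1 / 2)
  rw [add_sub_cancel] at hup
  have hn : ‖s - 1 / 2‖ ≤ 2 * (k + 1) := by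
    have e : s - 1 / 2 = ((2 * ((k : ℝ) + 1) - 1 / 2 : ℝ) : ℂ) := by rw [hsr]; push_cast; rfl
    rw [e, Complex.norm_real, Real.norm_eq_abs, abs_of_nonneg (by linarith)]
    linarith
  have hup2 : C * Real.exp (A * ‖s - 1 / 2‖) ≤ |C| * (Real.exp (2 * |A|) * Real.exp (2 * |A|) ^ k) := by
    rw [← Real.exp_nat_mul, ← Real.exp_add]
    refine mul_le_mul (le_abs_self C) (Real.exp_le_exp.2 ?_) (Real.exp_pos _).le (abs_nonneg C)
    have h5 : A * ‖s - 1 / 2‖ ≤ |A| * (2 * (k + 1)) :=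
      mul_le_mul (le_abs_self A) hn (norm_nonneg _) (abs_nonneg A)
    linarith
  have hfin := (hlow.trans hup).trans hup2
  -- contradiction
  have hk3' : 2 * (|C| * Real.exp (2 * |A|)) / c' * (q ^ k / (k ! : ℝ)) < 1 := hk3
  have e : 2 * (|C| * Real.exp (2 * |A|)) / c' * (q ^ k / (k ! : ℝ)) =
      2 * (|C| * (Real.exp (2 * |A|) * Real.exp (2 * |A|) ^ k)) / (c' * g) := by
    rw [hq, hg, mul_pow]
    field_simp
  rw [e, div_lt_one (by positivity)] at hk3'
  linarith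

/-- the symmetry of the zeros -/
theorem sym_of_fe (hfe : ∀ s, L.X (1 - s) = L.X s) : Sym (zd (L := L)) := by
  intro s hs
  refine ⟨?_, ?_⟩
  · show L.X (1 - s) = 0
    rw [hfe]
    exact hs
  · show H370.mult L.X (1 - s) = H370.mult L.X s
    unfold H370.mult analyticOrderNatAt
    have h1 : AnalyticAt ℂ (fun z : ℂ => 1 - z) s := by fun_prop
    have h2 : deriv (fun z : ℂ => 1 - z) s ≠ 0 := by
      have h3 : HasDerivAt (fun z : ℂ => 1 - z) (-1) s := by
        simpa using (hasDerivAt_id s).const_sub 1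
      rw [h3.deriv]
      norm_num
    have h3 := analyticOrderAt_comp_of_deriv_ne_zero (f := L.X) (g := fun z : ℂ => 1 - z) h1 h2
    have e : L.X ∘ (fun z : ℂ => 1 - z) = L.X := by
      funext z
      exact hfe z
    rw [e] at h3
    rw [h3]

end Pool.Agent.Y23.G.CA
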