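import Mathlib

/-!
Project CA: local parameters of an Euler factor given as a polynomial.
-/

set_option autoImplicit false

open Complex Polynomial

namespace Pool.Agent.Run7.h114.CA.KN

/-- products over `Fin M` from lists -/
lemma prod_getD (f : ℂ → ℂ) (h0 : f 0 = 1) : ∀ (M : ℕ) (l : List ℂ), l.length ≤ M →
    ∏ j : Fin M, f (l.getD j 0) = (l.map f).prod
  | 0, l, h => by
    have : l = [] := List.length_eq_zero_iff.1 (by omega)
    subst this
    simp
  | M + 1, [], _ => by
    rw [List.map_nil, List.prod_nil]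
    exact Finset.prod_eq_one fun j _ => by simp [h0]
  | M + 1, a :: l, h => by
    rw [Fin.prod_univ_succ, List.map_cons, List.prod_cons]
    have h1 := prod_getD f h0 M l (by simpa using h)
    rw [← h1]
    rfl

/-- a polynomial with `P(0) = 1` and roots of absolute value at least `1/B` -/
theorem exists_params {P : Polynomial ℂ} {M : ℕ} {B : ℝ} (hB : 0 ≤ B) (h0 : P.eval 0 = 1) (hM : P.natDegree ≤ M)
    (hr : ∀ z, P.eval z = 0 → ‖z⁻¹‖ ≤ B) :
    ∃ α : Fin M → ℂ, (∀ j, ‖α j‖ ≤ B) ∧ ∀ x, P.eval x = ∏ j, (1 - α j * x) := by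
  classical
  have hP0 : P ≠ 0 := by
    rintro rfl
    simp at h0
  obtain ⟨l, hl⟩ : ∃ l : List ℂ, l = (P.roots.map fun z => z⁻¹).toList := ⟨_, rfl⟩
  have hlen : l.length ≤ M := by
    rw [hl, Multiset.length_toList, Multiset.card_map]
    exact (Polynomial.card_roots' P).trans hM
  have hmem : ∀ x ∈ l, ‖x‖ ≤ B := by
    intro x hx
    rw [hl, Multiset.mem_toList, Multiset.mem_map] at hx
    obtain ⟨z, hz, rfl⟩ := hx
    exact hr z ((Polynomial.mem_roots hP0).1 hz)
  refine ⟨fun j => l.getD j 0, fun j => ?_, fun x => ?_⟩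
  · by_cases hj : (j : ℕ) < l.length
    · show ‖l.getD j 0‖ ≤ B
      rw [List.getD_eq_getElem _ _ hj]
      exact hmem _ (List.getElem_mem _)
    · show ‖l.getD j 0‖ ≤ B
      rw [List.getD_eq_default _ _ (not_lt.1 hj), norm_zero]
      exact hB
  · have h1 := prod_getD (fun α => 1 - α * x) (by simp) M l hlen
    rw [h1]
    have h2 : (l.map fun α => 1 - α * x).prod = (P.roots.map fun z => 1 - z⁻¹ * x).prod := by
      have e : ((l : Multiset ℂ)) = P.roots.map fun z => z⁻¹ := by rw [hl, Multiset.coe_toList]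
      rw [← Multiset.prod_coe, ← Multiset.map_coe, e, Multiset.map_map]
      rfl
    rw [h2]
    have hs := (IsAlgClosed.splits P)
    have h3 := hs.eval_eq_prod_roots x
    have h4 := hs.eval_eq_prod_roots 0
    rw [h0] at h4
    have h5 : (P.roots.map fun z => x - z).prod =
        (P.roots.map fun z => 0 - z).prod * (P.roots.map fun z => 1 - z⁻¹ * x).prod := by
      rw [← Multiset.prod_map_mul]
      congr 1
      refine Multiset.map_congr rfl fun z hz => ?_
      have hz0 : z ≠ 0 := by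
        rintro rfl
        have := (Polynomial.mem_roots hP0).1 hz
        rw [Polynomial.IsRoot.def, h0] at this
        exact one_ne_zero this
      field_simp
      ring
    rw [h3, h5, ← mul_assoc, ← h4, one_mul]

/-- the polynomial of a place -/
noncomputable def Pv (a δ : ℂ) (f : ℕ) : Polynomial ℂ := 1 - C a * X ^ f + C δ * X ^ (2 * f)

lemma Pv_eval (a δ : ℂ) (f : ℕ) (x : ℂ) : (Pv a δ f).eval x = 1 - a * x ^ f + δ * x ^ (2 * f) := by
  unfold Pv
  simp

lemma Pv_natDegree (a δ : ℂ) (f : ℕ) : (Pv a δ f).natDegree ≤ 2 * f := by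
  unfold Pv
  refine (Polynomial.natDegree_add_le _ _).trans (max_le ?_ ?_)
  · refine (Polynomial.natDegree_sub_le _ _).trans (max_le ?_ ?_)
    · simp
    · exact (Polynomial.natDegree_C_mul_X_pow_le a f).trans (by omega)
  · exact Polynomial.natDegree_C_mul_X_pow_le δ (2 * f)

lemma quad_le {a q δ : ℝ} (hq : 1 ≤ q) (ha : |a| ≤ q) (hδ : δ = 0 ∨ δ = q) {y : ℂ}
    (hy : y ^ 2 - a * y + δ = 0) : ‖y‖ ≤ q := by
  rcases hδ with rfl | rfl
  · have h1 : y * (y - a) = 0 := by
      rw [Complex.ofReal_zero, add_zero] at hy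
      linear_combination hy
    rcases mul_eq_zero.1 h1 with h | h
    · rw [h, norm_zero]; linarith
    · rw [sub_eq_zero.1 h, Complex.norm_real]
      exact ha
  · have hre := congrArg Complex.re hy
    have him := congrArg Complex.im hy
    simp only [Complex.add_re, Complex.sub_re, Complex.add_im, Complex.sub_im, pow_two, Complex.mul_re,
      Complex.mul_im, Complex.ofReal_re, Complex.ofReal_im, Complex.zero_re, Complex.zero_im, zero_mul,
      sub_zero, add_zero] at hre him
    have him' : y.im * (2 * y.re - a) = 0 := by linarith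
    have hn : ‖y‖ ^ 2 = y.re ^ 2 + y.im ^ 2 := by
      rw [← Complex.normSq_eq_norm_sq, Complex.normSq_apply]
      ring
    rcases mul_eq_zero.1 him' with h | h
    · rw [h] at hre hn
      have hre' : y.re ^ 2 - a * y.re + δ = 0 := by linarith
      have h3 : ‖y‖ = |y.re| := by
        rw [← Real.sqrt_sq (norm_nonneg y), hn, show y.re ^ 2 + 0 ^ 2 = y.re ^ 2 by ring, Real.sqrt_sq_eq_abs]
      rw [h3]
      by_contra hcon
      rw [not_le] at hcon
      have h4 : a * y.re ≤ δ * |y.re| := by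
        calc a * y.re ≤ |a * y.re| := le_abs_self _
          _ = |a| * |y.re| := abs_mul _ _
          _ ≤ δ * |y.re| := mul_le_mul_of_nonneg_right ha (abs_nonneg _)
      have h5 : y.re ^ 2 = |y.re| ^ 2 := (sq_abs _).symm
      nlinarith
    · have h2 : a = 2 * y.re := by linarith
      rw [h2] at hre
      have h3 : ‖y‖ ^ 2 = δ := by rw [hn]; nlinarith
      nlinarith [norm_nonneg y]

lemma Pv_root {a δ : ℝ} {f : ℕ} (hf : 0 < f) {p : ℝ} (hp : 1 ≤ p) (ha : |a| ≤ p ^ f) (hδ : δ = 0 ∨ δ = p ^ f)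
    {z : ℂ} (hz : (Pv a δ f).eval z = 0) : ‖z⁻¹‖ ≤ p := by
  rw [Pv_eval] at hz
  have hz0 : z ≠ 0 := by
    rintro rfl
    rw [zero_pow hf.ne', zero_pow (by omega), mul_zero, mul_zero, sub_zero, add_zero] at hz
    exact one_ne_zero hz
  have h1 : (z⁻¹ ^ f) ^ 2 - a * (z⁻¹ ^ f) + δ = 0 := by
    have e : (z⁻¹ ^ f) ^ 2 - a * (z⁻¹ ^ f) + δ = (z⁻¹ ^ f) ^ 2 * (1 - a * z ^ f + δ * z ^ (2 * f)) := by
      have h2 : z⁻¹ ^ f * z ^ f = 1 := by rw [← mul_pow, inv_mul_cancel₀ hz0, one_pow]
      rw [pow_mul' z 2 f]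
      linear_combination (a * z⁻¹ ^ f - (δ : ℂ) * (1 + z⁻¹ ^ f * z ^ f)) * h2
    rw [e, hz, mul_zero]
  have h2 := quad_le (one_le_pow₀ hp) ha hδ h1
  rw [norm_pow] at h2
  exact (pow_le_pow_iff_left₀ (norm_nonneg _) (by linarith) hf.ne').1 h2

end Pool.Agent.Run7.h114.CA.KN
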