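import Pool.Agent.Run7.h114.CA.EPL
import Pool.Agent.Run7.h114.CA.KP
import Pool.Agent.TH839.UH.KL

/-!
Project CA: completed L-functions of degree two over a number field as Euler products over `ℚ`.
-/

set_option autoImplicit false
set_option maxHeartbeats 1000000

open Complex Filter Topology NumberField IsDedekindDomain Set
open scoped ComplexConjugate

namespace Pool.Agent.Run7.h114.CA.KN

open Pool.Agent.H921R2.TatePole Pool.Agent.TH839.UH Pool.Agent.TH839.NA Pool.Agent.W355.UN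
open Pool.Agent.TH839.UH.NF (gv)
open H353.E (gaf)

variable {K : Type} [Field K] [NumberField K]

/-- the sum of the residue degrees above `p` -/
theorem deg_sum_le (p : Nat.Primes) :
    ∑ v : {v : HeightOneSpectrum (𝓞 K) // below v = p}, deg v.1 ≤ Module.finrank ℚ K := by
  classical
  have hdvd : (∏ v : {v : HeightOneSpectrum (𝓞 K) // below v = p}, v.1.asIdeal) ∣
      Ideal.span {(((p : ℕ) : 𝓞 K))} := by
    refine Finset.prod_dvd_of_isRelPrime ?_ ?_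
    · intro v _ u _ hvu
      rw [Function.onFun]
      have hne : v.1.asIdeal ≠ u.1.asIdeal := fun h => hvu (Subtype.ext (HeightOneSpectrum.ext h))
      have h1 : IsCoprime v.1.asIdeal u.1.asIdeal := by
        rw [Ideal.isCoprime_iff_sup_eq]
        exact (v.1.isPrime.isMaximal v.1.ne_bot).coprime_of_ne (u.1.isPrime.isMaximal u.1.ne_bot) hne
      exact h1.isRelPrime
    · intro v _
      rw [Ideal.dvd_iff_le, Ideal.span_singleton_le_iff_mem]
      have := (nm_eq v.1).2.2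
      rwa [v.2] at this
  have h2 : Ideal.absNorm (∏ v : {v : HeightOneSpectrum (𝓞 K) // below v = p}, v.1.asIdeal) ∣
      Ideal.absNorm (Ideal.span {(((p : ℕ) : 𝓞 K))}) := map_dvd Ideal.absNorm hdvd
  rw [Ideal.absNorm_span_natCast, map_prod, RingOfIntegers.rank] at h2
  have hp := p.prop
  have h3 := Nat.le_of_dvd (pow_pos hp.pos _) h2
  have h4 : ∏ v : {v : HeightOneSpectrum (𝓞 K) // below v = p}, Ideal.absNorm v.1.asIdeal =
      (p : ℕ) ^ ∑ v : {v : HeightOneSpectrum (𝓞 K) // below v = p}, deg v.1 := by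
    rw [← Finset.prod_pow_eq_pow_sum]
    refine Finset.prod_congr rfl fun v _ => ?_
    have := (nm_eq v.1).1
    rw [v.2] at this
    exact this
  rw [h4] at h3
  exact (Nat.pow_le_pow_iff_right hp.one_lt).mp h3

/-- the Euler polynomial at `p` -/
noncomputable def PP (a δ : HeightOneSpectrum (𝓞 K) → ℝ) (p : Nat.Primes) : Polynomial ℂ :=
  ∏ v : {v : HeightOneSpectrum (𝓞 K) // below v = p}, Pv (a v.1 : ℂ) (δ v.1 : ℂ) (deg v.1)

lemma PP_eval (a δ : HeightOneSpectrum (𝓞 K) → ℝ) (p : Nat.Primes) (x : ℂ) :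
    (PP a δ p).eval x = ∏ v : {v : HeightOneSpectrum (𝓞 K) // below v = p},
      (1 - (a v.1 : ℂ) * x ^ deg v.1 + (δ v.1 : ℂ) * x ^ (2 * deg v.1)) := by
  unfold PP
  rw [Polynomial.eval_prod]
  exact Finset.prod_congr rfl fun v _ => Pv_eval _ _ _ _

theorem exists_par {a δ : HeightOneSpectrum (𝓞 K) → ℝ} (ha : ∀ v, |a v| ≤ nm v)
    (hδ : ∀ v, δ v = 0 ∨ δ v = nm v) (p : Nat.Primes) :
    ∃ α : Fin (dg K + dg K) → ℂ, (∀ j, ‖α j‖ ≤ ((p : ℕ) : ℝ)) ∧ ∀ x, (PP a δ p).eval x = ∏ j, (1 - α j * x) := by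
  refine exists_params (Nat.cast_nonneg _) ?_ ?_ fun z hz => ?_
  · rw [PP_eval]
    refine Finset.prod_eq_one fun v _ => ?_
    have := (nm_eq v.1).2.1
    rw [zero_pow this.ne', zero_pow (by omega), mul_zero, mul_zero, sub_zero, add_zero]
  · unfold PP
    refine (Polynomial.natDegree_prod_le _ _).trans ?_
    calc ∑ v : {v : HeightOneSpectrum (𝓞 K) // below v = p}, (Pv (a v.1 : ℂ) (δ v.1 : ℂ) (deg v.1)).natDegree
        ≤ ∑ v : {v : HeightOneSpectrum (𝓞 K) // below v = p}, 2 * deg v.1 :=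
          Finset.sum_le_sum fun v _ => Pv_natDegree _ _ _
      _ = 2 * ∑ v : {v : HeightOneSpectrum (𝓞 K) // below v = p}, deg v.1 := by rw [Finset.mul_sum]
      _ ≤ dg K + dg K := by
          have := deg_sum_le (K := K) p
          show _ ≤ Module.finrank ℚ K + Module.finrank ℚ K
          omega
  · have h1 : (PP a δ p).eval z = ∏ v : {v : HeightOneSpectrum (𝓞 K) // below v = p},
        (Pv (a v.1 : ℂ) (δ v.1 : ℂ) (deg v.1)).eval z := by
      unfold PP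
      rw [Polynomial.eval_prod]
    rw [h1] at hz
    obtain ⟨v, _, hv⟩ := Finset.prod_eq_zero_iff.1 hz
    have hnm : ((nm v.1 : ℕ) : ℝ) = ((p : ℕ) : ℝ) ^ deg v.1 := by
      have := (nm_eq v.1).1
      rw [v.2] at this
      rw [this]
      push_cast
      rfl
    refine Pv_root (nm_eq v.1).2.1 (by exact_mod_cast p.2.one_le) ?_ ?_ hv
    · rw [← hnm]
      exact ha v.1
    · rw [← hnm]
      exact hδ v.1

/-- the Euler product over the places as an Euler product over the primes -/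
theorem prod_primes {a δ : HeightOneSpectrum (𝓞 K) → ℝ} (ha : ∀ v, |a v| ≤ nm v)
    (hδ : ∀ v, δ v = 0 ∨ δ v = nm v) {s : ℂ} (hs : 9 / 4 ≤ s.re) :
    EL (fun v => (a v : ℂ)) (fun v => (δ v : ℂ)) s =
      ∏' p : Nat.Primes, ((PP a δ p).eval (((p : ℕ) : ℂ) ^ (-s)))⁻¹ := by
  have ha' : ∀ v, ‖((a v : ℝ) : ℂ)‖ ≤ nm v := fun v => by
    rw [Complex.norm_real, Real.norm_eq_abs]
    exact ha v
  have hδ' : ∀ v, ‖((δ v : ℝ) : ℂ)‖ ≤ nm v := fun v => by
    rw [Complex.norm_real, Real.norm_eq_abs]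
    rcases hδ v with h | h
    · rw [h, abs_zero]
      exact Nat.cast_nonneg _
    · rw [h, abs_of_nonneg (Nat.cast_nonneg _)]
  have h0 := NF.prod_eq ha' hδ' hs
  have h1 : HasProd ((fun v : HeightOneSpectrum (𝓞 K) =>
      (1 + gv (fun v => (a v : ℂ)) (fun v => (δ v : ℂ)) v s)⁻¹) ∘ (Equiv.sigmaFiberEquiv (below (K := K))))
      (cexp (NF.LG (fun v => (a v : ℂ)) (fun v => (δ v : ℂ)) s)) :=
    (Equiv.sigmaFiberEquiv (below (K := K))).hasProd_iff.2 h0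
  have h2 := h1.sigma (g := fun p : Nat.Primes => ∏ v : {v : HeightOneSpectrum (𝓞 K) // below v = p},
      (1 + gv (fun v => (a v : ℂ)) (fun v => (δ v : ℂ)) v.1 s)⁻¹) (fun p => hasProd_fintype _)
  unfold EL
  rw [h0.tprod_eq, ← h2.tprod_eq]
  refine tprod_congr fun p => ?_
  rw [PP_eval, ← Finset.prod_inv_distrib]
  refine Finset.prod_congr rfl fun v _ => ?_
  congr 1
  have hnm : ((nm v.1 : ℕ) : ℂ) = ((p : ℕ) : ℂ) ^ deg v.1 := by
    have := (nm_eq v.1).1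
    rw [v.2] at this
    rw [this]
    push_cast
    rfl
  have hp : ∀ w : ℂ, ((p : ℕ) : ℂ) ^ ((deg v.1 : ℕ) * w) = (((p : ℕ) : ℂ) ^ deg v.1) ^ w := fun w =>
    Complex.natCast_cpow_natCast_mul _ _ _
  unfold gv
  have e1 : ((nm v.1 : ℕ) : ℂ) ^ (-s) = (((p : ℕ) : ℂ) ^ (-s)) ^ deg v.1 := by
    rw [hnm, ← hp, Complex.cpow_nat_mul]
  have e2 : ((nm v.1 : ℕ) : ℂ) ^ (-2 * s) = (((p : ℕ) : ℂ) ^ (-s)) ^ (2 * deg v.1) := by
    rw [hnm, ← hp, mul_comm 2 (deg v.1), pow_mul, ← Complex.cpow_nat_mul, ← Complex.cpow_nat_mul]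
    congr 1
    push_cast
    ring
  rw [e1, e2]
  ring

/-- **The class `RawT` for the L-functions of degree two over a number field.** -/
theorem rawT_of_KL {a δ : HeightOneSpectrum (𝓞 K) → ℝ} (hδ : ∀ v, δ v = 0 ∨ δ v = nm v) {A : ℝ} {Λ : ℂ → ℂ}
    (h : KL (fun v => (a v : ℂ)) (fun v => (δ v : ℂ)) A Λ) :
    ∃ (b c : ℕ → ℂ), RawT (1 / 2) (dg K + dg K) 0 A (fun j => -mu (dg K) j) b c (NX K A Λ) ∧
      ∀ s : ℂ, 7 / 4 < s.re → LSeries b s = EL (fun v => (a v : ℂ)) (fun v => (δ v : ℂ)) (s + 1 / 2) := by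
  have ha : ∀ v, |a v| ≤ nm v := fun v => by
    have := h.ha v
    rwa [Complex.norm_real, Real.norm_eq_abs] at this
  choose β hβ hβe using fun p => exists_par (K := K) ha hδ p
  have hp0 : ∀ p : Nat.Primes, (0 : ℝ) < ((p : ℕ) : ℝ) := fun p => by exact_mod_cast p.2.pos
  have hpe : ∀ (p : Nat.Primes) (s : ℂ), ((p : ℕ) : ℂ) ^ (-(s + 1 / 2)) =
      ((((p : ℕ) : ℝ) ^ (-(1 / 2 : ℝ)) : ℝ) : ℂ) * ((p : ℕ) : ℂ) ^ (-s) := by
    intro p s
    have hpc : ((p : ℕ) : ℂ) ≠ 0 := by exact_mod_cast p.2.ne_zero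
    rw [Complex.ofReal_cpow (hp0 p).le, show -(s + 1 / 2) = -(1 / 2) + -s by ring, Complex.cpow_add _ _ hpc]
    push_cast
    rfl
  have hprod : ∀ s : ℂ, 7 / 4 < s.re → EL (fun v => (a v : ℂ)) (fun v => (δ v : ℂ)) (s + 1 / 2) =
      ∏' p : Nat.Primes, ∏ j, (1 - (β p j * ((((p : ℕ) : ℝ) ^ (-(1 / 2 : ℝ)) : ℝ) : ℂ)) *
        ((p : ℕ) : ℂ) ^ (-s))⁻¹ := by
    intro s hs
    have hre : (s + 1 / 2).re = s.re + 1 / 2 := by simp
    rw [prod_primes ha hδ (by rw [hre]; linarith)]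
    refine tprod_congr fun p => ?_
    rw [hβe, ← Finset.prod_inv_distrib]
    refine Finset.prod_congr rfl fun j _ => ?_
    rw [hpe]
    congr 2
    ring
  have hα : ∀ (p : Nat.Primes) (j : Fin (dg K + dg K)),
      ‖β p j * ((((p : ℕ) : ℝ) ^ (-(1 / 2 : ℝ)) : ℝ) : ℂ)‖ ≤ ((p : ℕ) : ℝ) ^ (1 / 2 : ℝ) := by
    intro p j
    rw [norm_mul, Complex.norm_real, Real.norm_of_nonneg (Real.rpow_nonneg (hp0 p).le _)]
    calc ‖β p j‖ * ((p : ℕ) : ℝ) ^ (-(1 / 2 : ℝ)) ≤ ((p : ℕ) : ℝ) * ((p : ℕ) : ℝ) ^ (-(1 / 2 : ℝ)) :=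
          mul_le_mul_of_nonneg_right (hβ p j) (Real.rpow_nonneg (hp0 p).le _)
      _ = ((p : ℕ) : ℝ) ^ (1 : ℝ) * ((p : ℕ) : ℝ) ^ (-(1 / 2 : ℝ)) := by rw [Real.rpow_one]
      _ = ((p : ℕ) : ℝ) ^ (1 / 2 : ℝ) := by
          rw [← Real.rpow_add (hp0 p)]
          norm_num
  have hm : 1 ≤ dg K + dg K := by have := dg_pos (K := K); omega
  have hraw := EPL.rawT_of_euler (m := dg K + dg K) (r := 0) (N := A) (a := fun j => -mu (dg K) j)
    (α := fun p j => β p j * ((((p : ℕ) : ℝ) ^ (-(1 / 2 : ℝ)) : ℝ) : ℂ)) (X := NX K A Λ) hm (Nat.zero_le _)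
    h.one_le (fun j => by
      have := mu_re j
      rw [neg_re]
      linarith) hα (NX_diff h) (NX_order h) (NX_fe h) ⟨2, fun s hs => by
      rw [NX_eq h (by linarith), hprod s (by linarith)]
      unfold gaf
      rw [pow_zero, one_mul]
      simp only [sub_eq_add_neg]⟩
  refine ⟨_, _, hraw, fun s hs => ?_⟩
  rw [hprod s hs]
  have hβ' : ∀ j, ∀ p : ℕ, p.Prime → ‖EPL.pr (fun (p : Nat.Primes) j => β p j *
      ((((p : ℕ) : ℝ) ^ (-(1 / 2 : ℝ)) : ℝ) : ℂ)) j p‖ ≤ (p : ℝ) ^ (1 / 2 : ℝ) := by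
    intro j p hp
    unfold EPL.pr
    rw [dif_pos hp]
    exact hα ⟨p, hp⟩ j
  rw [(EPL.bb_series _ _ hβ' (by linarith)).2]
  have h1 : HasProd (fun p : Nat.Primes => ∏ j, (1 - EPL.pr (fun (p : Nat.Primes) j => β p j *
      ((((p : ℕ) : ℝ) ^ (-(1 / 2 : ℝ)) : ℝ) : ℂ)) j p * ((p : ℕ) : ℂ) ^ (-s))⁻¹)
      (∏ j, LSeries (EPL.cmf (EPL.pr (fun (p : Nat.Primes) j => β p j *
      ((((p : ℕ) : ℝ) ^ (-(1 / 2 : ℝ)) : ℝ) : ℂ)) j)) s) :=
    hasProd_prod fun j _ => EPL.cmf_prod (hβ' j) (by linarith)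
  rw [← h1.tprod_eq]
  refine tprod_congr fun p => Finset.prod_congr rfl fun j _ => ?_
  unfold EPL.pr
  rw [dif_pos p.2]
  rfl

end Pool.Agent.Run7.h114.CA.KN
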