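import Mathlib

/-!
Project CA, pieces P6a, P6b, P6c: Hadamard products of even entire functions of order at most `3/2` with simple
zeros on the imaginary axis, and the limit theorem for families of such functions.
(`had_base` and the splitting lemma are copied from the starting library.)
-/

set_option autoImplicit false

open Complex Filter Topology Set Metric

namespace Pool.Agent.Run7.h114.CA

/-- a function without zeros in a disc is an exponential there -/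
theorem had_base {F : ℂ → ℂ} (hF : Differentiable ℂ F) {ρ M : ℝ} (hρ : 0 < ρ)
    (hnz : ∀ u ∈ ball (0 : ℂ) ρ, F u ≠ 0) (hb : ∀ w ∈ ball (0 : ℂ) ρ, ‖F w‖ ≤ Real.exp M) :
    ∃ L : ℂ → ℂ, 0 ≤ M - Real.log ‖F 0‖ ∧ ∀ w : ℂ, ‖w‖ < ρ → F w = F 0 * cexp (L w) ∧
      ‖L w‖ ≤ 2 * (M - Real.log ‖F 0‖) * (‖w‖ / (ρ - ‖w‖)) := by
  have h0 : F 0 ≠ 0 := hnz 0 (mem_ball_self hρ)
  have h0n : 0 < ‖F 0‖ := norm_pos_iff.2 h0
  have hg : DifferentiableOn ℂ (fun z => deriv F z / F z) (ball 0 ρ) := by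
    refine DifferentiableOn.div ?_ hF.differentiableOn hnz
    exact (hF.contDiff (n := 2)).differentiable_deriv_two.differentiableOn
  obtain ⟨L0, hL0⟩ := hg.isExactOn_ball
  set L : ℂ → ℂ := fun z => L0 z - L0 0 with hLdef
  have hL : ∀ z ∈ ball (0 : ℂ) ρ, HasDerivAt L (deriv F z / F z) z := fun z hz =>
    (hL0 z hz).sub_const _
  have hLz : L 0 = 0 := by simp [hLdef]
  have hconst : ∀ z ∈ ball (0 : ℂ) ρ, F z * cexp (-L z) = F 0 := by
    intro z hz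
    have hd : ∀ x ∈ ball (0 : ℂ) ρ, HasDerivAt (fun y => F y * cexp (-L y)) 0 x := by
      intro x hx
      have h1 := (hF x).hasDerivAt.mul ((hL x hx).neg.cexp)
      have e : deriv F x * cexp (-L x) + F x * (cexp (-L x) * -(deriv F x / F x)) = 0 := by
        have hx' := hnz x hx
        field_simp
        ring
      have h1' : HasDerivAt (fun y => F y * cexp (-L y))
        (deriv F x * cexp (-L x) + F x * (cexp (-L x) * -(deriv F x / F x))) x := h1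
      rwa [e] at h1'
    have h2 := (convex_ball (0 : ℂ) ρ).is_const_of_fderivWithin_eq_zero (𝕜 := ℂ)
      (f := fun y => F y * cexp (-L y))
      (fun x hx => (hd x hx).differentiableAt.differentiableWithinAt) (by
        intro x hx
        rw [((hd x hx).hasFDerivAt.hasFDerivWithinAt (s := ball (0 : ℂ) ρ)).fderivWithin
          (isOpen_ball.uniqueDiffWithinAt hx)]
        ext
        simp) hz (mem_ball_self hρ)
    simpa [hLz] using h2
  have hFL : ∀ z ∈ ball (0 : ℂ) ρ, F z = F 0 * cexp (L z) := by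
    intro z hz
    rw [← hconst z hz, mul_assoc, ← Complex.exp_add]
    simp
  have hnorm : ∀ z ∈ ball (0 : ℂ) ρ, ‖F z‖ = Real.exp (Real.log ‖F 0‖ + (L z).re) := by
    intro z hz
    rw [hFL z hz, norm_mul, Complex.norm_exp, Real.exp_add, Real.exp_log h0n]
  set A : ℝ := M - Real.log ‖F 0‖ with hA
  have hre : ∀ z ∈ ball (0 : ℂ) ρ, (L z).re ≤ A := by
    intro z hz
    have h1 := hb z hz
    rw [hnorm z hz, Real.exp_le_exp] at h1
    linarith
  have hA0 : 0 ≤ A := by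
    have := hre 0 (mem_ball_self hρ)
    rwa [hLz] at this
  refine ⟨L, hA0, ?_⟩
  intro w hw
  have hwb : w ∈ ball (0 : ℂ) ρ := by simpa using hw
  have hden : 0 < ρ - ‖w‖ := by linarith
  refine ⟨hFL w hwb, ?_⟩
  set c : ℝ := ‖w‖ / (ρ - ‖w‖) with hc
  have hc0 : 0 ≤ c := div_nonneg (norm_nonneg _) hden.le
  refine le_of_forall_pos_le_add (fun δ hδ => ?_)
  have hε : 0 < δ / (2 * c + 1) := by positivity
  have h1 := Complex.borelCaratheodory_zero (f := L) (R := ρ) (z := w)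
    (M := A + δ / (2 * c + 1)) (by linarith)
    (fun z hz => (hL z hz).differentiableAt.differentiableWithinAt)
    (fun z hz => by
      show (L z).re ≤ _
      linarith [hre z hz]) hρ hwb hLz
  refine h1.trans ?_
  have h2 : 2 * (A + δ / (2 * c + 1)) * ‖w‖ / (ρ - ‖w‖) =
      2 * A * c + (δ / (2 * c + 1)) * (2 * c) := by
    rw [hc]; ring
  rw [h2]
  have h3 : (δ / (2 * c + 1)) * (2 * c) ≤ (δ / (2 * c + 1)) * (2 * c + 1) :=
    mul_le_mul_of_nonneg_left (by linarith) hε.le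
  have h4 : (δ / (2 * c + 1)) * (2 * c + 1) = δ := by
    field_simp
  linarith

/-- splitting off a zero -/
theorem splitz {F : ℂ → ℂ} (hF : Differentiable ℂ F) {ρ M : ℝ} (hρ : 0 < ρ)
    (h0 : F 0 ≠ 0) (hb : ∀ w ∈ closedBall (0 : ℂ) (2 * ρ), ‖F w‖ ≤ Real.exp M) {u : ℂ}
    (hu : u ∈ closedBall (0 : ℂ) ρ) (hFu : F u = 0) :
    ∃ G : ℂ → ℂ, Differentiable ℂ G ∧ G 0 = F 0 ∧
      (∀ w ∈ closedBall (0 : ℂ) (2 * ρ), ‖G w‖ ≤ Real.exp M) ∧ (∀ w, F w = (1 - w / u) * G w) := by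
  have hu0 : u ≠ 0 := by
    rintro rfl
    exact h0 hFu
  have hun : 0 < ‖u‖ := norm_pos_iff.2 hu0
  have huρ : ‖u‖ ≤ ρ := by simpa using hu
  have hds : Differentiable ℂ (dslope F u) := by
    rw [← differentiableOn_univ]
    exact (Complex.differentiableOn_dslope Filter.univ_mem).2 hF.differentiableOn
  have hds' : ∀ w, (w - u) * dslope F u w = F w := by
    intro w
    have := sub_smul_dslope F u w
    rw [hFu, sub_zero, smul_eq_mul] at this
    exact this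
  set G : ℂ → ℂ := fun z => -u * dslope F u z with hG
  have hGd : Differentiable ℂ G := hds.const_mul _
  have hFG : ∀ w, F w = (1 - w / u) * G w := by
    intro w
    rw [hG, ← hds' w]
    field_simp
    ring
  have hG0 : G 0 = F 0 := by
    have := hFG 0
    simpa using this.symm
  refine ⟨G, hGd, hG0, ?_, hFG⟩
  have hfr : ∀ z ∈ frontier (ball (0 : ℂ) (2 * ρ)), ‖G z‖ ≤ Real.exp M := by
    intro z hz
    rw [frontier_ball _ (by positivity)] at hz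
    have hz' : ‖z‖ = 2 * ρ := by simpa using hz
    have h1 : 1 ≤ ‖1 - z / u‖ := by
      have h2 : ‖z / u‖ - ‖(1 : ℂ)‖ ≤ ‖z / u - 1‖ := norm_sub_norm_le _ _
      rw [norm_sub_rev (z / u), norm_div, norm_one] at h2
      have h3 : 2 ≤ ‖z‖ / ‖u‖ := by
        rw [le_div_iff₀ hun, hz']
        linarith
      linarith
    have h4 : ‖F z‖ = ‖1 - z / u‖ * ‖G z‖ := by rw [hFG z, norm_mul]
    have h5 := hb z (by simp [hz'])
    have h6 : ‖G z‖ ≤ ‖1 - z / u‖ * ‖G z‖ := le_mul_of_one_le_left (norm_nonneg _) h1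
    linarith
  intro z hz
  refine Complex.norm_le_of_forall_mem_frontier_norm_le (U := ball (0 : ℂ) (2 * ρ))
    isBounded_ball ⟨hGd.differentiableOn, hGd.continuous.continuousOn⟩ hfr ?_
  rw [closure_ball _ (by positivity)]
  exact hz

/-- splitting off finitely many zeros -/
theorem splitS {f : ℂ → ℂ} (hf : Differentiable ℂ f) {ρ M : ℝ} (hρ : 0 < ρ)
    (h0 : f 0 ≠ 0) (hb : ∀ w ∈ closedBall (0 : ℂ) (2 * ρ), ‖f w‖ ≤ Real.exp M) (S : Finset ℂ) :
    (∀ u ∈ S, u ∈ closedBall (0 : ℂ) ρ ∧ f u = 0) →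
    ∃ G : ℂ → ℂ, Differentiable ℂ G ∧ G 0 = f 0 ∧
      (∀ w ∈ closedBall (0 : ℂ) (2 * ρ), ‖G w‖ ≤ Real.exp M) ∧ (∀ w, f w = (∏ u ∈ S, (1 - w / u)) * G w) := by
  classical
  induction S using Finset.induction_on with
  | empty => exact fun _ => ⟨f, hf, rfl, hb, fun w => by simp⟩
  | insert v S hv ih =>
    intro h
    obtain ⟨G, hG, hG0, hGb, hfG⟩ := ih fun u hu => h u (Finset.mem_insert_of_mem hu)
    obtain ⟨hvρ, hfv⟩ := h v (Finset.mem_insert_self _ _)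
    have hGv : G v = 0 := by
      have h1 := hfG v
      rw [hfv] at h1
      rcases mul_eq_zero.1 h1.symm with h2 | h2
      · exfalso
        obtain ⟨u, hu, hu2⟩ := Finset.prod_eq_zero_iff.1 h2
        have hu0 : u ≠ 0 := by
          rintro rfl
          exact h0 (h 0 (Finset.mem_insert_of_mem hu)).2
        have h3 : v / u = 1 := by linear_combination -hu2
        rw [div_eq_one_iff_eq hu0] at h3
        exact hv (h3 ▸ hu)
      · exact h2
    obtain ⟨G', hG', hG'0, hG'b, hGG'⟩ := splitz hG hρ (by rw [hG0]; exact h0) hGb hvρ hGv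
    refine ⟨G', hG', hG'0.trans hG0, hG'b, fun w => ?_⟩
    rw [Finset.prod_insert hv, hfG w, hGG' w]
    ring

/-- if all zeros in the disc are simple and split off, the quotient has no zeros in the disc -/
theorem splitS_ne {f G : ℂ → ℂ} (hG : Differentiable ℂ G) (h0 : f 0 ≠ 0) {ρ : ℝ}
    (hs : ∀ u, f u = 0 → deriv f u ≠ 0) (S : Finset ℂ)
    (hS : ∀ u ∈ closedBall (0 : ℂ) ρ, f u = 0 → u ∈ S)
    (hfG : ∀ w, f w = (∏ u ∈ S, (1 - w / u)) * G w) : ∀ u ∈ closedBall (0 : ℂ) ρ, G u ≠ 0 := by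
  classical
  intro v hv hGv
  have hfv : f v = 0 := by rw [hfG, hGv, mul_zero]
  have hvS := hS v hv hfv
  refine hs v hfv ?_
  set K : ℂ → ℂ := fun w => (∏ u ∈ S.erase v, (1 - w / u)) * G w with hK
  have hKd : Differentiable ℂ K := by
    refine Differentiable.mul ?_ hG
    fun_prop
  have hKv : K v = 0 := by simp [hK, hGv]
  have hfK : f = fun w => (1 - w / v) * K w := by
    funext w
    rw [hfG w, ← Finset.mul_prod_erase S _ hvS, hK]
    ring
  have hd : HasDerivAt (fun w => (1 - w / v) * K w) ((0 - 1 / v) * K v + (1 - v / v) * deriv K v) v :=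
    ((hasDerivAt_const v (1 : ℂ)).sub ((hasDerivAt_id v).div_const v)).mul (hKd v).hasDerivAt
  rw [hfK, hd.deriv, hKv, mul_zero, zero_add]
  have hv0 : v ≠ 0 := by
    rintro rfl
    exact h0 hfv
  rw [div_self hv0, sub_self, zero_mul]

/-- an even entire function is an entire function of the square -/
theorem exists_sq {E : ℂ → ℂ} (hE : Differentiable ℂ E) (hev : ∀ w, E (-w) = E w) :
    ∃ f : ℂ → ℂ, Differentiable ℂ f ∧ ∀ w, E w = f (w ^ 2) := by
  set r : ℂ → ℂ := fun u => u ^ (((2 : ℕ) : ℂ)⁻¹) with hr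
  have hr2 : ∀ u, r u ^ 2 = u := fun u => Complex.cpow_nat_inv_pow u two_ne_zero
  have hEE : ∀ s t : ℂ, s ^ 2 = t ^ 2 → E s = E t := by
    intro s t h
    rcases sq_eq_sq_iff_eq_or_eq_neg.1 h with h | h
    · rw [h]
    · rw [h, hev]
  refine ⟨fun u => E (r u), ?_, fun w => hEE _ _ (by rw [hr2])⟩
  have hne : ∀ u0 : ℂ, u0 ≠ 0 → DifferentiableAt ℂ (fun u => E (r u)) u0 := by
    intro u0 hu0
    have h1 : (fun u => E (r u)) = fun u => E (r u0 * r (u / u0)) := by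
      funext u
      refine hEE _ _ ?_
      rw [mul_pow, hr2, hr2, hr2, mul_div_cancel₀ _ hu0]
    rw [h1]
    have h2 : DifferentiableAt ℂ (fun u => r (u / u0)) u0 := by
      refine DifferentiableAt.cpow (differentiableAt_id.div_const u0) (differentiableAt_const _) ?_
      simp [hu0]
    exact (hE _).comp u0 (h2.const_mul (r u0))
  have hcont : ContinuousAt (fun u => E (r u)) 0 := by
    have h3 : Tendsto r (𝓝 0) (𝓝 0) := by
      rw [tendsto_zero_iff_norm_tendsto_zero]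
      have h4 : (fun u => ‖r u‖) = fun u : ℂ => Real.sqrt ‖u‖ := by
        funext u
        rw [← Real.sqrt_sq (norm_nonneg (r u)), ← norm_pow, hr2]
      rw [h4]
      have h5 : Continuous fun u : ℂ => Real.sqrt ‖u‖ := by fun_prop
      have := h5.tendsto 0
      simpa using this
    have h6 : r 0 = 0 := by
      have := hr2 0
      simpa using this
    show Tendsto (fun u => E (r u)) (𝓝 0) (𝓝 (E (r 0)))
    rw [h6]
    exact (hE.continuous.tendsto 0).comp h3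
  intro u
  by_cases hu : u = 0
  · subst hu
    exact (Complex.analyticAt_of_differentiable_on_punctured_nhds_of_continuousAt
      (by
        filter_upwards [self_mem_nhdsWithin] with z hz
        exact hne z hz) hcont).differentiableAt
  · exact hne u hu

/-- an entire function which is not identically zero has finitely many zeros in a disc -/
theorem finite_zeros {E : ℂ → ℂ} (hE : Differentiable ℂ E) {c : ℂ} (hc : E c ≠ 0) (R : ℝ) :
    {z | E z = 0 ∧ ‖z‖ ≤ R}.Finite := by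
  by_contra hinf
  have hinf' : {z | E z = 0 ∧ ‖z‖ ≤ R}.Infinite := hinf
  obtain ⟨x, hx, hacc⟩ := hinf'.exists_accPt_of_subset_isCompact (isCompact_closedBall (0 : ℂ) R)
    (fun z hz => by simpa using hz.2)
  rw [accPt_iff_frequently] at hacc
  have hfr : ∃ᶠ z in 𝓝[≠] x, E z = 0 := by
    rw [frequently_nhdsWithin_iff]
    exact hacc.mono fun z hz => ⟨hz.2.1, hz.1⟩
  have hEa : AnalyticOnNhd ℂ E univ := fun z _ => hE.analyticAt z
  exact hc (hEa.eqOn_zero_of_preconnected_of_frequently_eq_zero isPreconnected_univ (mem_univ x) hfr (mem_univ c))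

/-- the product over a finite set of zeros -/
noncomputable def Pr (S : Finset ℂ) (w : ℂ) : ℂ := ∏ z ∈ S, (1 - w ^ 2 / z ^ 2)

theorem Pr_sub_one {S : Finset ℂ} {e : ℝ} (hS : ∑ z ∈ S, 1 / ‖z‖ ^ 2 ≤ e) (w : ℂ) :
    ‖Pr S w - 1‖ ≤ Real.exp (e * ‖w‖ ^ 2) - 1 := by
  have h1 := Finset.norm_prod_one_add_sub_one_le S (fun z => -(w ^ 2 / z ^ 2))
  have h2 : ∏ z ∈ S, (1 + -(w ^ 2 / z ^ 2)) = Pr S w := by
    unfold Pr
    exact Finset.prod_congr rfl fun z _ => by ring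
  rw [h2] at h1
  refine h1.trans ?_
  have h3 : ∑ z ∈ S, ‖-(w ^ 2 / z ^ 2)‖ ≤ e * ‖w‖ ^ 2 := by
    have h4 : ∑ z ∈ S, ‖-(w ^ 2 / z ^ 2)‖ = (∑ z ∈ S, 1 / ‖z‖ ^ 2) * ‖w‖ ^ 2 := by
      rw [Finset.sum_mul]
      refine Finset.sum_congr rfl fun z _ => ?_
      rw [norm_neg, norm_div, norm_pow, norm_pow]
      ring
    rw [h4]
    exact mul_le_mul_of_nonneg_right hS (sq_nonneg _)
  linarith [Real.exp_le_exp.2 h3]

theorem norm_Pr_le {S : Finset ℂ} {e : ℝ} (hS : ∑ z ∈ S, 1 / ‖z‖ ^ 2 ≤ e) (w : ℂ) :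
    ‖Pr S w‖ ≤ Real.exp (e * ‖w‖ ^ 2) := by
  have h1 := Pr_sub_one hS w
  have h2 : ‖Pr S w‖ ≤ ‖Pr S w - 1‖ + ‖(1 : ℂ)‖ := by
    have := norm_add_le (Pr S w - 1) 1
    rwa [sub_add_cancel] at this
  rw [norm_one] at h2
  linarith

/-- the factorisation at one radius `t ^ 4` (for the squares of the zeros) -/
theorem LE_step {E : ℂ → ℂ} {A : ℝ} (hE : Differentiable ℂ E) (hev : ∀ w, E (-w) = E w)
    (h0 : E 0 ≠ 0) (hb : ∀ w, ‖E w‖ ≤ Real.exp (A * (1 + ‖w‖) ^ (3 / 2 : ℝ)))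
    (hs : ∀ w, E w = 0 → w.re = 0 ∧ deriv E w ≠ 0) (w : ℂ) {t : ℝ} (ht : 1 ≤ t)
    (htw : 2 * ‖w‖ ^ 2 ≤ t ^ 4) : ∃ (N : Finset ℂ) (l : ℂ),
      (∀ z, z ∈ N ↔ E z = 0 ∧ 0 < z.im ∧ ‖z‖ ≤ t ^ 2) ∧ E w = E 0 * Pr N w * cexp l ∧
      ‖l‖ ≤ (4 * ‖w‖ ^ 2 * (8 * |A| + |Real.log ‖E 0‖|)) / t := by
  classical
  obtain ⟨f, hf, hEf⟩ := exists_sq hE hev
  have hf0 : f 0 = E 0 := by rw [hEf 0]; simp
  have ht0 : 0 < t := by linarith
  have hfin : {z | E z = 0 ∧ 0 < z.im ∧ ‖z‖ ≤ t ^ 2}.Finite :=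
    (finite_zeros hE h0 (t ^ 2)).subset fun z hz => ⟨hz.1, hz.2.2⟩
  set N := hfin.toFinset with hN
  have hNm : ∀ z, z ∈ N ↔ E z = 0 ∧ 0 < z.im ∧ ‖z‖ ≤ t ^ 2 := fun z => by simp [hN]
  -- bound of `f`
  have hfb : ∀ u ∈ closedBall (0 : ℂ) (2 * t ^ 4), ‖f u‖ ≤ Real.exp (8 * |A| * t ^ 3) := by
    intro u hu
    have hu' : ‖u‖ ≤ 2 * t ^ 4 := by simpa using hu
    obtain ⟨s, hs2⟩ : ∃ s : ℂ, s ^ 2 = u := ⟨u ^ (((2 : ℕ) : ℂ)⁻¹), Complex.cpow_nat_inv_pow u two_ne_zero⟩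
    rw [← hs2, ← hEf]
    refine (hb s).trans (Real.exp_le_exp.2 ?_)
    have h1 : ‖s‖ ^ 2 ≤ (2 * t ^ 2) ^ 2 := by
      rw [← norm_pow, hs2]
      nlinarith [pow_pos ht0 4]
    have h2 : ‖s‖ ≤ 2 * t ^ 2 := le_of_sq_le_sq h1 (by positivity)
    have h3 : (1 + ‖s‖) ≤ (2 * t) ^ 2 := by nlinarith
    have h4 : (1 + ‖s‖) ^ (3 / 2 : ℝ) ≤ 8 * t ^ 3 := by
      calc (1 + ‖s‖) ^ (3 / 2 : ℝ) ≤ ((2 * t) ^ 2) ^ (3 / 2 : ℝ) :=
            Real.rpow_le_rpow (by positivity) h3 (by norm_num)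
        _ = (2 * t) ^ 3 := by
            rw [← Real.rpow_natCast, ← Real.rpow_mul (by positivity), ← Real.rpow_natCast]
            norm_num
        _ = 8 * t ^ 3 := by ring
    calc A * (1 + ‖s‖) ^ (3 / 2 : ℝ) ≤ |A| * (1 + ‖s‖) ^ (3 / 2 : ℝ) :=
          mul_le_mul_of_nonneg_right (le_abs_self A) (by positivity)
      _ ≤ |A| * (8 * t ^ 3) := mul_le_mul_of_nonneg_left h4 (abs_nonneg A)
      _ = _ := by ring
  have hρ : 0 < t ^ 4 := by positivity
  -- the zeros of `f`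
  have hfz : ∀ u ∈ closedBall (0 : ℂ) (t ^ 4), f u = 0 → u ∈ N.image (fun z => z ^ 2) := by
    intro u hu hfu
    have hu' : ‖u‖ ≤ t ^ 4 := by simpa using hu
    obtain ⟨s, hs2⟩ : ∃ s : ℂ, s ^ 2 = u := ⟨u ^ (((2 : ℕ) : ℂ)⁻¹), Complex.cpow_nat_inv_pow u two_ne_zero⟩
    have hEs : E s = 0 := by rw [hEf, hs2, hfu]
    have hsn : ‖s‖ ≤ t ^ 2 := by
      have h1 : ‖s‖ ^ 2 ≤ (t ^ 2) ^ 2 := by
        rw [← norm_pow, hs2]
        calc ‖u‖ ≤ t ^ 4 := hu'
          _ = _ := by ring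
      exact le_of_sq_le_sq h1 (by positivity)
    have hsre := (hs s hEs).1
    have hsim : s.im ≠ 0 := by
      intro h
      have : s = 0 := Complex.ext hsre h
      rw [this] at hEs
      exact h0 hEs
    rw [Finset.mem_image]
    rcases lt_or_gt_of_ne hsim with h | h
    · refine ⟨-s, (hNm _).2 ⟨by rw [hev, hEs], by simpa using h, by simpa using hsn⟩, by rw [neg_sq, hs2]⟩
    · exact ⟨s, (hNm _).2 ⟨hEs, h, hsn⟩, hs2⟩
  have hfz' : ∀ u ∈ N.image (fun z => z ^ 2), u ∈ closedBall (0 : ℂ) (t ^ 4) ∧ f u = 0 := by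
    intro u hu
    rw [Finset.mem_image] at hu
    obtain ⟨z, hz, rfl⟩ := hu
    obtain ⟨hz1, hz2, hz3⟩ := (hNm z).1 hz
    refine ⟨?_, by rw [← hEf, hz1]⟩
    rw [mem_closedBall_zero_iff, norm_pow]
    calc ‖z‖ ^ 2 ≤ (t ^ 2) ^ 2 := pow_le_pow_left₀ (norm_nonneg _) hz3 2
      _ = t ^ 4 := by ring
  obtain ⟨G, hG, hG0, hGb, hfG⟩ := splitS hf hρ (by rw [hf0]; exact h0) hfb _ hfz'
  have hsf : ∀ u, f u = 0 → deriv f u ≠ 0 := by
    intro u hfu hd
    obtain ⟨s, hs2⟩ : ∃ s : ℂ, s ^ 2 = u := ⟨u ^ (((2 : ℕ) : ℂ)⁻¹), Complex.cpow_nat_inv_pow u two_ne_zero⟩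
    have hEs : E s = 0 := by rw [hEf, hs2, hfu]
    refine (hs s hEs).2 ?_
    have h1 : E = fun w => f (w ^ 2) := funext hEf
    have h2 : HasDerivAt (fun w : ℂ => f (w ^ 2)) (deriv f (s ^ 2) * (2 * s)) s := by
      have h3 : HasDerivAt (fun w : ℂ => w ^ 2) (2 * s) s := by
        simpa using hasDerivAt_pow 2 s
      exact (hf (s ^ 2)).hasDerivAt.comp s h3
    rw [h1, h2.deriv, hs2, hd, zero_mul]
  have hGne := splitS_ne hG (by rw [hf0]; exact h0) hsf _ hfz hfG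
  obtain ⟨L, hL0, hL⟩ := had_base hG hρ (fun u hu => hGne u (ball_subset_closedBall hu))
    (fun w hw => hGb w (by
      rw [mem_closedBall_zero_iff]
      rw [mem_ball_zero_iff] at hw
      linarith))
  have hwρ : ‖w ^ 2‖ < t ^ 4 := by
    rw [norm_pow]
    rcases eq_or_ne (‖w‖ ^ 2) 0 with h | h
    · rw [h]; exact hρ
    · have : 0 < ‖w‖ ^ 2 := lt_of_le_of_ne (sq_nonneg _) (Ne.symm h)
      linarith
  obtain ⟨hL1, hL2⟩ := hL (w ^ 2) hwρ
  refine ⟨N, L (w ^ 2), hNm, ?_, ?_⟩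
  · rw [hEf w, hfG, hL1, hG0, hf0]
    have hprod : ∏ u ∈ N.image (fun z => z ^ 2), (1 - w ^ 2 / u) = Pr N w := by
      unfold Pr
      rw [Finset.prod_image]
      intro z hz z' hz' hzz
      obtain ⟨_, hz2, _⟩ := (hNm z).1 hz
      obtain ⟨_, hz2', _⟩ := (hNm z').1 hz'
      rcases sq_eq_sq_iff_eq_or_eq_neg.1 hzz with h | h
      · exact h
      · exfalso
        rw [h] at hz2
        simp at hz2
        linarith
    rw [hprod]
    ring
  · refine hL2.trans ?_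
    rw [hG0, hf0, norm_pow]
    have h1 : 8 * |A| * t ^ 3 - Real.log ‖E 0‖ ≤ (8 * |A| + |Real.log ‖E 0‖|) * t ^ 3 := by
      have h2 : -Real.log ‖E 0‖ ≤ |Real.log ‖E 0‖| := neg_le_abs _
      have h3 : (1 : ℝ) ≤ t ^ 3 := one_le_pow₀ ht
      nlinarith [abs_nonneg (Real.log ‖E 0‖)]
    have h4 : ‖w‖ ^ 2 / (t ^ 4 - ‖w‖ ^ 2) ≤ 2 * ‖w‖ ^ 2 / t ^ 4 := by
      rw [div_le_div_iff₀ (by rw [norm_pow] at hwρ; linarith) hρ]
      nlinarith [sq_nonneg ‖w‖]
    have h5 : 0 ≤ ‖w‖ ^ 2 / (t ^ 4 - ‖w‖ ^ 2) :=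
      div_nonneg (sq_nonneg _) (by rw [norm_pow] at hwρ; linarith)
    have h6 : 0 ≤ (8 * |A| + |Real.log ‖E 0‖|) * t ^ 3 := by positivity
    calc 2 * (8 * |A| * t ^ 3 - Real.log ‖E 0‖) * (‖w‖ ^ 2 / (t ^ 4 - ‖w‖ ^ 2))
        ≤ 2 * ((8 * |A| + |Real.log ‖E 0‖|) * t ^ 3) * (2 * ‖w‖ ^ 2 / t ^ 4) := by
          refine mul_le_mul ?_ h4 h5 (by positivity)
          linarith
      _ = _ := by
          field_simp
          ring

/-- P6a -/
theorem LE {E : ℂ → ℂ} {A : ℝ} (hE : Differentiable ℂ E) (hev : ∀ w, E (-w) = E w)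
    (h0 : E 0 ≠ 0) (hb : ∀ w, ‖E w‖ ≤ Real.exp (A * (1 + ‖w‖) ^ (3 / 2 : ℝ)))
    (hs : ∀ w, E w = 0 → w.re = 0 ∧ deriv E w ≠ 0) {T ε : ℝ} (Z : Finset ℂ)
    (hZ : ∀ z, z ∈ Z ↔ E z = 0 ∧ 0 < z.im ∧ ‖z‖ ≤ T)
    (hε : ∀ S : Finset ℂ, (∀ z ∈ S, E z = 0 ∧ 0 < z.im ∧ T < ‖z‖) → ∑ z ∈ S, 1 / ‖z‖ ^ 2 ≤ ε) (w : ℂ) :
    ∃ h : ℂ, E w / E 0 = (∏ z ∈ Z, (1 - w ^ 2 / z ^ 2)) * h ∧ ‖h - 1‖ ≤ Real.exp (ε * ‖w‖ ^ 2) - 1 := by
  classical
  have hε0 : 0 ≤ ε := by
    have := hε ∅ (by simp)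
    simpa using this
  have hB0 : 0 ≤ Real.exp (ε * ‖w‖ ^ 2) - 1 := by
    have : (1 : ℝ) ≤ Real.exp (ε * ‖w‖ ^ 2) := Real.one_le_exp (by positivity)
    linarith
  change ∃ h : ℂ, E w / E 0 = Pr Z w * h ∧ _
  by_cases hQ : Pr Z w = 0
  · refine ⟨1, ?_, by simpa using hB0⟩
    rw [hQ, zero_mul]
    obtain ⟨z, hz, hz2⟩ := Finset.prod_eq_zero_iff.1 hQ
    have hz3 := ((hZ z).1 hz).1
    have hz0 : z ≠ 0 := by
      rintro rfl
      exact h0 hz3
    have h1 : w ^ 2 / z ^ 2 = 1 := by linear_combination -hz2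
    rw [div_eq_one_iff_eq (pow_ne_zero 2 hz0)] at h1
    have h2 : E w = 0 := by
      rcases sq_eq_sq_iff_eq_or_eq_neg.1 h1 with h | h
      · rw [h, hz3]
      · rw [h, hev, hz3]
    rw [h2, zero_div]
  · refine ⟨E w / E 0 / Pr Z w, by field_simp, ?_⟩
    set h := E w / E 0 / Pr Z w with hh
    set κ := 4 * ‖w‖ ^ 2 * (8 * |A| + |Real.log ‖E 0‖|) with hκ
    have key : ∀ t : ℝ, max (max 1 T) (2 * ‖w‖ ^ 2) ≤ t → ∃ l : ℂ, ‖l‖ ≤ κ / t ∧
        ‖h * cexp (-l) - 1‖ ≤ Real.exp (ε * ‖w‖ ^ 2) - 1 := by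
      intro t ht
      have ht1 : 1 ≤ t := (le_max_left _ _).trans ((le_max_left _ _).trans ht)
      have htT : T ≤ t := (le_max_right _ _).trans ((le_max_left _ _).trans ht)
      have htw : 2 * ‖w‖ ^ 2 ≤ t := (le_max_right _ _).trans ht
      obtain ⟨N, l, hN, hEN, hl⟩ := LE_step hE hev h0 hb hs w ht1
        (htw.trans (le_self_pow₀ ht1 (by norm_num)))
      refine ⟨l, hl, ?_⟩
      have hsub : Z ⊆ N := by
        intro z hz
        obtain ⟨h1, h2, h3⟩ := (hZ z).1 hz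
        exact (hN z).2 ⟨h1, h2, (h3.trans htT).trans (le_self_pow₀ ht1 (by norm_num))⟩
      have hprod : Pr N w = Pr (N \ Z) w * Pr Z w := (Finset.prod_sdiff hsub).symm
      have h1 : h * cexp (-l) = Pr (N \ Z) w := by
        rw [hh, hEN, hprod, Complex.exp_neg]
        have := Complex.exp_ne_zero l
        field_simp
      rw [h1]
      refine Pr_sub_one (hε _ ?_) w
      intro z hz
      rw [Finset.mem_sdiff] at hz
      obtain ⟨h2, h3, h4⟩ := (hN z).1 hz.1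
      refine ⟨h2, h3, ?_⟩
      by_contra h5
      exact hz.2 ((hZ z).2 ⟨h2, h3, not_lt.1 h5⟩)
    choose! l hl1 hl2 using key
    have hlim : Tendsto l atTop (𝓝 0) := by
      rw [tendsto_zero_iff_norm_tendsto_zero]
      refine squeeze_zero' (Eventually.of_forall fun t => norm_nonneg _) ?_
        (tendsto_const_nhds.div_atTop tendsto_id : Tendsto (fun t : ℝ => κ / t) atTop (𝓝 0))
      filter_upwards [eventually_ge_atTop (max (max 1 T) (2 * ‖w‖ ^ 2))] with t ht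
      exact hl1 t ht
    have hlim2 : Tendsto (fun t => ‖h * cexp (-(l t)) - 1‖) atTop (𝓝 ‖h - 1‖) := by
      have h1 : Continuous fun x : ℂ => ‖h * cexp (-x) - 1‖ := by fun_prop
      have h2 := (h1.tendsto 0).comp hlim
      simpa [Function.comp_def] using h2
    refine le_of_tendsto hlim2 ?_
    filter_upwards [eventually_ge_atTop (max (max 1 T) (2 * ‖w‖ ^ 2))] with t ht
    exact hl2 t ht

end Pool.Agent.Run7.h114.CA
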