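import Mathlib

set_option autoImplicit false

open Complex Filter Topology Set Metric

namespace Pool.Agent.Run7.h114.CA

theorem prod_close (S : Finset ℂ) (hS : ∀ p ∈ S, p ≠ 0) (R : ℝ) {η : ℝ} (hη : 0 < η) :
    ∃ δ > 0, ∀ ζ : ℂ → ℂ, (∀ p ∈ S, ‖ζ p - p‖ < δ) → ∀ w : ℂ, ‖w‖ ≤ R →
      ‖∏ p ∈ S, (1 - w ^ 2 / (ζ p) ^ 2) - ∏ p ∈ S, (1 - w ^ 2 / p ^ 2)‖ ≤ η := by
  classical
  have h1 : ∀ᶠ x : S → ℂ in 𝓝 (fun p : S => (p : ℂ)), ∀ w ∈ closedBall (0 : ℂ) R,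
      ‖∏ p : S, (1 - w ^ 2 / (x p) ^ 2) - ∏ p : S, (1 - w ^ 2 / (p : ℂ) ^ 2)‖ < η := by
    refine (isCompact_closedBall (0 : ℂ) R).eventually_forall_of_forall_eventually ?_
    intro w hw
    have hc : ContinuousAt (fun z : (S → ℂ) × ℂ => ‖∏ p : S, (1 - z.2 ^ 2 / (z.1 p) ^ 2) -
        ∏ p : S, (1 - z.2 ^ 2 / (p : ℂ) ^ 2)‖) ((fun p : S => (p : ℂ)), w) := by
      refine ContinuousAt.norm (ContinuousAt.sub ?_ ?_)
      · refine tendsto_finsetProd _ fun p _ => ?_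
        refine ContinuousAt.sub continuousAt_const (ContinuousAt.div ?_ ?_ ?_)
        · exact (continuousAt_snd.pow 2)
        · exact (((continuous_apply p).comp continuous_fst).continuousAt.pow 2)
        · exact pow_ne_zero 2 (hS p p.2)
      · refine tendsto_finsetProd _ fun p _ => ?_
        exact ContinuousAt.sub continuousAt_const ((continuousAt_snd.pow 2).div_const _)
    exact hc.eventually_lt continuousAt_const (by simpa using hη)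
  rw [Metric.eventually_nhds_iff] at h1
  obtain ⟨δ, hδ, h1⟩ := h1
  refine ⟨δ, hδ, fun ζ hζ w hw => ?_⟩
  have h2 := h1 (y := fun p : S => ζ p) (by
    rw [dist_pi_lt_iff hδ]
    intro p
    rw [dist_eq_norm]
    exact hζ p p.2) w (by simpa using hw)
  rw [Finset.prod_coe_sort S (fun p => 1 - w ^ 2 / (ζ p) ^ 2),
    Finset.prod_coe_sort S (fun p => 1 - w ^ 2 / p ^ 2)] at h2
  exact h2.le

/-- a slightly larger good radius -/
theorem good_T {P : Set ℂ} (hfin : ∀ T : ℝ, {p | p ∈ P ∧ ‖p‖ ≤ T}.Finite) (T : ℝ) :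
    ∃ T', T < T' ∧ T' ≤ T + 1 ∧ ∀ p ∈ P, (‖p‖ ≤ T' ↔ ‖p‖ ≤ T) ∧ (‖p‖ ≤ T' ↔ ‖p‖ < T') := by
  have h1 : ∀ᶠ T' in 𝓝[>] T, ∀ p ∈ (hfin (T + 1)).toFinset, T < ‖p‖ → T' < ‖p‖ := by
    rw [Filter.eventually_all_finset]
    intro p _
    by_cases h : T < ‖p‖
    · filter_upwards [mem_nhdsWithin_of_mem_nhds (Iio_mem_nhds h)] with T' hT' _
      exact hT'
    · exact Eventually.of_forall fun T' h' => absurd h' h
  have h2 : ∀ᶠ T' in 𝓝[>] T, T' < T + 1 :=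
    mem_nhdsWithin_of_mem_nhds (Iio_mem_nhds (by linarith))
  obtain ⟨T', hT'1, hT'2, hT'3⟩ := (h1.and (h2.and self_mem_nhdsWithin)).exists
  have hT'3' : T < T' := hT'3
  have key : ∀ p ∈ P, ‖p‖ ≤ T' → ‖p‖ ≤ T := by
    intro p hp hpT
    by_contra h
    have := hT'1 p (by simp only [Finite.mem_toFinset, mem_ofPred_eq]; exact ⟨hp, by linarith⟩) (not_le.1 h)
    linarith
  refine ⟨T', hT'3', hT'2.le, fun p hp => ⟨⟨key p hp, fun h => by linarith⟩, ⟨fun h => ?_, le_of_lt⟩⟩⟩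
  have := key p hp h
  linarith

end Pool.Agent.Run7.h114.CA
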