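import Mathlib

/-!
Project CA, piece P7: a locally uniform limit of entire functions with all zeros on the line
`re = 1/2`, which is nonzero at `1/2`, has all its zeros on that line.
-/

set_option autoImplicit false

open Complex Filter Topology Set Metric

namespace Pool.Agent.Y23.G.CA

/-- The local form of Hurwitz's theorem: a locally uniform limit of entire functions without zeros in a
ball around `s` is nonzero at `s`, unless it vanishes identically. -/
theorem hurwitz_point {ι : Type*} {l : Filter ι} [l.NeBot] {F : ι → ℂ → ℂ} {G : ℂ → ℂ} {s : ℂ} {r : ℝ}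
    (hr : 0 < r) (hF : ∀ᶠ a in l, Differentiable ℂ (F a)) (hz : ∀ᶠ a in l, ∀ w ∈ ball s r, F a w ≠ 0)
    (hlim : TendstoLocallyUniformly F G l) {c : ℂ} (hc : G c ≠ 0) : G s ≠ 0 := by
  intro hs
  have hGd : Differentiable ℂ G := by
    rw [← differentiableOn_univ]
    exact (tendstoLocallyUniformlyOn_univ.2 hlim).differentiableOn
      (hF.mono fun a ha => ha.differentiableOn) isOpen_univ
  have hGa : AnalyticOnNhd ℂ G univ := fun z _ => hGd.analyticAt z
  -- isolated zero
  have hiso : ∀ᶠ z in 𝓝[≠] s, G z ≠ 0 := by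
    rcases (hGd.analyticAt s).eventually_eq_zero_or_eventually_ne_zero with h | h
    · exact absurd (hGa.eqOn_zero_of_preconnected_of_eventuallyEq_zero
        isPreconnected_univ (mem_univ s) h (mem_univ c)) hc
    · exact h
  rw [eventually_nhdsWithin_iff, Metric.eventually_nhds_iff] at hiso
  obtain ⟨ε, hε, hε2⟩ := hiso
  set ρ := min r ε / 2 with hρ
  have hρ0 : 0 < ρ := by positivity
  have hρr : ρ < r := by
    have := min_le_left r ε
    have := lt_min hr hε
    rw [hρ]; linarith
  have hρε : ρ < ε := by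
    have := min_le_right r ε
    have := lt_min hr hε
    rw [hρ]; linarith
  have hsph : ∀ z ∈ sphere s ρ, G z ≠ 0 := by
    intro z hz
    rw [mem_sphere] at hz
    refine hε2 (by rw [hz]; exact hρε) ?_
    rintro rfl
    simp at hz
    linarith
  -- minimum of `|G|` on the circle
  obtain ⟨z0, hz0, hmin⟩ := (isCompact_sphere s ρ).exists_isMinOn
    (NormedSpace.sphere_nonempty.2 hρ0.le) (hGd.continuous.norm.continuousOn)
  set m := ‖G z0‖ with hm
  have hm0 : 0 < m := norm_pos_iff.2 (hsph z0 hz0)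
  have hu : TendstoUniformlyOn F G l (closedBall s ρ) :=
    (tendstoLocallyUniformlyOn_iff_tendstoUniformlyOn_of_compact (isCompact_closedBall s ρ)).1
      (hlim.tendstoLocallyUniformlyOn)
  rw [Metric.tendstoUniformlyOn_iff] at hu
  obtain ⟨a, ha1, ha2, ha3⟩ := ((hu (m / 3) (by positivity)).and (hF.and hz)).exists
  have hne : ∀ w ∈ closedBall s ρ, F a w ≠ 0 := fun w hw =>
    ha3 w (by rw [mem_ball]; rw [mem_closedBall] at hw; linarith)
  have hd : DiffContOnCl ℂ (fun w => (F a w)⁻¹) (ball s ρ) := by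
    refine DifferentiableOn.diffContOnCl ?_
    rw [closure_ball s hρ0.ne']
    intro w hw
    exact ((ha2 w).inv (hne w hw)).differentiableWithinAt
  have hb : ∀ z ∈ frontier (ball s ρ), ‖(F a z)⁻¹‖ ≤ (2 * m / 3)⁻¹ := by
    intro z hz
    rw [frontier_ball s hρ0.ne'] at hz
    have h1 := ha1 z (sphere_subset_closedBall hz)
    have h2 : m ≤ ‖G z‖ := hmin hz
    rw [dist_eq_norm] at h1
    have h3 : ‖G z‖ - ‖F a z‖ ≤ ‖G z - F a z‖ := norm_sub_norm_le _ _
    rw [norm_inv]
    exact inv_anti₀ (by positivity) (by linarith)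
  have h4 := Complex.norm_le_of_forall_mem_frontier_norm_le isBounded_ball hd hb
    (subset_closure (mem_ball_self hρ0))
  rw [norm_inv] at h4
  have h5 : 2 * m / 3 ≤ ‖F a s‖ := by
    have h6 : 0 < ‖F a s‖ := norm_pos_iff.2 (hne s (mem_closedBall_self hρ0.le))
    rwa [inv_le_inv₀ h6 (by positivity)] at h4
  have h7 := ha1 s (mem_closedBall_self hρ0.le)
  rw [hs, dist_eq_norm, zero_sub, norm_neg] at h7
  linarith

/-- P7 -/
theorem conv_line {E : ℝ → ℂ → ℂ} {G : ℂ → ℂ} (hE : ∀ a, 0 < a → Differentiable ℂ (E a))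
    (hz : ∀ a, 0 < a → ∀ s, E a s = 0 → s.re = 1 / 2) (hG : G (1 / 2) ≠ 0)
    (hlim : TendstoLocallyUniformly (fun a s => E a s / E a (1 / 2)) G atTop) :
    ∀ s, G s = 0 → s.re = 1 / 2 := by
  intro s hs
  by_contra hre
  have hr : 0 < |s.re - 1 / 2| := abs_pos.2 (sub_ne_zero.2 hre)
  have hpt := (tendstoLocallyUniformlyOn_univ.2 hlim).tendsto_at (mem_univ (1 / 2 : ℂ))
  have h0 : ∀ᶠ a in atTop, E a (1 / 2) ≠ 0 := by
    filter_upwards [hpt.eventually_ne hG] with a ha h
    exact ha (by rw [h]; simp)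
  refine hurwitz_point hr (F := fun a s => E a s / E a (1 / 2)) ?_ ?_ hlim hG hs
  · filter_upwards [eventually_gt_atTop 0] with a ha
    exact (hE a ha).div_const _
  · filter_upwards [eventually_gt_atTop 0, h0] with a ha ha0 w hw hw0
    have h1 := hz a ha w (by
      rcases div_eq_zero_iff.1 hw0 with h | h
      · exact h
      · exact absurd h ha0)
    rw [mem_ball, dist_eq_norm] at hw
    have h2 := (Complex.abs_re_le_norm (w - s)).trans_lt hw
    rw [Complex.sub_re, h1, abs_sub_comm] at h2
    exact lt_irrefl _ h2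

/-- the limit is entire -/
theorem conv_differentiable {E : ℝ → ℂ → ℂ} {G : ℂ → ℂ} (hE : ∀ a, 0 < a → Differentiable ℂ (E a))
    (hlim : TendstoLocallyUniformly (fun a s => E a s / E a (1 / 2)) G atTop) :
    Differentiable ℂ G := by
  rw [← differentiableOn_univ]
  refine (tendstoLocallyUniformlyOn_univ.2 hlim).differentiableOn ?_ isOpen_univ
  filter_upwards [eventually_gt_atTop 0] with a ha
  exact ((hE a ha).div_const _).differentiableOn

/-- the value of the limit at `1/2` -/
theorem conv_half {E : ℝ → ℂ → ℂ} {G : ℂ → ℂ} (hG : G (1 / 2) ≠ 0)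
    (hlim : TendstoLocallyUniformly (fun a s => E a s / E a (1 / 2)) G atTop) :
    G (1 / 2) = 1 := by
  have hpt := (tendstoLocallyUniformlyOn_univ.2 hlim).tendsto_at (mem_univ (1 / 2 : ℂ))
  refine tendsto_nhds_unique hpt (tendsto_const_nhds.congr' ?_)
  filter_upwards [hpt.eventually_ne hG] with a ha
  have : E a (1 / 2) ≠ 0 := fun h => ha (by rw [h]; simp)
  rw [div_self this]

end Pool.Agent.Y23.G.CA
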