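import Pool.Agent.Run7.h336.CA15
import Pool.Agent.Run7.h336.CA16
import Pool.Agent.Run7.h114.CA.Gen
import Pool.Agent.Run7.h833.CAz.P11

/-!
Project CA, the whole theorem for an L-function with `Λ(1 - s) = Λ(s)` and without zeros on the window.
-/

set_option autoImplicit false
set_option linter.unusedSectionVars false
set_option maxHeartbeats 2000000

open Complex Filter Topology Set MeasureTheory
open scoped ComplexConjugate

namespace Pool.Agent.Y23.G.CA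

variable [K : Win] [L : LFun]

lemma rh_iff' : (∀ ρ : Zt, (ρ : ℂ).re = 1 / 2) ↔ ∀ s : ℂ, L.X s = 0 → s.re = 1 / 2 :=
  ⟨fun h s hs => h ⟨s, hs⟩, fun h ρ => h ρ ρ.2⟩

lemma GM_le {a : ℝ} (ha : 0 < a) {f : ℝ → ℂ} (hf : Hd a f) : GM a * NH f ≤ QQ f := by
  have := bq_nonneg (K := K) (DZ := zd (L := L)) ha hf
  unfold bq at this
  linarith

lemma pos_iff : (∀ ρ : Zt, (ρ : ℂ).re = 1 / 2) ↔ ∀ a : ℝ, 0 < a → 0 ≤ GM a := by
  constructor
  · intro h a _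
    exact GM_nonneg h a
  · intro h
    refine pos_RH (L := L) fun a ha f hf => ?_
    exact (mul_nonneg (h a ha) (NH_nonneg f)).trans (GM_le ha hf)

/-- the lowest quotient tends to `-∞` if and only if the Riemann hypothesis fails -/
theorem bot_iff : (¬ ∀ ρ : Zt, (ρ : ℂ).re = 1 / 2) ↔ Tendsto (fun a => GM a) atTop atBot := by
  constructor
  · intro hn
    rw [bdd_iff] at hn
    push Not at hn
    refine tendsto_atBot.2 fun b => ?_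
    obtain ⟨a, ha, hb⟩ := hn (-b)
    filter_upwards [eventually_ge_atTop a] with x hx
    have := GM_anti ha hx
    linarith
  · intro h hRH
    obtain ⟨a, ha1⟩ := (h.eventually (eventually_lt_atBot 0)).exists
    have := GM_nonneg hRH a
    linarith

theorem general (hfe : ∀ s, L.X (1 - s) = L.X s) (hno : NoZ K L) :
    ∃ (E : ℝ → ℂ → ℂ) (d : ℝ → ℕ),
      (∀ a : ℝ, 0 < a → 1 ≤ d a ∧ Differentiable ℂ (E a) ∧
        (∃ f, Hd a f ∧ NH f ≠ 0 ∧ QQ f = GM a * NH f ∧ ∀ s, TT f (s - 1 / 2) = E a s) ∧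
        (∀ s, E a (1 - conj s) = conj (E a s)) ∧
        ((∀ s, E a (1 - s) = E a s) ∨ ∀ s, E a (1 - s) = -E a s) ∧
        (∀ s, E a s = 0 → s.re = 1 / 2 ∧ deriv (E a) s ≠ 0) ∧
        (∀ f, Hd a f → (QQ f = GM a * NH f ↔
          ∃ p : Polynomial ℂ, p.natDegree < d a ∧ ∀ s, TT f (s - 1 / 2) = p.eval s * E a s)) ∧
        ∀ p : Polynomial ℂ, p.natDegree < d a → ∃ f, Hd a f ∧ QQ f = GM a * NH f ∧
          ∀ s, TT f (s - 1 / 2) = p.eval s * E a s) ∧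
      ((∀ s : ℂ, L.X s = 0 → s.re = 1 / 2) ↔ ∃ G : ℂ → ℂ,
        TendstoLocallyUniformly (fun a s => E a s / E a (1 / 2)) G atTop ∧ G (1 / 2) = 1 ∧ ∀ s, L.X s = 0 → G s = 0) ∧
      (((∀ s : ℂ, L.X s = 0 → s.re = 1 / 2) ∧ ∀ s, L.X s = 0 → deriv L.X s ≠ 0) ↔
        TendstoLocallyUniformly (fun a s => E a s / E a (1 / 2)) (fun s => L.X s / L.X (1 / 2)) atTop) ∧
      ((∀ s : ℂ, L.X s = 0 → s.re = 1 / 2) →
        (∃ G : ℂ → ℂ, Differentiable ℂ G ∧ G (1 / 2) = 1 ∧ (∀ s, G s = 0 ↔ L.X s = 0) ∧ (∀ s, G s = 0 → deriv G s ≠ 0) ∧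
          TendstoLocallyUniformly (fun a s => E a s / E a (1 / 2)) G atTop) ∧
        (∀ c R : ℝ, 0 < c → c < cc → 0 ≤ R → ∃ A : ℝ, 0 < A ∧ ∀ a : ℝ, A ≤ a → ∃ ζ : ℂ → ℂ,
          (∀ ρ, L.X ρ = 0 → ‖ρ - 1 / 2‖ ≤ R → E a (ζ ρ) = 0 ∧ ‖ζ ρ - ρ‖ < Real.exp (-c * Real.exp (2 * a / L.m))) ∧
          (∀ ρ ρ', L.X ρ = 0 → L.X ρ' = 0 → ‖ρ - 1 / 2‖ ≤ R → ‖ρ' - 1 / 2‖ ≤ R → ζ ρ = ζ ρ' → ρ = ρ') ∧
          ∀ s, E a s = 0 → ‖s - 1 / 2‖ ≤ R → ∃ ρ, L.X ρ = 0 ∧ ‖ρ - 1 / 2‖ ≤ R ∧ s = ζ ρ) ∧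
        ((∀ s, L.X s = 0 → deriv L.X s ≠ 0) →
          (∀ a : ℝ, 0 < a → 0 < GM a) ∧ ∃ A : ℝ, 0 < A ∧ ∀ a : ℝ, A ≤ a → d a = 1)) := by
  obtain ⟨e, N, w1, hg⟩ := exists_gen (K := K) (L := L)
  have hsym := sym_of_fe hfe
  have hgr := X_growth (L := L)
  refine ⟨EE e, fun a => N a + 1, fun a ha => ?_, ?_, ?_, fun h => ?_⟩
  · obtain ⟨h1, h2, h3, h4, h5, h6⟩ := structureE hsym hg ha
    have hG := hg.gd a ha
    refine ⟨Nat.le_add_left 1 (N a), h1, ⟨e a, hG.mem.1, fun h0 => hG.nz (TT_zero_of_NH hG.mem.1.1 h0 (w1 a)),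
      (KK_iff hG.mem.1).1 hG.mem, fun s => rfl⟩, h3, h4, h5, fun f hf => ?_, fun p hp => ?_⟩
    · rw [← KK_iff hf]
      exact h6 f hf
    · obtain ⟨g, hg1, hg2⟩ := hG.poly ha (p.comp (Polynomial.X + Polynomial.C (1 / 2))) (by
        rw [Polynomial.natDegree_comp, Polynomial.natDegree_X_add_C]
        have hp' : p.natDegree < N a + 1 := hp
        omega)
      refine ⟨g, hg1.1, (KK_iff hg1.1).1 hg1, fun s => ?_⟩
      rw [hg2, Polynomial.eval_comp]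
      simp only [Polynomial.eval_add, Polynomial.eval_X, Polynomial.eval_C, sub_add_cancel]
      rfl
  · rw [← rh_iff']
    exact equiv_RH hsym hg hno
  · rw [← rh_iff']
    exact equiv_simple hsym hg hno hfe hgr
  · have hG := rh_iff'.2 h
    refine ⟨?_, fun c R hc0 hc hR => zerosE hg hno hG hc0 hc hR, fun hs => ?_⟩
    · obtain ⟨G, h1, h2, h3, h4, h5, _⟩ := convE hsym hg hno hG
      exact ⟨G, h1, h2, h3, h4, h5⟩
    · obtain ⟨h1, A, hA, h2⟩ := uniqueE hsym hg hno hfe hgr X_not_exp hG hs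
      exact ⟨h1, A, hA, fun a ha => by show N a + 1 = 1; rw [h2 a ha]⟩

end Pool.Agent.Y23.G.CA
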