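import Pool.Agent.Run7.h336.CB.SDef

/-!
# Weil's quadratic form of an L-function of an elliptic curve over a number field of degree `d`
-/

set_option autoImplicit false

open Complex MeasureTheory
open scoped ComplexConjugate

namespace Pool.Agent.Run7.h114.CA.TD

open Pool.Agent.Run7.h336.CB.S (F)

/-- `-L'(s)/L(s) = ∑ t(n) n^(-s)` for all `s` with sufficiently large real part. -/
def IsLogDer (L : ℂ → ℂ) (t : ℕ → ℂ) : Prop :=
  ∃ σ : ℝ, ∀ s : ℂ, σ ≤ s.re → LSeriesHasSum t s (-logDeriv L s)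

/-- Weil's quadratic form of `L`, `-L'/L(s) = ∑ t(n) n^(-s)`, with the completed function
`A^(s/2) ((2π)^(-s) Γ(s))^d L(s)` and the critical line `Re s = 1`, on the functions supported in `[-r, r]`:
`(1/π) ∫ (log A / 2 + d (Re ψ(1 + i x) - log 2π)) |F g(x)|² dx`, `ψ` the digamma function, minus twice the real part
of the sum over `n ≤ e^(2 r)` of `t(n)/n ∫ g(x + log n) conj g(x) dx`. -/
noncomputable def W (d : ℕ) (A : ℝ) (t : ℕ → ℂ) (r : ℝ) (g : ℝ → ℂ) : ℝ :=
  1 / Real.pi * (∫ x : ℝ, (Real.log A / 2 + d * ((digamma (1 + x * I)).re - Real.log (2 * Real.pi))) * ‖F g x‖ ^ 2) -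
    2 * (∑ n ∈ Finset.Icc 1 ⌊Real.exp (2 * r)⌋₊, t n / n * ∫ x : ℝ, g (x + Real.log n) * conj (g x)).re

end Pool.Agent.Run7.h114.CA.TD
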