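import Mathlib

/-!
# The definitions of the statement on minimisers of Weil's quadratic form, in the variable `z`, `s = k/2 + i z`
-/

set_option autoImplicit false

open Complex Filter Topology Set MeasureTheory
open scoped ComplexConjugate

namespace Pool.Agent.Run7.h114.CA.Zv

/-- The Fourier transform `∫ f(x) e^(i z x) dx` of `f` at a complex number `z`. -/
noncomputable def F (f : ℝ → ℂ) (z : ℂ) : ℂ := ∫ x : ℝ, f x * cexp (I * z * x)

/-- The mass `∫ |F f(t)|² dt` of the Fourier transform on the window `|t| ≤ κ`. -/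
noncomputable def Mass (κ : ℝ) (f : ℝ → ℂ) : ℝ := ∫ t in Set.Icc (-κ) κ, ‖F f t‖ ^ 2

/-- The form domain: `f` is square integrable, vanishes off `[-a, a]`, and its Fourier transform is square
integrable against the logarithmic weight. -/
def InDom (a : ℝ) (f : ℝ → ℂ) : Prop := MemLp f 2 volume ∧ (∀ x : ℝ, a < |x| → f x = 0) ∧
  Integrable fun t : ℝ => Real.log (3 + |t|) * ‖F f t‖ ^ 2

/-- The lowest quotient of the form `W a` and the mass: the infimum of `W a f` over the `f` of mass one. -/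
noncomputable def low (W : ℝ → (ℝ → ℂ) → ℝ) (κ a : ℝ) : ℝ :=
  sInf {r : ℝ | ∃ f : ℝ → ℂ, InDom a f ∧ Mass κ f = 1 ∧ W a f = r}

/-- `f` attains the lowest quotient (or is zero). -/
def Minimal (W : ℝ → (ℝ → ℂ) → ℝ) (κ a : ℝ) (f : ℝ → ℂ) : Prop := W a f = low W κ a * Mass κ f

/-- `E_a(z) / E_a(0)` converges locally uniformly on the complex plane to `G`, as `a → ∞`. -/
def ConvergesTo (E : ℝ → ℂ → ℂ) (G : ℂ → ℂ) : Prop :=
  TendstoLocallyUniformly (fun a z => E a z / E a 0) G atTop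

/-- For every `a > 0` the Fourier transforms of the minimisers are the multiples `p E_a` by the polynomials `p`
of degree less than `d_a`, `d_a ≥ 1`; `E_a` is entire, real on the real line, even or odd, and its zeros are real
and simple. -/
structure Describes (W : ℝ → (ℝ → ℂ) → ℝ) (κ : ℝ) (E : ℝ → ℂ → ℂ) (d : ℝ → ℕ) : Prop where
  entire : ∀ a : ℝ, 0 < a → Differentiable ℂ (E a)
  attained : ∀ a : ℝ, 0 < a → ∃ f, InDom a f ∧ Mass κ f ≠ 0 ∧ Minimal W κ a f ∧ ∀ z, F f z = E a z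
  real : ∀ a : ℝ, 0 < a → ∀ z, E a (conj z) = conj (E a z)
  parity : ∀ a : ℝ, 0 < a → (∀ z, E a (-z) = E a z) ∨ ∀ z, E a (-z) = -E a z
  zeros : ∀ a : ℝ, 0 < a → ∀ z, E a z = 0 → z.im = 0 ∧ deriv (E a) z ≠ 0
  one_le : ∀ a : ℝ, 0 < a → 1 ≤ d a
  minimisers : ∀ a : ℝ, 0 < a → ∀ f, InDom a f → (Minimal W κ a f ↔
    ∃ p : Polynomial ℂ, p.natDegree < d a ∧ ∀ z, F f z = p.eval z * E a z)
  multiples : ∀ a : ℝ, 0 < a → ∀ p : Polynomial ℂ, p.natDegree < d a →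
    ∃ f, InDom a f ∧ Minimal W κ a f ∧ ∀ z, F f z = p.eval z * E a z

/-- The zeros of `E` in the disc `|z| ≤ R` are the values of an injective function `ζ` on the distinct zeros `ρ`
of `X` in this disc, and `|ζ(ρ) - ρ| < ε`. (A value of `ζ` may lie slightly outside the disc.) -/
def Matched (X E : ℂ → ℂ) (R ε : ℝ) : Prop := ∃ ζ : ℂ → ℂ,
  (∀ ρ, X ρ = 0 → ‖ρ‖ ≤ R → E (ζ ρ) = 0 ∧ ‖ζ ρ - ρ‖ < ε) ∧
  (∀ ρ ρ', X ρ = 0 → X ρ' = 0 → ‖ρ‖ ≤ R → ‖ρ'‖ ≤ R → ζ ρ = ζ ρ' → ρ = ρ') ∧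
  ∀ z, E z = 0 → ‖z‖ ≤ R → ∃ ρ, X ρ = 0 ∧ ‖ρ‖ ≤ R ∧ z = ζ ρ

/-- All zeros of `X` are real. -/
def RealZeros (X : ℂ → ℂ) : Prop := ∀ z, X z = 0 → z.im = 0

/-- All zeros of `X` are simple. -/
def SimpleZeros (X : ℂ → ℂ) : Prop := ∀ z, X z = 0 → deriv X z ≠ 0

/-- The theorem for the function `X` of degree `m` and conductor `N`, the forms `W a` and the window
`|t| ≤ κ`. -/
structure Statement (X : ℂ → ℂ) (m : ℕ) (N : ℝ) (W : ℝ → (ℝ → ℂ) → ℝ) (κ : ℝ) : Prop where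
  /-- `low` is a lower bound of the quotients -/
  low_le : ∀ a : ℝ, 0 < a → ∀ f, InDom a f → low W κ a * Mass κ f ≤ W a f
  /-- the upper bound of the lowest quotient -/
  upper : ∀ c : ℝ, c < 2 * (Real.pi * m * N ^ (-1 / (m : ℝ))) → ∃ A : ℝ, ∀ a : ℝ, A ≤ a →
    low W κ a ≤ Real.exp (-c * Real.exp (2 * a / m))
  /-- the zeros and the sign of the lowest quotient -/
  nonneg : RealZeros X ↔ ∀ a : ℝ, 0 < a → 0 ≤ low W κ a
  /-- the zeros and the limit of the lowest quotient -/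
  tendsto : RealZeros X ↔ Tendsto (low W κ) atTop (𝓝 0)
  /-- the lowest quotient if there is a non-real zero -/
  diverges : ¬ RealZeros X ↔ Tendsto (low W κ) atTop atBot
  /-- the minimisers, and the convergence -/
  ground : ∃ (E : ℝ → ℂ → ℂ) (d : ℝ → ℕ), Describes W κ E d ∧
    (RealZeros X ↔ ∃ G : ℂ → ℂ, ConvergesTo E G ∧ G 0 = 1 ∧ ∀ z, X z = 0 → G z = 0) ∧
    (RealZeros X ∧ SimpleZeros X ↔ ConvergesTo E fun z => X z / X 0) ∧
    (RealZeros X →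
      (∃ G : ℂ → ℂ, Differentiable ℂ G ∧ G 0 = 1 ∧ (∀ z, G z = 0 ↔ X z = 0) ∧
        (∀ z, G z = 0 → deriv G z ≠ 0) ∧ ConvergesTo E G) ∧
      (∀ c R : ℝ, 0 < c → c < Real.pi * m * N ^ (-1 / (m : ℝ)) → 0 ≤ R → ∃ A : ℝ, 0 < A ∧
        ∀ a : ℝ, A ≤ a → Matched X (E a) R (Real.exp (-c * Real.exp (2 * a / m)))) ∧
      (SimpleZeros X → (∀ a : ℝ, 0 < a → 0 < low W κ a) ∧ ∃ A : ℝ, 0 < A ∧ ∀ a : ℝ, A ≤ a → d a = 1))

end Pool.Agent.Run7.h114.CA.Zv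

namespace Pool.Agent.Run7.h114.CA.HkT

open Pool.Agent.Run7.h114.CA.Zv

/-- The coefficients `t(n)` of `-L'(s)/L(s) = ∑ t(n) n^(-s)`, where `L(s) = ∑ b(n) n^(-s)`, `b(1) = 1`: by
recursion, `∑_{d | n} t(d) b(n/d) = b(n) log n` for `n ≥ 1`. -/
noncomputable def lder (b : ℕ → ℝ) (n : ℕ) : ℝ :=
  b n * Real.log n - ∑ d ∈ n.properDivisors.attach, lder b d.1 * b (n / d.1)
termination_by n
decreasing_by exact (Nat.mem_properDivisors.1 d.2).2

/-- Weil's quadratic form of the L-function `L(s) = ∑ b(n) n^(-s)`, `-L'(s)/L(s) = ∑ t(n) n^(-s)`, of a cusp form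
of weight `k` and level `N`, on the functions supported in `[-a, a]`:
`(1/π) ∫ (log (√N / 2π) + Re ψ(k/2 + i x)) |F f(x)|² dx`, `ψ` the digamma function, minus twice the real part of the
sum over `n ≤ e^(2 a)` of `t(n) n^(-k/2) ∫ f(x + log n) conj f(x) dx`. -/
noncomputable def W (k N : ℝ) (b : ℕ → ℝ) (a : ℝ) (f : ℝ → ℂ) : ℝ :=
  1 / Real.pi * (∫ x : ℝ, (Real.log (Real.sqrt N / (2 * Real.pi)) + (digamma (k / 2 + x * I)).re) * ‖F f x‖ ^ 2) -
    2 * (∑ n ∈ Finset.Icc 1 ⌊Real.exp (2 * a)⌋₊, ((lder b n / (n : ℝ) ^ (k / 2) : ℝ) : ℂ) *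
      ∫ x : ℝ, f (x + Real.log n) * conj (f x)).re

end Pool.Agent.Run7.h114.CA.HkT
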